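import Pool.Agent.Work.MP_a9cb80_sn.Interface4

/-! Block BAF (helper87): finitely many base systems. -/

namespace Pool.SN

open scoped Classical

theorem p_BAF : S_BAF := by
  intro r
  refine Set.Finite.subset (s := (Set.pi Set.univ (fun _ : Fin r => Set.Iic (4 * r))) ×ˢ
    (Set.univ : Set (Finset (Option (Fin r) × Option (Fin r))))) ?_ ?_
  · exact (Set.Finite.pi fun _ => Set.finite_Iic _).prod Set.finite_univ
  · rintro ⟨v, T⟩ ⟨P, hP, c, t, s, l, ⟨-, -, h3⟩, hv, -⟩
    refine Set.mem_prod.2 ⟨?_, Set.mem_univ _⟩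
    intro i _
    have h1 : v i = fd l (some i) := hv i
    have h2 : Nat.card {a : P × Bool // l a = some i} ≤ Nat.card (P × Bool) :=
      Nat.card_le_card_of_injective Subtype.val Subtype.val_injective
    rw [Nat.card_prod, Nat.card_eq_fintype_card (α := Bool), Fintype.card_bool] at h2
    have h4 : Nat.card P = Fintype.card P := Nat.card_eq_fintype_card
    rw [Fintype.card_fin] at h3
    show v i ≤ 4 * r
    rw [h1]
    unfold fd
    omega

end Pool.SN
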