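import Pool.Agent.Work.MP_a9cb80_sn.Interface

/-!
Block CNT (helper31): the numbers of sides of the new faces.
-/

namespace Pool.SN

lemma CNT_card {A : Type} [Fintype A] (p : A → Prop) [DecidablePred p] :
    Nat.card {a // p a} = ∑ a, if p a then 1 else 0 := by
  rw [Nat.card_eq_fintype_card, Fintype.card_subtype, Finset.card_filter]

theorem p_CNT : S_CNT := by
  intro P L M _ _ _ l x g o w ho hw
  classical
  have hw' : ∀ y, ¬ w = o y := fun y h => hw y h.symm
  refine ⟨?_, fun i => ?_⟩
  · rw [CNT_card, Fintype.sum_prod_type]
    simp only [Fintype.sum_sum_type, Fintype.sum_bool, ll, hw, if_false, Finset.sum_const_zero]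
    cases g <;> simp [hw]
  · rw [CNT_card, CNT_card, Fintype.sum_prod_type, Fintype.sum_prod_type]
    simp only [Fintype.sum_sum_type, Fintype.sum_bool, ll, ho.eq_iff]
    cases g
    · simp only [Bool.not_false, Bool.not_true, Bool.true_eq_false, if_false, if_true, hw',
        ho.eq_iff, add_assoc, zero_add, add_zero]
    · simp only [Bool.not_false, Bool.not_true, Bool.false_eq_true, if_false, if_true, hw',
        ho.eq_iff, add_assoc, zero_add, add_zero]

end Pool.SN
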