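import Pool.Agent.Work.MP_a9cb80_sn.Interface

/-!
# MP_a9cb80_lc: block CUR
-/

set_option autoImplicit false

namespace Pool.SN

theorem CUR_trans {Q : Type} {σ : Equiv.Perm Q} {a b d : Q} (h1 : ∃ k : ℕ, (σ ^ k) a = b)
    (h2 : ∃ k : ℕ, (σ ^ k) b = d) : ∃ k : ℕ, (σ ^ k) a = d := by
  obtain ⟨k, rfl⟩ := h1
  obtain ⟨m, rfl⟩ := h2
  exact ⟨m + k, by rw [pow_add, Equiv.Perm.mul_apply]⟩

theorem CUR_step {Q : Type} {σ : Equiv.Perm Q} {a b : Q} (h : σ a = b) :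
    ∃ k : ℕ, (σ ^ k) a = b := ⟨1, by rw [pow_one, h]⟩

theorem p_CUR (hCV : S_CV) : S_CUR := by
  intro P _ _ c t s x g hc
  obtain ⟨v1, v2, v3, v4, -, -, -, -⟩ := hCV P c x
  have hxf : ∃ k : ℕ, (cc c x ^ k) (Sum.inl x) = Sum.inr false := CUR_step v1
  have hft : ∃ k : ℕ, (cc c x ^ k) (Sum.inr false) = Sum.inr true := CUR_step v2
  have htc : ∃ k : ℕ, (cc c x ^ k) (Sum.inr true) = Sum.inl (c x) := CUR_step v3
  have hA : ∀ z, ∃ k : ℕ, (cc c x ^ k) (Sum.inl z) = Sum.inl (c z) := by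
    intro z
    by_cases hz : z = x
    · subst hz
      exact CUR_trans hxf (CUR_trans hft htc)
    · exact CUR_step (v4 z hz)
  have hB : ∀ (k : ℕ) (z : P), ∃ m : ℕ, (cc c x ^ m) (Sum.inl z) = Sum.inl ((c ^ k) z) := by
    intro k
    induction k with
    | zero => intro z; exact ⟨0, by simp⟩
    | succ k ih =>
      intro z
      have h1 := hA ((c ^ k) z)
      rw [← Equiv.Perm.mul_apply, ← pow_succ'] at h1
      exact CUR_trans (ih z) h1
  have hC : ∀ z z' : P, ∃ m : ℕ, (cc c x ^ m) (Sum.inl z) = Sum.inl z' := by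
    intro z z'
    obtain ⟨k, rfl⟩ := hc.1 z z'
    exact hB k z
  have hD : ∀ (z : P) (b : P ⊕ Bool), ∃ m : ℕ, (cc c x ^ m) (Sum.inl z) = b := by
    rintro z (z' | (_ | _))
    · exact hC z z'
    · exact CUR_trans (hC z x) hxf
    · exact CUR_trans (hC z x) (CUR_trans hxf hft)
  refine ⟨?_, ?_⟩
  · rintro (z | (_ | _)) b
    · exact hD z b
    · exact CUR_trans hft (CUR_trans htc (hD _ b))
    · exact CUR_trans htc (hD _ b)
  · rintro (z | b)
    · obtain ⟨h1, h2, h3⟩ := hc.2 z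
      refine ⟨?_, ?_, ?_⟩
      · simp [tt, h1]
      · simpa [tt] using h2
      · simpa [tt, ss] using h3
    · cases b <;> cases g <;> simp [tt, ss]

end Pool.SN
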