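import Pool.Agent.Work.MP_a9cb80_sn.Interface4

/-!
Block FEQ.
-/

namespace Pool.SN

open scoped Classical

theorem p_FEQ : S_FEQ := by
  intro P P' c t s c' t' s' e hc ht hs a
  obtain ⟨x, b⟩ := a
  have hsymm : ∀ w, c.symm (e w) = e (c'.symm w) := by
    intro w
    rw [Equiv.symm_apply_eq, ← hc, Equiv.apply_symm_apply]
  have hu : (if b = true then c (e x) else e x) = e (if b = true then c' x else x) := by
    cases b
    · rfl
    · exact (hc x).symm
  unfold face
  show (if (b == s (if b = true then c (e x) else e x)) = true then
      (t (if b = true then c (e x) else e x), true)
    else (c.symm (t (if b = true then c (e x) else e x)), false)) =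
    (e (if (b == s' (if b = true then c' x else x)) = true then
        (t' (if b = true then c' x else x), true)
      else (c'.symm (t' (if b = true then c' x else x)), false)).1,
      (if (b == s' (if b = true then c' x else x)) = true then
        (t' (if b = true then c' x else x), true)
      else (c'.symm (t' (if b = true then c' x else x)), false)).2)
  rw [hu, hs, ← ht, hsymm]
  generalize (if b = true then c' x else x) = u
  by_cases h : (b == s' u) = true
  · rw [if_pos h, if_pos h]
  · rw [if_neg h, if_neg h]

end Pool.SN
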