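import Pool.Agent.Work.MP_a9cb80_sn.Interface

namespace Pool.SN

theorem FV_aux {P : Type} [DecidableEq P] (c t : Equiv.Perm P) (s : P → Bool) (x : P) (g : Bool)
    (h1 : (cc c x).symm (Sum.inl (c x)) = Sum.inr true)
    (h2 : ∀ z, z ≠ c x → (cc c x).symm (Sum.inl z) = Sum.inl (c.symm z)) (y : P) (b : Bool) :
    (if (b == ss s g (Sum.inl y)) then (tt t (Sum.inl y), true)
      else ((cc c x).symm (tt t (Sum.inl y)), false)) =
    ent x (if (b == s y) then (t y, true) else (c.symm (t y), false)) := by
  have hs : ss s g (Sum.inl y) = s y := rfl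
  have ht : tt t (Sum.inl y) = Sum.inl (t y) := rfl
  rw [hs, ht]
  by_cases hb : (b == s y) = true
  · rw [if_pos hb, if_pos hb]
    unfold ent
    rw [if_neg (by simp)]
  · rw [if_neg hb, if_neg hb]
    unfold ent
    by_cases hy : t y = c x
    · rw [hy, h1, if_pos (by simp)]
    · rw [h2 _ hy, if_neg]
      intro h
      apply hy
      have h3 : c.symm (t y) = x := (Prod.mk.inj h).1
      rw [← h3, Equiv.apply_symm_apply]

theorem p_FV (hCV : S_CV) : S_FV := by
  intro P _ c t s x g _
  obtain ⟨v1, v2, v3, v4, v5, v6, v7, v8⟩ := hCV P c x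
  have tf : tt t (Sum.inr false) = Sum.inr true := rfl
  have tr : tt t (Sum.inr true) = Sum.inr false := rfl
  refine ⟨?_, ?_, ?_, ?_, ?_⟩
  · rintro ⟨z, b⟩ h1 h2
    have hz : z ≠ x := by
      rintro rfl
      cases b
      · exact h2 rfl
      · exact h1 rfl
    cases b
    · exact FV_aux c t s x g v7 v8 z false
    · have h := FV_aux c t s x g v7 v8 (c z) true
      have e : face (cc c x) (tt t) (ss s g) (Sum.inl z, true) =
          (if (true == ss s g (cc c x (Sum.inl z))) then (tt t (cc c x (Sum.inl z)), true)
            else ((cc c x).symm (tt t (cc c x (Sum.inl z))), false)) := rfl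
      rw [e, v4 z hz, h]
      rfl
  · have h := FV_aux c t s x g v7 v8 (c x) true
    have e : face (cc c x) (tt t) (ss s g) (Sum.inr true, true) =
        (if (true == ss s g (cc c x (Sum.inr true))) then (tt t (cc c x (Sum.inr true)), true)
          else ((cc c x).symm (tt t (cc c x (Sum.inr true))), false)) := rfl
    rw [e, v3, h]
    rfl
  · exact FV_aux c t s x g v7 v8 x false
  · rintro rfl
    refine ⟨?_, ?_, ?_, ?_⟩
    · have e : face (cc c x) (tt t) (ss s true) (Sum.inl x, true) =
          (if (true == ss s true (cc c x (Sum.inl x))) then (tt t (cc c x (Sum.inl x)), true)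
            else ((cc c x).symm (tt t (cc c x (Sum.inl x))), false)) := rfl
      rw [e, v1]
      rfl
    · rfl
    · have e : face (cc c x) (tt t) (ss s true) (Sum.inr false, true) =
          (if (true == ss s true (cc c x (Sum.inr false))) then (tt t (cc c x (Sum.inr false)), true)
            else ((cc c x).symm (tt t (cc c x (Sum.inr false))), false)) := rfl
      rw [e, v2, tr, v5]
      rfl
    · have e : face (cc c x) (tt t) (ss s true) (Sum.inr false, false) =
          (if (false == ss s true (Sum.inr false)) then (tt t (Sum.inr false), true)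
            else ((cc c x).symm (tt t (Sum.inr false)), false)) := rfl
      rw [e, tf, v6]
      rfl
  · rintro rfl
    refine ⟨?_, ?_, ?_, ?_⟩
    · have e : face (cc c x) (tt t) (ss s false) (Sum.inl x, true) =
          (if (true == ss s false (cc c x (Sum.inl x))) then (tt t (cc c x (Sum.inl x)), true)
            else ((cc c x).symm (tt t (cc c x (Sum.inl x))), false)) := rfl
      rw [e, v1, tf, v6]
      rfl
    · rfl
    · have e : face (cc c x) (tt t) (ss s false) (Sum.inr true, false) =
          (if (false == ss s false (Sum.inr true)) then (tt t (Sum.inr true), true)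
            else ((cc c x).symm (tt t (Sum.inr true)), false)) := rfl
      rw [e, tr, v5]
      rfl
    · have e : face (cc c x) (tt t) (ss s false) (Sum.inr false, true) =
          (if (true == ss s false (cc c x (Sum.inr false))) then (tt t (cc c x (Sum.inr false)), true)
            else ((cc c x).symm (tt t (cc c x (Sum.inr false))), false)) := rfl
      rw [e, v2]
      rfl

end Pool.SN
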