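import Pool.Agent.Work.MP_a9cb80_sn.Interface

/-! # INJ: the face map is injective -/

set_option autoImplicit false

namespace Pool.SN

theorem INJ_y {P : Type} (c t : Equiv.Perm P) (s : P → Bool) (a a' : P × Bool)
    (h : face c t s a = face c t s a') :
    (if a.2 then c a.1 else a.1) = (if a'.2 then c a'.1 else a'.1) ∧ a.2 = a'.2 := by
  unfold face at h
  generalize (if a.2 then c a.1 else a.1) = y at h ⊢
  generalize (if a'.2 then c a'.1 else a'.1) = y' at h ⊢
  split_ifs at h with h1 h2 h3
  · have e : y = y' := t.injective (Prod.mk.inj h).1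
    subst e
    refine ⟨rfl, ?_⟩
    rw [beq_iff_eq] at h1 h2
    rw [h1, h2]
  · exact absurd (Prod.mk.inj h).2 (by decide)
  · exact absurd (Prod.mk.inj h).2 (by decide)
  · have e : y = y' := t.injective (c.symm.injective (Prod.mk.inj h).1)
    subst e
    refine ⟨rfl, ?_⟩
    rw [beq_iff_eq] at h1 h3
    generalize a.2 = b at h1 ⊢
    generalize a'.2 = b' at h3 ⊢
    generalize s y = r at h1 h3
    revert h1 h3
    cases b <;> cases b' <;> cases r <;> decide

theorem p_INJ : S_INJ := by
  intro P c t s _ a a' h
  obtain ⟨h1, h2⟩ := INJ_y c t s a a' h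
  refine Prod.ext ?_ h2
  rw [h2] at h1
  split_ifs at h1 with h3
  · exact c.injective h1
  · exact h1

end Pool.SN
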