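import Pool.Agent.Work.MP_a9cb80_sn.Interface

set_option autoImplicit false

namespace Pool.SN

/-- The projection. -/
def LAB_pi {P : Type} (x : P) (g : Bool) : (P ⊕ Bool) × Bool → Option (P × Bool)
  | (Sum.inl z, b) => some (z, b)
  | (Sum.inr true, b) => some (x, b)
  | (Sum.inr false, b) => if b = g then some (x, !b) else none

theorem p_LAB (hORB : S_ORB) (hINJ : S_INJ) (hFV : S_FV) : S_LAB := by
  intro P L M _ _ c t s l x g o w hC hL ho how hm
  obtain ⟨F1, F2, F3, F4, F5⟩ := hFV P c t s x g hC
  have F1' : ∀ (z : P) (b : Bool), z ≠ x → face (cc c x) (tt t) (ss s g) (Sum.inl z, b) =
      ent x (face c t s (z, b)) := fun z b hz =>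
    F1 (z, b) (fun h => hz (congrArg Prod.fst h)) (fun h => hz (congrArg Prod.fst h))
  clear F1
  generalize hh : face (cc c x) (tt t) (ss s g) = h at *
  refine ⟨?_, ?_⟩
  · intro m
    rcases hm m with rfl | ⟨y, rfl⟩
    · exact ⟨(Sum.inr false, !g), by cases g <;> simp [ll]⟩
    · obtain ⟨⟨z, b⟩, rfl⟩ := hL.1 y
      exact ⟨(Sum.inl z, b), rfl⟩
  · have hent : ∀ a : P × Bool, LAB_pi x g (ent x a) = some a := by
      intro a
      unfold ent
      split_ifs with h1
      · rw [h1]; rfl
      · rfl
    have e1 : ∀ z b, z ≠ x → ent x (z, b) = (Sum.inl z, b) := by
      intro z b hz
      unfold ent
      rw [if_neg (fun h => hz (congrArg Prod.fst h))]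
    have e2 : ent x (x, true) = (Sum.inl x, true) := by
      unfold ent
      rw [if_neg (by simp)]
    have e3 : ent x (x, false) = (Sum.inr true, false) := by
      unfold ent
      rw [if_pos rfl]
    have key := hORB (P × Bool) ((P ⊕ Bool) × Bool) L M (face c t s) h (LAB_pi x g) (ent x) l o w
      (hINJ P c t s hC) ho how hent
      (by
        rintro a ⟨z | r, b⟩ hab
        · simp only [LAB_pi, Option.some.injEq] at hab
          subst hab
          by_cases hz : z = x
          · subst hz
            cases b
            · cases g
              · exact ⟨1, by rw [e3]; exact (F5 rfl).2.2.1⟩
              · exact ⟨2, by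
                  rw [e3]
                  show h (h _) = _
                  rw [(F4 rfl).2.1, (F4 rfl).2.2.1]⟩
            · exact ⟨0, e2⟩
          · exact ⟨0, e1 z b hz⟩
        · cases r
          · simp only [LAB_pi] at hab
            split_ifs at hab with hbg
            simp only [Option.some.injEq] at hab
            subst hab
            subst hbg
            cases b
            · exact ⟨1, by
                show h (ent x (x, true)) = _
                rw [e2]; exact (F5 rfl).1⟩
            · exact ⟨1, by
                show h (ent x (x, false)) = _
                rw [e3]; exact (F4 rfl).2.1⟩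
          · simp only [LAB_pi, Option.some.injEq] at hab
            subst hab
            cases b
            · exact ⟨0, e3⟩
            · cases g
              · exact ⟨2, by
                  rw [e2]
                  show h (h _) = _
                  rw [(F5 rfl).1, (F5 rfl).2.1]⟩
              · exact ⟨1, by rw [e2]; exact (F4 rfl).1⟩)
      (by
        rintro a ⟨z | r, b⟩ hab
        · simp only [LAB_pi, Option.some.injEq] at hab
          subst hab
          by_cases hz : z = x
          · subst hz
            cases b
            · exact ⟨1, F3⟩
            · cases g
              · exact ⟨3, by
                  show h (h (h _)) = _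
                  rw [(F5 rfl).1, (F5 rfl).2.1, F2]⟩
              · exact ⟨2, by
                  show h (h _) = _
                  rw [(F4 rfl).1, F2]⟩
          · exact ⟨1, F1' z b hz⟩
        · cases r
          · simp only [LAB_pi] at hab
            split_ifs at hab with hbg
            simp only [Option.some.injEq] at hab
            subst hab
            subst hbg
            cases b
            · exact ⟨2, by
                show h (h _) = _
                rw [(F5 rfl).2.1]; exact F2⟩
            · exact ⟨2, by
                show h (h _) = _
                rw [(F4 rfl).2.2.1]; exact F3⟩
          · simp only [LAB_pi, Option.some.injEq] at hab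
            subst hab
            cases b
            · cases g
              · exact ⟨2, by
                  show h (h _) = _
                  rw [(F5 rfl).2.2.1, F3]⟩
              · exact ⟨3, by
                  show h (h (h _)) = _
                  rw [(F4 rfl).2.1, (F4 rfl).2.2.1, F3]⟩
            · exact ⟨1, F2⟩)
      (by
        have hn : ∀ b, LAB_pi x g b = none → b = (Sum.inr false, !g) := by
          rintro ⟨z | r, b⟩ hb
          · simp [LAB_pi] at hb
          · cases r
            · simp only [LAB_pi] at hb
              split_ifs at hb with hbg
              cases b <;> cases g <;> simp_all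
            · simp [LAB_pi] at hb
        intro b b' hb hb'
        rw [hn b hb, hn b' hb'])
      (by
        rintro ⟨z | r, b⟩ hb
        · simp [LAB_pi] at hb
        · cases r
          · simp only [LAB_pi] at hb
            split_ifs at hb with hbg
            cases b <;> cases g
            · exact absurd rfl hbg
            · rw [(F4 rfl).2.2.2]; simp [LAB_pi]
            · rw [(F5 rfl).2.2.2]; simp [LAB_pi]
            · exact absurd rfl hbg
          · simp [LAB_pi] at hb)
      (by
        rintro ⟨z | r, b⟩ a hab
        · simp only [LAB_pi, Option.some.injEq] at hab
          subst hab
          by_cases hz : z = x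
          · subst hz
            cases b
            · right; rw [F3, hent]
            · left
              cases g
              · rw [(F5 rfl).1]; simp [LAB_pi]
              · rw [(F4 rfl).1]; simp [LAB_pi]
          · right; rw [F1' z b hz, hent]
        · cases r
          · simp only [LAB_pi] at hab
            split_ifs at hab with hbg
            simp only [Option.some.injEq] at hab
            subst hab
            subst hbg
            left
            cases b
            · rw [(F5 rfl).2.1]; simp [LAB_pi]
            · rw [(F4 rfl).2.2.1]; simp [LAB_pi]
          · simp only [LAB_pi, Option.some.injEq] at hab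
            subst hab
            cases b
            · left
              cases g
              · rw [(F5 rfl).2.2.1]; simp [LAB_pi]
              · rw [(F4 rfl).2.1]; simp [LAB_pi]
            · right; rw [F2, hent])
      hL.2
    have e : ∀ b, ll l x g o w b =
        match LAB_pi x g b with | none => w | some a => o (l a) := by
      rintro ⟨z | r, b⟩
      · rfl
      · cases r
        · by_cases hbg : b = g
          · simp [ll, LAB_pi, hbg]
          · simp [ll, LAB_pi, hbg]
        · rfl
    intro b b'
    rw [e, e, hh]
    have hk := key b b'
    rcases hb : LAB_pi x g b with _ | a <;> rcases hb' : LAB_pi x g b' with _ | a' <;>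
      rw [hb, hb'] at hk <;> exact hk

end Pool.SN
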