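import Pool.Agent.Work.MP_a9cb80_sn.Interface

/-!
# ORB: abstract orbits
-/

set_option autoImplicit false

namespace Pool.SN

theorem ORB_trans {B : Type} (h : B → B) {x y z : B} (h1 : ∃ k : ℕ, h^[k] x = y)
    (h2 : ∃ k : ℕ, h^[k] y = z) : ∃ k : ℕ, h^[k] x = z := by
  obtain ⟨k, rfl⟩ := h1
  obtain ⟨m, rfl⟩ := h2
  exact ⟨m + k, Function.iterate_add_apply h m k x⟩

theorem p_ORB : S_ORB := by
  intro A B L M _ f h pi e l o w hf ho how hpe hfib hstep hnone hnone2 hst hl b b'
  obtain ⟨lab, hlab⟩ : ∃ lab : B → M, ∀ b, lab b =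
      (match pi b with | none => w | some a => o (l a)) := ⟨_, fun _ => rfl⟩
  suffices hs : lab b = lab b' ↔ ∃ k : ℕ, h^[k] b = b' by
    rw [hlab, hlab] at hs
    exact hs
  have lnone : ∀ b, pi b = none → lab b = w := by
    intro b hb
    rw [hlab, hb]
  have lsome : ∀ b a, pi b = some a → lab b = o (l a) := by
    intro b a hb
    rw [hlab, hb]
  have hlf : ∀ a, l (f a) = l a := fun a => ((hl a (f a)).2 ⟨1, rfl⟩).symm
  have hinv : ∀ b, lab (h b) = lab b := by
    intro b
    rcases hb : pi b with _ | a
    · rw [lnone b hb, lnone _ (hnone2 b hb)]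
    · rcases hst b a hb with h1 | h1
      · rw [lsome _ _ h1, lsome _ _ hb]
      · rw [lsome _ _ h1, lsome _ _ hb, hlf]
  constructor
  · intro heq
    rcases hb : pi b with _ | a
    · rcases hb' : pi b' with _ | a'
      · exact ⟨0, hnone b b' hb hb'⟩
      · rw [lnone b hb, lsome b' a' hb'] at heq
        exact absurd heq.symm (how _)
    · rcases hb' : pi b' with _ | a'
      · rw [lsome b a hb, lnone b' hb'] at heq
        exact absurd heq (how _)
      · rw [lsome b a hb, lsome b' a' hb'] at heq
        obtain ⟨k, hk⟩ := (hl a a').1 (ho heq)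
        obtain ⟨p, hp, hpp⟩ := hf.mem_periodicPts a
        have hreach : ∀ m : ℕ, ∃ j : ℕ, h^[j] b = e (f^[m + 1] a) := by
          intro m
          induction m with
          | zero => exact hstep a b hb
          | succ m ih =>
            refine ORB_trans h ih ?_
            rw [Function.iterate_succ_apply' f (m + 1) a]
            exact hstep _ _ (hpe _)
        obtain ⟨m, hm⟩ : ∃ m, m + 1 = k + p := ⟨k + p - 1, by
          have hp' : 0 < p := hp
          omega⟩
        have h1 := hreach m
        have hpp' : f^[p] a = a := hpp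
        rw [hm, Function.iterate_add_apply, hpp', hk] at h1
        exact ORB_trans h h1 (hfib a' b' hb')
  · rintro ⟨k, rfl⟩
    induction k with
    | zero => rfl
    | succ k ih =>
      rw [Function.iterate_succ_apply', hinv]
      exact ih

end Pool.SN
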