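import Pool.Agent.Work.MP_a9cb80_sn.Interface4
import Pool.Agent.Work.MP_a9cb80_sn.B_ORB
import Pool.Agent.Work.MP_a9cb80_sn.B_INJ
import Pool.Agent.Work.MP_a9cb80_sn.B_LABx

set_option autoImplicit false

namespace Pool.SN

open scoped Classical

/-- the orbit relation of an injective self-map of a finite type -/
def LBR_setoid {A : Type} [Finite A] (f : A → A) (hf : Function.Injective f) : Setoid A where
  r a b := ∃ k : ℕ, f^[k] a = b
  iseqv := by
    refine ⟨fun a => ⟨0, rfl⟩, ?_, ?_⟩
    · rintro a b ⟨k, rfl⟩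
      obtain ⟨n, hn, hp⟩ := hf.mem_periodicPts a
      have h1 : f^[n * k] a = a := by
        rw [Function.iterate_mul]
        exact Function.iterate_fixed hp k
      refine ⟨n * k - k, ?_⟩
      have h2 : n * k - k + k = n * k := Nat.sub_add_cancel (Nat.le_mul_of_pos_left k hn)
      rw [← Function.iterate_add_apply, h2]
      exact h1
    · rintro a b c ⟨k, rfl⟩ ⟨m, rfl⟩
      exact ⟨m + k, Function.iterate_add_apply f m k a⟩

theorem p_LBR (hFV : S_FV) : S_LBR := by
  intro P1 M _ c1 t1 s1 x g l' hC hl'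
  have hinj := p_INJ P1 c1 t1 s1 hC
  set R : Setoid (P1 × Bool) := LBR_setoid (face c1 t1 s1) hinj with hR
  have hl : IsLab c1 t1 s1 (fun a : P1 × Bool => (Quotient.mk R a)) := by
    refine ⟨fun q => ?_, fun a b => ?_⟩
    · obtain ⟨a, rfl⟩ := Quotient.exists_rep q
      exact ⟨a, rfl⟩
    · exact Quotient.eq
  have hL := p_LAB p_ORB p_INJ hFV P1 (Quotient R) (Option (Quotient R)) c1 t1 s1
    (fun a : P1 × Bool => (Quotient.mk R a)) x g some none hC hl (Option.some_injective _)
    (fun y => Option.some_ne_none y) (fun m => by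
      cases m with
      | none => exact Or.inl rfl
      | some y => exact Or.inr ⟨y, rfl⟩)
  set L := ll (fun a : P1 × Bool => (Quotient.mk R a)) x g some none with hLdef
  have key : ∀ a b, l' a = l' b ↔ L a = L b := fun a b => (hl'.2 a b).trans (hL.2 a b).symm
  have e1 : ∀ (z : P1) (b : Bool), L (Sum.inl z, b) = some (Quotient.mk R (z, b)) := fun z b => rfl
  have e2 : ∀ b : Bool, L (Sum.inr true, b) = some (Quotient.mk R (x, b)) := fun b => rfl
  have e3 : L (Sum.inr false, g) = some (Quotient.mk R (x, !g)) := if_pos rfl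
  have e4 : L (Sum.inr false, !g) = none := if_neg (by cases g <;> simp)
  have c2 : ∀ b, l' (Sum.inr true, b) = l' (Sum.inl x, b) := fun b => by
    rw [key, e2, e1]
  have c3 : l' (Sum.inr false, g) = l' (Sum.inl x, !g) := by
    rw [key, e3, e1]
  refine ⟨fun a b => ?_, c2, c3, fun a => ?_, fun m => ?_⟩
  · rw [key, e1, e1, Option.some_inj]
    exact hl.2 a b
  · rw [Ne, key, e1, e4]
    exact Option.some_ne_none _
  · obtain ⟨⟨z | r, b⟩, rfl⟩ := hl'.1 m
    · exact Or.inr ⟨(z, b), rfl⟩
    · cases r
      · by_cases hb : b = g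
        · subst hb
          exact Or.inr ⟨(x, !b), c3.symm⟩
        · have hb' : b = !g := by
            cases b <;> cases g <;> simp_all
          subst hb'
          exact Or.inl rfl
      · exact Or.inr ⟨(x, b), (c2 b).symm⟩

end Pool.SN
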