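import Pool.Agent.Work.MP_a9cb80_sn.Interface4

/-! Block ONEF (helper53) -/

namespace Pool.SN

open scoped Classical

/-- ONEF. -/
theorem p_ONEF : S_ONEF := by
  intro P c t s p b h hf
  obtain ⟨-, ht⟩ := h
  cases b
  · cases hs : s p
    · exfalso
      unfold face at hf
      simp [hs] at hf
    · unfold face at hf
      simp [hs] at hf
      refine ⟨?_, rfl⟩
      exact (Equiv.symm_apply_eq c).1 hf
  · cases hs : s (c p)
    · exfalso
      unfold face at hf
      simp [hs] at hf
    · unfold face at hf
      simp [hs] at hf
      refine ⟨?_, ?_⟩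
      · have h1 := (ht (c p)).1
        rw [hf] at h1
        exact h1
      · have h2 := (ht (c p)).2.2
        rw [hf, hs] at h2
        exact h2

end Pool.SN
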