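import Pool.Agent.Work.MP_a9cb80_sn.Interface4

/-!
Block RDB, second copy (helper72): drawing curls.
-/

set_option autoImplicit false

namespace Pool.SN

open scoped Classical

/-- The renaming of labels. -/
def RDBx_o (G : Type) (k : ℕ) : Option (G ⊕ Fin k) → Option (G ⊕ Fin (k + 1)) :=
  Option.map (Sum.map id Fin.castSucc)

theorem RDBx_oinj (G : Type) (k : ℕ) : Function.Injective (RDBx_o G k) :=
  Option.map_injective (Sum.map_injective.mpr ⟨Function.injective_id, Fin.castSucc_injective k⟩)

theorem RDBx_one (G : Type) (k : ℕ) (y : Option (G ⊕ Fin k)) :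
    RDBx_o G k y ≠ some (Sum.inr (Fin.last k)) := by
  rcases y with _ | (i | q)
  · simp [RDBx_o]
  · simp [RDBx_o]
  · simp only [RDBx_o, Option.map_some, Sum.map_inr, ne_eq, Option.some.injEq, Sum.inr.injEq]
    exact (Fin.castSucc_lt_last q).ne

theorem RDBx_osur (G : Type) (k : ℕ) (m : Option (G ⊕ Fin (k + 1))) :
    m = some (Sum.inr (Fin.last k)) ∨ ∃ y, m = RDBx_o G k y := by
  rcases m with _ | (i | q)
  · exact Or.inr ⟨none, rfl⟩
  · exact Or.inr ⟨some (Sum.inl i), rfl⟩
  · induction q using Fin.lastCases with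
    | last => exact Or.inl rfl
    | cast q => exact Or.inr ⟨some (Sum.inr q), rfl⟩

theorem RDBx_zero (G P0 : Type) [Fintype G] [Fintype P0] (c0 t0 : Equiv.Perm P0)
    (s0 : P0 → Bool) (l0 : P0 × Bool → Option G) (h : Mp G P0 c0 t0 s0 l0) :
    Mp (G ⊕ Fin 0) P0 c0 t0 s0 (fun a => Option.map Sum.inl (l0 a)) ∧
    ∀ i : G, fd (fun a => Option.map (Sum.inl : G → G ⊕ Fin 0) (l0 a)) (some (Sum.inl i)) =
      fd l0 (some i) := by
  obtain ⟨h1, ⟨h2, h3⟩, h4⟩ := h
  have hinj : Function.Injective (Option.map (Sum.inl : G → G ⊕ Fin 0)) :=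
    Option.map_injective Sum.inl_injective
  refine ⟨⟨h1, ⟨?_, ?_⟩, ?_⟩, ?_⟩
  · intro m
    rcases m with _ | (i | q)
    · obtain ⟨a, ha⟩ := h2 none
      exact ⟨a, by simp [ha]⟩
    · obtain ⟨a, ha⟩ := h2 (some i)
      exact ⟨a, by simp [ha]⟩
    · exact q.elim0
  · intro a b
    rw [← h3 a b]
    exact hinj.eq_iff
  · rw [Fintype.card_sum, Fintype.card_fin, add_zero]
    exact h4
  · intro i
    unfold fd
    apply Nat.card_congr
    apply Equiv.subtypeEquivRight
    intro a
    have : (some (Sum.inl i) : Option (G ⊕ Fin 0)) = Option.map Sum.inl (some i) := rfl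
    rw [this]
    exact hinj.eq_iff

theorem p_RDBx (hCUR : S_CUR) (hLAB : S_LAB) (hCNT : S_CNT) : S_RDB := by
  intro k
  induction k with
  | zero =>
    intro G P0 _ _ c0 t0 s0 l0 a hM ha
    obtain ⟨h1, h2⟩ := RDBx_zero G P0 c0 t0 s0 l0 hM
    refine ⟨P0, inferInstance, c0, t0, s0, fun a => Option.map Sum.inl (l0 a), id, h1,
      fun q => q.elim0, ?_, fun x0 b => rfl⟩
    intro i
    rw [h2 i]
    have h3 : ∀ y, a y = 0 := by
      intro y
      exact (Finset.sum_eq_zero_iff.mp ha) y (Finset.mem_univ y)
    simp [h3]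
  | succ k ih =>
    intro G P0 _ _ c0 t0 s0 l0 a hM ha
    obtain ⟨y, hy⟩ : ∃ y, 1 ≤ a y := by
      by_contra hcon
      push Not at hcon
      have : ∑ y, a y = 0 := Finset.sum_eq_zero (fun y _ => by have := hcon y; omega)
      omega
    obtain ⟨a', ha', haa⟩ : ∃ a' : P0 × Bool → ℕ, ∑ z, a' z = k ∧
        ∀ z, a z = a' z + if z = y then 1 else 0 := by
      refine ⟨Function.update a y (a y - 1), ?_, ?_⟩
      · have h1 := Finset.sum_update_of_mem (Finset.mem_univ y) a (a y - 1)
        have h2 := Finset.add_sum_erase Finset.univ a (Finset.mem_univ y)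
        rw [Finset.sdiff_singleton_eq_erase] at h1
        omega
      · intro z
        by_cases hz : z = y
        · subst hz
          rw [Function.update_self, if_pos rfl]
          omega
        · rw [Function.update_of_ne hz, if_neg hz]
          omega
    obtain ⟨P, hP, c, t, s, l, j, hMp, hone, hdeg, hj⟩ := ih G P0 c0 t0 s0 l0 a' hM ha'
    obtain ⟨x0, b0⟩ := y
    obtain ⟨hc1, hl1, hcard⟩ := hMp
    have hcnt := hCNT P (Option (G ⊕ Fin k)) (Option (G ⊕ Fin (k + 1))) l (j x0) (!b0)
      (RDBx_o G k) (some (Sum.inr (Fin.last k))) (RDBx_oinj G k) (RDBx_one G k)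
    refine ⟨P ⊕ Bool, inferInstance, cc c (j x0), tt t, ss s (!b0),
      ll l (j x0) (!b0) (RDBx_o G k) (some (Sum.inr (Fin.last k))), fun x => Sum.inl (j x),
      ⟨hCUR P c t s (j x0) (!b0) hc1,
        hLAB P _ _ c t s l (j x0) (!b0) (RDBx_o G k) (some (Sum.inr (Fin.last k))) hc1 hl1
          (RDBx_oinj G k) (RDBx_one G k) (RDBx_osur G k), ?_⟩, ?_, ?_, ?_⟩
    · rw [Fintype.card_sum, Fintype.card_bool, Fintype.card_sum, Fintype.card_fin]
      rw [Fintype.card_sum, Fintype.card_fin] at hcard
      omega
    · intro q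
      induction q using Fin.lastCases with
      | last => exact hcnt.1
      | cast q =>
        have h1 := hcnt.2 (some (Sum.inr q))
        have h2 : ∀ b, l (j x0, b) ≠ some (Sum.inr q) := by
          intro b
          rw [hj]
          cases l0 (x0, b) <;> simp
        rw [if_neg (h2 _), if_neg (h2 _), if_neg (h2 _)] at h1
        have h3 := hone q
        unfold fd at h3 ⊢
        rw [h3] at h1
        exact h1
    · intro i
      have h1 := hcnt.2 (some (Sum.inl i))
      have h2 : ∀ b, (l (j x0, b) = some (Sum.inl i)) ↔ l0 (x0, b) = some i := by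
        intro b
        rw [hj]
        cases l0 (x0, b) <;> simp
      have h3 := hdeg i
      have h4 : ∑ z, a z * wt l0 z (some i) = ∑ z, a' z * wt l0 z (some i) +
          wt l0 (x0, b0) (some i) := by
        have h5 : ∀ z, a z * wt l0 z (some i) = a' z * wt l0 z (some i) +
            (if z = (x0, b0) then wt l0 (x0, b0) (some i) else 0) := by
          intro z
          rw [haa z]
          by_cases hz : z = (x0, b0)
          · rw [if_pos hz, if_pos hz, hz]; ring
          · rw [if_neg hz, if_neg hz]; ring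
        rw [Finset.sum_congr rfl (fun z _ => h5 z), Finset.sum_add_distrib]
        simp
      rw [h4]
      unfold fd at h3 ⊢
      have h6 : (if l (j x0, true) = some (Sum.inl i) then 1 else 0) +
          (if l (j x0, false) = some (Sum.inl i) then 1 else 0) +
          (if l (j x0, !!b0) = some (Sum.inl i) then 1 else 0) = wt l0 (x0, b0) (some i) := by
        unfold wt
        rw [Bool.not_not]
        simp only [h2]
        cases b0
        · simp only [Bool.not_false]
          split_ifs <;> rfl
        · simp only [Bool.not_true]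
          split_ifs <;> rfl
      have h7 : Nat.card {z : (P ⊕ Bool) × Bool // ll l (j x0) (!b0) (RDBx_o G k)
          (some (Sum.inr (Fin.last k))) z = some (Sum.inl i)} =
          Nat.card {a : P × Bool // l a = some (Sum.inl i)} +
          (if l (j x0, true) = some (Sum.inl i) then 1 else 0) +
          (if l (j x0, false) = some (Sum.inl i) then 1 else 0) +
          (if l (j x0, !!b0) = some (Sum.inl i) then 1 else 0) := h1
      rw [h7, h3]
      omega
    · intro x b
      have h1 : ll l (j x0) (!b0) (RDBx_o G k) (some (Sum.inr (Fin.last k))) (Sum.inl (j x), b) =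
        RDBx_o G k (l (j x, b)) := rfl
      rw [h1, hj]
      cases l0 (x, b) <;> rfl

end Pool.SN
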