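import Pool.Agent.Work.MP_a9cb80_sn.Interface4

namespace Pool.SN

open scoped Classical

theorem RDF_Mp {G H P : Type} [Fintype G] [Fintype H] [Fintype P] {c t : Equiv.Perm P}
    {s : P → Bool} {l : P × Bool → Option G} (φ : G ≃ H) (h : Mp G P c t s l) :
    Mp H P c t s (fun a => Option.map φ (l a)) := by
  obtain ⟨h1, ⟨h2, h3⟩, h4⟩ := h
  have hinj : Function.Injective (Option.map φ) := Option.map_injective φ.injective
  refine ⟨h1, ⟨?_, ?_⟩, ?_⟩
  · intro y
    obtain ⟨a, ha⟩ := h2 (Option.map φ.symm y)
    refine ⟨a, ?_⟩
    simp only [ha]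
    cases y <;> simp
  · intro a b
    rw [← h3 a b]
    exact hinj.eq_iff
  · rw [← Fintype.card_congr φ]; exact h4

theorem RDF_fd {L M P : Type} (f : L → M) (hf : Function.Injective f) (l : P × Bool → L)
    (i : L) : fd (fun a => f (l a)) (f i) = fd l i := by
  unfold fd
  exact Nat.card_congr (Equiv.subtypeEquivRight (fun a => hf.eq_iff))

theorem RDF_fe {P P' M : Type} (e : P' ≃ P) (l : P × Bool → M) (l' : P' × Bool → M)
    (h : ∀ z b, l (e z, b) = l' (z, b)) (m : M) : fd l m = fd l' m := by
  unfold fd
  refine Nat.card_congr (Equiv.symm (Equiv.subtypeEquiv (Equiv.prodCongr e (Equiv.refl Bool)) ?_))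
  rintro ⟨z, b⟩
  simp [h]

theorem RDF_phi {G K K' : Type} (ε : K ≃ Option K') :
    ∃ φ : G ⊕ K ≃ Option (G ⊕ K'), (∀ i, φ (Sum.inl i) = some (Sum.inl i)) ∧
      (φ (Sum.inr (ε.symm none)) = none) ∧
      (∀ q, φ (Sum.inr (ε.symm (some q))) = some (Sum.inr q)) := by
  refine ⟨{ toFun := Sum.elim (fun i => some (Sum.inl i)) (fun q => Option.map Sum.inr (ε q)),
            invFun := fun z => match z with
              | none => Sum.inr (ε.symm none)
              | some (Sum.inl i) => Sum.inl i
              | some (Sum.inr q) => Sum.inr (ε.symm (some q)),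
            left_inv := ?_, right_inv := ?_ }, ?_, ?_, ?_⟩
  · rintro (i | q)
    · rfl
    · obtain ⟨o, rfl⟩ := ε.symm.surjective q
      cases o <;> simp
  · rintro (_ | (i | q))
    · simp
    · rfl
    · simp
  · intro i; rfl
  · simp
  · intro q; simp

theorem p_RDF (hDEL : S_DEL) (hCNT : S_CNT) : S_RDF := by
  intro k
  induction k with
  | zero =>
    intro G K P _ _ _ c t s l hK hG hM hq
    have : IsEmpty K := Fintype.card_eq_zero_iff.mp hK
    refine ⟨P, inferInstance, c, t, s, fun a => Option.map (Equiv.sumEmpty G K) (l a),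
      fun _ => 0, RDF_Mp _ hM, by simp, ?_, ?_⟩
    · intro i
      have := RDF_fd (Option.map (Equiv.sumEmpty G K)) (Option.map_injective (Equiv.injective _))
        l (some (Sum.inl i))
      simpa using this.symm
    · intro x _
      refine ⟨x, fun b => ?_⟩
      have : ∀ y : Option (G ⊕ K),
          y = Option.map Sum.inl (Option.map (Equiv.sumEmpty G K) y) := by
        rintro (_ | (i | q))
        · rfl
        · rfl
        · exact isEmptyElim q
      exact this _
  | succ k ih =>
    intro G K P _ _ _ c t s l hK hG hM hq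
    obtain ⟨ε⟩ : Nonempty (K ≃ Option (Fin k)) :=
      ⟨(Fintype.equivFinOfCardEq hK).trans (finSuccEquiv k)⟩
    obtain ⟨φ, hφ1, hφ2, hφ3⟩ := RDF_phi (G := G) ε
    have hφi : Function.Injective (Option.map φ) := Option.map_injective φ.injective
    have hM2 := RDF_Mp φ hM
    have hcard : 2 ≤ Fintype.card (G ⊕ Fin k) := by
      rw [Fintype.card_sum]; omega
    have hdeg : fd (fun a => Option.map φ (l a)) (some none) = 1 := by
      have h := RDF_fd (Option.map φ) hφi l (some (Sum.inr (ε.symm none)))
      rw [hq] at h
      simpa [hφ2] using h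
    obtain ⟨P1, iP1, c1, t1, s1, l1, x, g, e, hM1, hl⟩ :=
      hDEL (G ⊕ Fin k) P c t s (fun a => Option.map φ (l a)) hM2 hcard hdeg
    have ho : Function.Injective (Option.map (some : G ⊕ Fin k → Option (G ⊕ Fin k))) :=
      Option.map_injective (Option.some_injective _)
    have hw : ∀ y : Option (G ⊕ Fin k),
        Option.map (some : G ⊕ Fin k → Option (G ⊕ Fin k)) y ≠ some none := by
      intro y; cases y <;> simp
    obtain ⟨-, hC⟩ := hCNT P1 (Option (G ⊕ Fin k)) (Option (Option (G ⊕ Fin k))) l1 x g
      (Option.map some) (some none) ho hw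
    -- degrees of the smaller map
    have hD : ∀ j : G ⊕ Fin k, fd (fun a => Option.map φ (l a)) (some (some j)) =
        fd l1 (some j) + (if l1 (x, true) = some j then 1 else 0) +
          (if l1 (x, false) = some j then 1 else 0) +
          (if l1 (x, !g) = some j then 1 else 0) := by
      intro j
      have h1 := RDF_fe e (fun a => Option.map φ (l a))
        (ll l1 x g (Option.map some) (some none)) hl (some (some j))
      rw [h1]
      have h2 := hC (some j)
      unfold fd
      simp only [Option.map_some] at h2
      rw [h2]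
    have hDm : ∀ q : Fin k, fd l1 (some (Sum.inr q)) = 1 ∧ l1 (x, true) ≠ some (Sum.inr q) ∧
        l1 (x, false) ≠ some (Sum.inr q) := by
      intro q
      have h1 := RDF_fd (Option.map φ) hφi l (some (Sum.inr (ε.symm (some q))))
      rw [hq] at h1
      simp only [Option.map_some, hφ3] at h1
      have h2 := hD (Sum.inr q)
      rw [h1] at h2
      have h3 : 1 ≤ fd l1 (some (Sum.inr q)) := by
        obtain ⟨a, ha⟩ := hM1.2.1.1 (some (Sum.inr q))
        have : Nonempty {a : P1 × Bool // l1 a = some (Sum.inr q)} := ⟨⟨a, ha⟩⟩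
        exact Nat.card_pos
      by_cases ht : l1 (x, true) = some (Sum.inr q)
      · exfalso
        rw [if_pos ht] at h2
        omega
      · by_cases hf : l1 (x, false) = some (Sum.inr q)
        · exfalso
          rw [if_pos hf] at h2
          omega
        · refine ⟨?_, ht, hf⟩
          omega
    obtain ⟨P0, iP0, c0, t0, s0, l0, a1, hM0, ha1, hd1, hty⟩ :=
      ih G (Fin k) P1 c1 t1 s1 l1 (by simp) hG hM1 (fun q => (hDm q).1)
    obtain ⟨x0, hx0⟩ := hty x (by
      intro b q
      cases b
      · exact (hDm q).2.2
      · exact (hDm q).2.1)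
    have hkey : ∀ y : Option G, Option.map φ (Option.map Sum.inl y) =
        Option.map some (Option.map Sum.inl y) := by
      intro y; cases y <;> simp [hφ1]
    refine ⟨P0, iP0, c0, t0, s0, l0, fun y => a1 y + if y = (x0, !g) then 1 else 0, hM0, ?_, ?_, ?_⟩
    · rw [Finset.sum_add_distrib, ha1]
      simp
    · intro i
      have h1 := RDF_fd (Option.map φ) hφi l (some (Sum.inl i))
      simp only [Option.map_some, hφ1] at h1
      rw [← h1, hD, hd1]
      have hin : ∀ b, (l1 (x, b) = some (Sum.inl i)) ↔ (l0 (x0, b) = some i) := by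
        intro b
        rw [hx0 b]
        cases l0 (x0, b) <;> simp
      have hs : ∑ y, (a1 y + if y = (x0, !g) then 1 else 0) * wt l0 y (some i) =
          ∑ y, a1 y * wt l0 y (some i) + wt l0 (x0, !g) (some i) := by
        simp only [add_mul, Finset.sum_add_distrib]
        congr 1
        simp
      rw [hs]
      simp only [hin, wt]
      cases g
      · by_cases h1 : l0 (x0, true) = some i <;> by_cases h2 : l0 (x0, false) = some i <;>
          simp [h1, h2] <;> omega
      · by_cases h1 : l0 (x0, true) = some i <;> by_cases h2 : l0 (x0, false) = some i <;>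
          simp [h1, h2] <;> omega
    · intro x' hx'
      obtain ⟨z, rfl⟩ := e.surjective x'
      have hcon : ∀ (y : P1), (∀ b, Option.map φ (l (e z, b)) = Option.map some (l1 (y, b))) →
          ∀ b q, l1 (y, b) ≠ some (Sum.inr q) := by
        intro y hy b q hq'
        have h1 := hy b
        rw [hq'] at h1
        have h2 : Option.map φ (l (e z, b)) =
            Option.map φ (some (Sum.inr (ε.symm (some q)))) := by
          rw [h1]; simp [hφ3]
        exact hx' b _ (hφi h2)
      have hfin : ∀ (y : P1), (∀ b, Option.map φ (l (e z, b)) = Option.map some (l1 (y, b))) →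
          ∃ x0 : P0, ∀ b, l (e z, b) = Option.map Sum.inl (l0 (x0, b)) := by
        intro y hy
        obtain ⟨x1, hx1⟩ := hty y (hcon y hy)
        refine ⟨x1, fun b => ?_⟩
        apply hφi
        rw [hy b, hx1 b, hkey]
      rcases z with z | b
      · exact hfin z (fun b => by simpa [ll] using hl (Sum.inl z) b)
      · cases b
        · exfalso
          have h1 := hl (Sum.inr false) (!g)
          have h2 : Option.map φ (l (e (Sum.inr false), !g)) =
              Option.map φ (some (Sum.inr (ε.symm none))) := by
            rw [h1]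
            simp only [ll, Option.map_some, hφ2]
            rw [if_neg (by cases g <;> simp)]
          exact hx' (!g) _ (hφi h2)
        · exact hfin x (fun b => by simpa [ll] using hl (Sum.inr true) b)

end Pool.SN
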