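import Pool.Agent.Work.MP_a9cb80_sn.Interface4

namespace Pool.SN

open scoped Classical

theorem RED_lab {P L L' : Type} {c t : Equiv.Perm P} {s : P → Bool} {l : P × Bool → L}
    (h : IsLab c t s l) (f : L ≃ L') : IsLab c t s (fun a => f (l a)) := by
  refine ⟨f.surjective.comp h.1, fun a b => ?_⟩
  rw [← h.2 a b]
  exact f.injective.eq_iff

/-- The type of a side. -/
def RED_ty {P L : Type} (l : P × Bool → L) (y : P × Bool) : L × L := (l y, l (y.1, !y.2))

theorem RED_wt {P : Type} {r : ℕ} (l : P × Bool → Option (Fin r)) (y : P × Bool) (i : Fin r) :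
    ((if (RED_ty l y).1 = some i then 2 else 0) + (if (RED_ty l y).2 = some i then 1 else 0)) =
      wt l y (some i) := by
  unfold wt RED_ty
  by_cases h1 : l y = some i <;> by_cases h2 : l (y.1, !y.2) = some i <;> simp [h1, h2]

theorem RED_fw {P : Type} [Fintype P] {r : ℕ} (l : P × Bool → Option (Fin r)) (a : P × Bool → ℕ)
    (F : Option (Fin r) × Option (Fin r) → ℕ) :
    ∑ q, (∑ y ∈ Finset.univ.filter (fun y => RED_ty l y = q), a y) * F q =
      ∑ y, a y * F (RED_ty l y) := by
  rw [← Finset.sum_fiberwise Finset.univ (RED_ty l) (fun y => a y * F (RED_ty l y))]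
  refine Finset.sum_congr rfl fun q _ => ?_
  rw [Finset.sum_mul]
  refine Finset.sum_congr rfl fun y hy => ?_
  rw [(Finset.mem_filter.mp hy).2]

theorem RED_bw {P : Type} [Fintype P] {r : ℕ} (l : P × Bool → Option (Fin r))
    (T : Finset (Option (Fin r) × Option (Fin r))) (hT : ∀ q, q ∈ T ↔ ∃ a, q = RED_ty l a)
    (m : Option (Fin r) × Option (Fin r) → ℕ) (hm : ∀ q, q ∉ T → m q = 0) :
    ∃ a : P × Bool → ℕ, ∀ F : Option (Fin r) × Option (Fin r) → ℕ,
      ∑ y, a y * F (RED_ty l y) = ∑ q, m q * F q := by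
  have hch : ∀ q, ∃ z : Option (P × Bool), q ∈ T → ∃ y, z = some y ∧ RED_ty l y = q := by
    intro q
    by_cases hq : q ∈ T
    · obtain ⟨y, hy⟩ := (hT q).mp hq
      exact ⟨some y, fun _ => ⟨y, rfl, hy.symm⟩⟩
    · exact ⟨none, fun h => absurd h hq⟩
  choose ch hch using hch
  refine ⟨fun y => if ch (RED_ty l y) = some y then m (RED_ty l y) else 0, fun F => ?_⟩
  rw [← RED_fw l (fun y => if ch (RED_ty l y) = some y then m (RED_ty l y) else 0) F]
  refine Finset.sum_congr rfl fun q _ => ?_
  congr 1
  by_cases hq : q ∈ T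
  · obtain ⟨y0, h1, h2⟩ := hch q hq
    rw [Finset.sum_eq_single y0]
    · rw [h2, h1, if_pos rfl]
    · intro y hy hne
      have hy2 : RED_ty l y = q := (Finset.mem_filter.mp hy).2
      rw [hy2, h1, if_neg]
      intro h
      exact hne (Option.some.inj h).symm
    · intro h
      exfalso
      apply h
      rw [Finset.mem_filter]
      exact ⟨Finset.mem_univ _, h2⟩
  · rw [hm q hq]
    refine Finset.sum_eq_zero fun y hy => ?_
    exact absurd ((hT q).mpr ⟨y, ((Finset.mem_filter.mp hy).2).symm⟩) hq

theorem RED_oc {A B : Type} (e : A ≃ B) (z : Option A) (x : A) :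
    (Equiv.optionCongr e) z = some (e x) ↔ z = some x := by
  cases z with
  | none => simp
  | some y => simp

theorem RED_fd {P A B : Type} (e : A ≃ B) (l : P × Bool → Option A) (x : A) :
    fd (fun a => (Equiv.optionCongr e) (l a)) (some (e x)) = fd l (some x) := by
  unfold fd
  exact Nat.card_congr (Equiv.subtypeEquivRight fun a => RED_oc e (l a) x)

theorem p_RED (hRDF : S_RDF) (hRDB : S_RDB) : S_RED := by
  intro r k E hr
  constructor
  · rintro ⟨P, hP, c, t, s, l, h1, h2, h3, h4⟩
    have hl : Mp (Fin r ⊕ Fin k) P c t s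
        (fun a => (Equiv.optionCongr finSumFinEquiv.symm) (l a)) := by
      refine ⟨h1, RED_lab h2 _, ?_⟩
      rw [h3, Fintype.card_sum, Fintype.card_fin, Fintype.card_fin]
    have hfd : ∀ z : Fin r ⊕ Fin k,
        fd (fun a => (Equiv.optionCongr finSumFinEquiv.symm) (l a)) (some z) =
          Fin.append E (fun _ : Fin k => 1) (finSumFinEquiv z) := by
      intro z
      have := RED_fd (finSumFinEquiv (m := r) (n := k)).symm l (finSumFinEquiv z)
      rw [Equiv.symm_apply_apply] at this
      rw [this]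
      exact h4 (finSumFinEquiv z)
    obtain ⟨P0, hP0, c0, t0, s0, l0, a, hM, ha, hE, -⟩ :=
      hRDF k (Fin r) (Fin k) P c t s _ (Fintype.card_fin k) (by rw [Fintype.card_fin]; exact hr) hl
        (fun q => by
          rw [hfd, finSumFinEquiv_apply_right, Fin.append_right])
    refine ⟨fun i => fd l0 (some i), Finset.univ.image (RED_ty l0),
      ⟨P0, hP0, c0, t0, s0, l0, hM, fun i => rfl, fun q => ?_⟩,
      fun q => ∑ y ∈ Finset.univ.filter (fun y => RED_ty l0 y = q), a y, ?_, ?_, ?_⟩
    · rw [Finset.mem_image]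
      constructor
      · rintro ⟨y, -, hy⟩
        exact ⟨y, hy.symm⟩
      · rintro ⟨y, hy⟩
        exact ⟨y, Finset.mem_univ _, hy.symm⟩
    · intro q hq
      refine Finset.sum_eq_zero fun y hy => ?_
      exact absurd (Finset.mem_image.mpr ⟨y, Finset.mem_univ _, (Finset.mem_filter.mp hy).2⟩) hq
    · have := RED_fw l0 a (fun _ => 1)
      simp only [mul_one] at this
      rw [this]
      exact ha
    · intro i
      have h5 := hE i
      rw [hfd, finSumFinEquiv_apply_left, Fin.append_left] at h5
      have h6 := RED_fw l0 a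
        (fun q => (if q.1 = some i then 2 else 0) + (if q.2 = some i then 1 else 0))
      rw [h5]
      congr 1
      refine Eq.trans ?_ h6.symm
      refine Finset.sum_congr rfl fun y _ => ?_
      rw [RED_wt l0 y i]
  · rintro ⟨v, T, ⟨P0, hP0, c0, t0, s0, l0, hM, hv, hT⟩, m, hm, hk, hE⟩
    obtain ⟨a, ha⟩ := RED_bw l0 T hT m hm
    obtain ⟨P, hP, c, t, s, l, -, hMp, h1, h2, -⟩ := hRDB k (Fin r) P0 c0 t0 s0 l0 a hM (by
      have := ha (fun _ => 1)
      simp only [mul_one] at this
      rw [this]
      exact hk)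
    refine ⟨P, hP, c, t, s, fun a => (Equiv.optionCongr finSumFinEquiv) (l a), hMp.1,
      RED_lab hMp.2.1 _, ?_, ?_⟩
    · have := hMp.2.2
      rw [Fintype.card_sum, Fintype.card_fin, Fintype.card_fin] at this
      exact this
    · intro i
      have h7 : fd (fun a => (Equiv.optionCongr (finSumFinEquiv (m := r) (n := k))) (l a))
          (some i) = Fin.append E (fun _ : Fin k => 1) i := by
        refine Fin.addCases (fun i => ?_) (fun q => ?_) i
        · rw [Fin.append_left, ← finSumFinEquiv_apply_left, RED_fd, h2 i, hE i, hv i]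
          congr 1
          refine Eq.trans ?_ (ha
            (fun q => (if q.1 = some i then 2 else 0) + (if q.2 = some i then 1 else 0)))
          refine Finset.sum_congr rfl fun y _ => ?_
          rw [RED_wt l0 y i]
        · rw [Fin.append_right, ← finSumFinEquiv_apply_right, RED_fd, h1 q]
      exact h7

end Pool.SN
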