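import Pool.Agent.Work.MP_a9cb80_sn.Interface4

/-! Block REM (helper9): removing the two passages of a curl. -/

namespace Pool.SN

open scoped Classical

theorem REM_ext {A : Type} (d : Equiv.Perm (A ⊕ Bool)) (h : ∀ b, d (Sum.inr b) = Sum.inr b) :
    ∃ f : Equiv.Perm A, Equiv.sumCongr f (Equiv.refl Bool) = d := by
  have hl : ∀ a : A, ∃ a' : A, d (Sum.inl a) = Sum.inl a' := by
    intro a
    rcases hh : d (Sum.inl a) with a' | b
    · exact ⟨a', rfl⟩
    · exfalso
      have h1 := d.injective (hh.trans (h b).symm)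
      simp at h1
  have hl' : ∀ a : A, ∃ a' : A, d.symm (Sum.inl a) = Sum.inl a' := by
    intro a
    rcases hh : d.symm (Sum.inl a) with a' | b
    · exact ⟨a', rfl⟩
    · exfalso
      have h1 : Sum.inl a = d (Sum.inr b) := by rw [← hh, Equiv.apply_symm_apply]
      rw [h b] at h1
      simp at h1
  choose f hf using hl
  choose g hg using hl'
  refine ⟨⟨f, g, ?_, ?_⟩, ?_⟩
  · intro a
    have h1 := hg (f a)
    rw [← hf a, Equiv.symm_apply_apply] at h1
    exact (Sum.inl.inj h1).symm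
  · intro a
    have h1 := hf (g a)
    rw [← hg a, Equiv.apply_symm_apply] at h1
    exact (Sum.inl.inj h1).symm
  · apply Equiv.ext
    rintro (a | b)
    · exact (hf a).symm
    · exact (h b).symm

theorem REM_main (hCV : S_CV) (P P1 : Type) (c t : Equiv.Perm P) (s : P → Bool) (p : P)
    (e : P1 ⊕ Bool ≃ P) (x : P1) (hC : IsCurve c t s) (htp : t p = c p)
    (h0 : e (Sum.inr false) = p) (h1 : e (Sum.inr true) = c p) (hx : c (e (Sum.inl x)) = p) :
    ∃ (c1 t1 : Equiv.Perm P1) (s1 : P1 → Bool), IsCurve c1 t1 s1 ∧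
      (∀ z, e (cc c1 x z) = c (e z)) ∧ (∀ z, e (tt t1 z) = t (e z)) ∧
      (∀ z, s (e z) = ss s1 (s p) z) := by
  obtain ⟨hcyc, htt⟩ := hC
  obtain ⟨c', hc'⟩ : ∃ c' : Equiv.Perm (P1 ⊕ Bool), ∀ z, e (c' z) = c (e z) :=
    ⟨(e.trans c).trans e.symm, fun z => by simp⟩
  obtain ⟨t', ht'⟩ : ∃ t' : Equiv.Perm (P1 ⊕ Bool), ∀ z, e (t' z) = t (e z) :=
    ⟨(e.trans t).trans e.symm, fun z => by simp⟩
  obtain ⟨σ, hσ⟩ : ∃ σ : Equiv.Perm (P1 ⊕ Bool), σ = (Equiv.swap (Sum.inl x) (Sum.inr false) *
      Equiv.swap (Sum.inr false) (Sum.inr true)) := ⟨_, rfl⟩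
  have σ1 : σ (Sum.inl x) = Sum.inr false := by
    have k1 : Equiv.swap (Sum.inr false : P1 ⊕ Bool) (Sum.inr true) (Sum.inl x) = Sum.inl x :=
      Equiv.swap_apply_of_ne_of_ne (by simp) (by simp)
    rw [hσ, Equiv.Perm.mul_apply, k1, Equiv.swap_apply_left]
  have σ2 : σ (Sum.inr false) = Sum.inr true := by
    rw [hσ, Equiv.Perm.mul_apply, Equiv.swap_apply_left,
      Equiv.swap_apply_of_ne_of_ne (by simp) (by simp)]
  have σ1' : σ⁻¹ (Sum.inr false) = Sum.inl x := by
    rw [Equiv.Perm.inv_eq_iff_eq, σ1]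
  have σ2' : σ⁻¹ (Sum.inr true) = Sum.inr false := by
    rw [Equiv.Perm.inv_eq_iff_eq, σ2]
  obtain ⟨c1, hc1⟩ := REM_ext (c' * σ⁻¹) (by
    intro b
    apply e.injective
    rw [Equiv.Perm.mul_apply, hc']
    cases b
    · rw [σ1', hx, h0]
    · rw [σ2', h0, h1])
  have hcc : cc c1 x = c' := by
    have e1 : cc c1 x = Equiv.sumCongr c1 (Equiv.refl Bool) * σ := by
      rw [hσ]
      rfl
    rw [e1, hc1, inv_mul_cancel_right]
  have htq : t (c p) = p := by
    have := (htt p).1
    rwa [htp] at this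
  obtain ⟨ρ, hρ⟩ : ∃ ρ : Equiv.Perm (P1 ⊕ Bool),
      ρ = Equiv.sumCongr (Equiv.refl P1) Equiv.boolNot := ⟨_, rfl⟩
  have ρ1 : ∀ b, ρ⁻¹ (Sum.inr b) = Sum.inr (!b) := by
    intro b
    rw [Equiv.Perm.inv_eq_iff_eq, hρ]
    cases b <;> rfl
  obtain ⟨t1, ht1⟩ := REM_ext (t' * ρ⁻¹) (by
    intro b
    apply e.injective
    rw [Equiv.Perm.mul_apply, ht', ρ1]
    cases b
    · rw [Bool.not_false, h1, htq, h0]
    · rw [Bool.not_true, h0, htp, h1])
  have htt1 : tt t1 = t' := by
    have e1 : tt t1 = Equiv.sumCongr t1 (Equiv.refl Bool) * ρ := by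
      rw [hρ]
      apply Equiv.ext
      rintro (a | b)
      · rfl
      · rfl
    rw [e1, ht1, inv_mul_cancel_right]
  have hval : ∀ z : P1, e (Sum.inl (t1 z)) = t (e (Sum.inl z)) := by
    intro z
    rw [← ht', ← htt1]
    rfl
  refine ⟨c1, t1, fun z => s (e (Sum.inl z)), ⟨?_, ?_⟩, ?_, ?_, ?_⟩
  · -- one cycle
    obtain ⟨v1, v2, v3, v4, -⟩ := hCV P1 c1 x
    rw [hcc] at v1 v2 v3 v4
    let π : P1 ⊕ Bool → P1 := fun y => Sum.elim id (fun _ => x) y
    have hstep : ∀ y, π (c' y) = c1 (π y) ∨ π (c' y) = π y := by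
      rintro (z | b)
      · by_cases hz : z = x
        · subst hz
          right
          rw [v1]
          rfl
        · left
          rw [v4 z hz]
          rfl
      · cases b
        · right
          rw [v2]
          rfl
        · left
          rw [v3]
          rfl
    have hiter : ∀ (k : ℕ) (y : P1 ⊕ Bool), ∃ k' : ℕ, (c1 ^ k') (π y) = π ((c' ^ k) y) := by
      intro k
      induction k with
      | zero => intro y; exact ⟨0, rfl⟩
      | succ k ih =>
        intro y
        obtain ⟨k', hk'⟩ := ih y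
        rw [pow_succ', Equiv.Perm.mul_apply]
        rcases hstep ((c' ^ k) y) with h | h
        · refine ⟨k' + 1, ?_⟩
          rw [pow_succ', Equiv.Perm.mul_apply, hk', h]
        · exact ⟨k', by rw [hk', h]⟩
    have hpow : ∀ (k : ℕ) (y : P1 ⊕ Bool), e ((c' ^ k) y) = (c ^ k) (e y) := by
      intro k
      induction k with
      | zero => intro y; rfl
      | succ k ih =>
        intro y
        rw [pow_succ', Equiv.Perm.mul_apply, hc', ih, pow_succ', Equiv.Perm.mul_apply]
    intro a b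
    obtain ⟨k, hk⟩ := hcyc (e (Sum.inl a)) (e (Sum.inl b))
    rw [← hpow] at hk
    have hk' := e.injective hk
    obtain ⟨k', hk2⟩ := hiter k (Sum.inl a)
    rw [hk'] at hk2
    exact ⟨k', hk2⟩
  · intro z
    refine ⟨?_, ?_, ?_⟩
    · have h2 : e (Sum.inl (t1 (t1 z))) = e (Sum.inl z) := by
        rw [hval, hval, (htt _).1]
      exact Sum.inl.inj (e.injective h2)
    · intro h2
      apply (htt (e (Sum.inl z))).2.1
      rw [← hval, h2]
    · show s (e (Sum.inl (t1 z))) = !(s (e (Sum.inl z)))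
      rw [hval]
      exact (htt _).2.2
  · intro z
    rw [hcc, hc']
  · intro z
    rw [htt1, ht']
  · rintro (z | b)
    · rfl
    · cases b
      · rw [h0]
        simp [ss]
      · rw [h1, ← htp, (htt p).2.2]
        simp [ss]

theorem REM_cp {P : Type} [Fintype P] (c t : Equiv.Perm P) (s : P → Bool) (p : P)
    (hC : IsCurve c t s) (hcard : 4 ≤ Fintype.card P) : c (c p) ≠ p := by
  intro h
  have h1 : ∀ k : ℕ, (c ^ k) p = p ∨ (c ^ k) p = c p := by
    intro k
    induction k with
    | zero => exact Or.inl rfl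
    | succ k ih =>
      rw [pow_succ', Equiv.Perm.mul_apply]
      rcases ih with ih | ih
      · rw [ih]; exact Or.inr rfl
      · rw [ih]; exact Or.inl h
  have h2 : (Finset.univ : Finset P) ⊆ {p, c p} := by
    intro y _
    obtain ⟨k, hk⟩ := hC.1 p y
    rw [Finset.mem_insert, Finset.mem_singleton, ← hk]
    exact h1 k
  have h3 := Finset.card_le_card h2
  have h4 : ({p, c p} : Finset P).card ≤ 2 := Finset.card_le_two
  rw [Finset.card_univ] at h3
  omega

theorem p_REM (hCV : S_CV) : S_REM := by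
  intro P _ c t s p hC htp hcard
  have hqp : c p ≠ p := by
    rw [← htp]
    exact (hC.2 p).2.1
  have hcq : c (c p) ≠ p := REM_cp c t s p hC hcard
  let P1 : Type := {z : P // z ≠ p ∧ z ≠ c p}
  have hx1 : c.symm p ≠ p := by
    intro h
    apply hqp
    have := c.apply_symm_apply p
    rwa [h] at this
  have hx2 : c.symm p ≠ c p := by
    intro h
    apply hcq
    rw [← h, c.apply_symm_apply]
  let x : P1 := ⟨c.symm p, hx1, hx2⟩
  let F : P1 ⊕ Bool → P := fun z => Sum.elim (fun a => a.1) (fun b => if b = true then c p else p) z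
  have hF : Function.Bijective F := by
    constructor
    · rintro (a | b) (a' | b') h
      · exact congrArg Sum.inl (Subtype.ext h)
      · exfalso
        cases b'
        · exact a.2.1 h
        · exact a.2.2 h
      · exfalso
        cases b
        · exact a'.2.1 h.symm
        · exact a'.2.2 h.symm
      · cases b <;> cases b'
        · rfl
        · exact absurd h.symm hqp
        · exact absurd h hqp
        · rfl
    · intro y
      by_cases h1 : y = p
      · exact ⟨Sum.inr false, h1.symm⟩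
      · by_cases h2 : y = c p
        · exact ⟨Sum.inr true, h2.symm⟩
        · exact ⟨Sum.inl ⟨y, h1, h2⟩, rfl⟩
  let e : P1 ⊕ Bool ≃ P := Equiv.ofBijective F hF
  have he : ∀ z, e z = F z := fun z => rfl
  obtain ⟨c1, t1, s1, g1, g2, g3, g4⟩ := REM_main hCV P P1 c t s p e x hC htp rfl rfl
    (c.apply_symm_apply p)
  refine ⟨P1, inferInstance, c1, t1, s1, x, e, g1, ?_, g2, g3, g4, rfl⟩
  have h5 := Fintype.card_congr e
  rw [Fintype.card_sum, Fintype.card_bool] at h5
  convert h5

end Pool.SN
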