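import Pool.Agent.Work.MP_a9cb80_sn.Interface4

set_option autoImplicit false

namespace Pool.SN

open scoped Classical

theorem p_SEM (hRED : S_RED) (hBAF : S_BAF) : S_SEM := by
  intro r hr
  refine ⟨(hBAF r).toFinset, fun p => ?_, fun k E => ?_⟩
  · rw [Set.Finite.mem_toFinset]
    exact Iff.rfl
  · rw [hRED r k E hr]
    constructor
    · rintro ⟨v, T, hB, hS⟩
      refine ⟨(v, T), ?_, hS⟩
      rw [Set.Finite.mem_toFinset]
      exact hB
    · rintro ⟨p, hp, hS⟩
      rw [Set.Finite.mem_toFinset] at hp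
      exact ⟨p.1, p.2, hp, hS⟩

end Pool.SN
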