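import Pool.Agent.Work.MP_a9cb80_sn.Interface4

/-! DEL: removing a bounded face of degree 1 -/

set_option autoImplicit false

namespace Pool.SN

open scoped Classical

theorem DEL_join {G : Type} (m : Option (Option G)) (h : m ≠ some none) :
    Option.map some m.join = m := by
  rcases m with _ | (_ | i)
  · rfl
  · exact absurd rfl h
  · rfl

theorem DEL_inj {G : Type} : Function.Injective (Option.map (some : G → Option G)) :=
  Option.map_injective (Option.some_injective G)

theorem DEL_iter {P P' : Type} (F : P × Bool → P × Bool) (F' : P' × Bool → P' × Bool) (e : P' ≃ P)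
    (h : ∀ a : P' × Bool, F (e a.1, a.2) = (e (F' a).1, (F' a).2)) (k : ℕ) (a : P' × Bool) :
    F^[k] (e a.1, a.2) = (e (F'^[k] a).1, (F'^[k] a).2) := by
  induction k generalizing a with
  | zero => rfl
  | succ k ih =>
    rw [Function.iterate_succ_apply, Function.iterate_succ_apply, h, ih (F' a)]

theorem DEL_not : ∀ d g : Bool, ¬ d = g → d = !g := by
  decide

theorem p_DEL (hONEF : S_ONEF) (hREM : S_REM) (hFEQ : S_FEQ) (hLBR : S_LBR) : S_DEL := by
  intro G P _ _ c t s l hMp hG hfd
  obtain ⟨hcur, hlab, hcard⟩ := hMp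
  obtain ⟨hsur, hl⟩ := hlab
  unfold fd at hfd
  obtain ⟨hsub, ⟨⟨a0, ha0⟩⟩⟩ := Nat.card_eq_one_iff_unique.1 hfd
  have hfix : face c t s a0 = a0 := by
    have h1 : l a0 = l (face c t s a0) := (hl _ _).2 ⟨1, rfl⟩
    have h2 : l (face c t s a0) = some none := by rw [← h1, ha0]
    have h3 := hsub.elim (⟨face c t s a0, h2⟩ : {a // l a = some none}) ⟨a0, ha0⟩
    exact congrArg Subtype.val h3
  obtain ⟨p, b⟩ := a0
  obtain ⟨htp, hsp⟩ := hONEF P c t s p b hcur hfix
  have hcP : Fintype.card P + 2 = 2 * (Fintype.card G + 1) := by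
    rw [hcard, Fintype.card_option]
  obtain ⟨P1, _, c1, t1, s1, x, e, hcur1, hcard1, hec, het, hes, hep⟩ :=
    hREM P c t s p hcur htp (by omega)
  obtain ⟨g, hg⟩ : ∃ g : Bool, g = s p := ⟨_, rfl⟩
  rw [← hg] at hes hsp
  have hbg : (!g) = b := by rw [hsp, Bool.not_not]
  have hfe := hFEQ P (P1 ⊕ Bool) c t s (cc c1 x) (tt t1) (ss s1 g) e hec het hes
  obtain ⟨l', hl'⟩ : ∃ l' : (P1 ⊕ Bool) × Bool → Option (Option G),
      ∀ a, l' a = l (e a.1, a.2) := ⟨fun a => l (e a.1, a.2), fun _ => rfl⟩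
  have hlab' : IsLab (cc c1 x) (tt t1) (ss s1 g) l' := by
    refine ⟨fun m => ?_, fun a a' => ?_⟩
    · obtain ⟨⟨q, d⟩, hq⟩ := hsur m
      refine ⟨(e.symm q, d), ?_⟩
      rw [hl', ← hq]
      show l (e (e.symm q), d) = l (q, d)
      rw [e.apply_symm_apply]
    · rw [hl', hl', hl]
      constructor
      · rintro ⟨k, hk⟩
        refine ⟨k, ?_⟩
        rw [DEL_iter _ _ e hfe] at hk
        have h1 := congrArg Prod.fst hk
        have h2 := congrArg Prod.snd hk
        exact Prod.ext (e.injective h1) h2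
      · rintro ⟨k, hk⟩
        refine ⟨k, ?_⟩
        rw [DEL_iter _ _ e hfe, hk]
  obtain ⟨hA, hB, hC, hD, hE⟩ := hLBR P1 (Option (Option G)) c1 t1 s1 x g l' hcur1 hlab'
  have hw : l' (Sum.inr false, !g) = some none := by
    rw [hl', hbg]
    show l (e (Sum.inr false), b) = some none
    rw [hep, ha0]
  obtain ⟨l1, hl1⟩ : ∃ l1 : P1 × Bool → Option G, ∀ a, l1 a = (l' (Sum.inl a.1, a.2)).join :=
    ⟨fun a => (l' (Sum.inl a.1, a.2)).join, fun _ => rfl⟩
  have hl1' : ∀ a : P1 × Bool, Option.map some (l1 a) = l' (Sum.inl a.1, a.2) := by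
    intro a
    rw [hl1]
    exact DEL_join _ (by rw [← hw]; exact hD a)
  refine ⟨P1, inferInstance, c1, t1, s1, l1, x, g, e,
    ⟨hcur1, ⟨fun y => ?_, fun a a' => ?_⟩, by omega⟩, ?_⟩
  · rcases hE (Option.map some y) with h | ⟨a, ha⟩
    · rw [hw] at h
      rcases y with _ | y
      · exact absurd h (by simp)
      · exact absurd h (by simp)
    · exact ⟨a, DEL_inj (by rw [hl1', ha])⟩
  · rw [← hA, ← hl1', ← hl1']
    exact DEL_inj.eq_iff.symm
  · intro z d
    rcases z with z | z
    · show l (e (Sum.inl z), d) = Option.map some (l1 (z, d))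
      rw [hl1', hl']
    · rcases z with _ | _
      · show l (e (Sum.inr false), d) = if d = g then Option.map some (l1 (x, !d)) else some none
        by_cases h : d = g
        · rw [if_pos h, hl1', h, ← hC, hl']
        · have h1 : d = !g := DEL_not d g h
          rw [if_neg h, h1, ← hw, hl']
      · show l (e (Sum.inr true), d) = Option.map some (l1 (x, d))
        rw [hl1', ← hB, hl']

end Pool.SN
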