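import Pool.Agent.Work.MP_a9cb80_sn.Interface5

namespace Pool.SN

open scoped Classical

theorem NAx_Mp {G H P : Type} [Fintype G] [Fintype H] [Fintype P] {c t : Equiv.Perm P}
    {s : P → Bool} {l : P × Bool → Option G} (φ : G ≃ H) (h : Mp G P c t s l) :
    Mp H P c t s (fun a => Option.map φ (l a)) := by
  obtain ⟨h1, ⟨h2, h3⟩, h4⟩ := h
  have hinj : Function.Injective (Option.map φ) := Option.map_injective φ.injective
  refine ⟨h1, ⟨?_, ?_⟩, ?_⟩
  · intro y
    obtain ⟨a, ha⟩ := h2 (Option.map φ.symm y)
    refine ⟨a, ?_⟩
    simp only [ha]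
    cases y <;> simp
  · intro a b
    rw [← h3 a b]
    exact hinj.eq_iff
  · rw [← Fintype.card_congr φ]; exact h4

theorem NAx_fd {L M P : Type} (f : L → M) (hf : Function.Injective f) (l : P × Bool → L)
    (i : L) : fd (fun a => f (l a)) (f i) = fd l i := by
  unfold fd
  exact Nat.card_congr (Equiv.subtypeEquivRight (fun a => hf.eq_iff))

theorem NAx_fe {P P' M : Type} (e : P' ≃ P) (l : P × Bool → M) (l' : P' × Bool → M)
    (h : ∀ z b, l (e z, b) = l' (z, b)) (m : M) : fd l m = fd l' m := by
  unfold fd
  refine Nat.card_congr (Equiv.symm (Equiv.subtypeEquiv (Equiv.prodCongr e (Equiv.refl Bool)) ?_))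
  rintro ⟨z, b⟩
  simp [h]

theorem NAx_sum {P L : Type} [Fintype P] [Fintype L] (l : P × Bool → L) :
    ∑ i, fd l i = 2 * Fintype.card P := by
  have h1 : Fintype.card (Σ i, {a : P × Bool // l a = i}) = Fintype.card (P × Bool) :=
    Fintype.card_congr (Equiv.sigmaFiberEquiv l)
  rw [Fintype.card_sigma, Fintype.card_prod, Fintype.card_bool] at h1
  unfold fd
  simp only [Nat.card_eq_fintype_card]
  rw [h1, mul_comm]

theorem NAx_fix {P L : Type} {c t : Equiv.Perm P} {s : P → Bool} {l : P × Bool → L}
    (hl : IsLab c t s l) (a : P × Bool) (h : fd l (l a) = 1) : face c t s a = a := by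
  have h1 : l a = l (face c t s a) := (hl.2 _ _).2 ⟨1, rfl⟩
  unfold fd at h
  have hs : Subsingleton {b : P × Bool // l b = l a} := (Nat.card_eq_one_iff_unique.mp h).1
  exact congrArg Subtype.val
    (hs.elim (⟨face c t s a, h1.symm⟩ : {b : P × Bool // l b = l a}) ⟨a, rfl⟩)

theorem p_NAx (hDEL : S_DEL) (hCNT : S_CNT) (hCOL : S_COL) (hONEF : S_ONEF) : S_NA := by
  intro n
  induction n with
  | zero => intro G P _ _ c t s l i1 h3; omega
  | succ n ih =>
    intro G P _ _ c t s l i1 h3 hn hM hi1 hi2
    obtain ⟨ψ, hψ1, hψ2⟩ : ∃ ψ : G ≃ Option {i : G // i ≠ i1}, ψ i1 = none ∧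
        ∀ j : {i : G // i ≠ i1}, ψ j.1 = some j :=
      ⟨(Equiv.optionSubtypeNe i1).symm, by simp, fun j => by
        rw [Equiv.optionSubtypeNe_symm_of_ne j.2]⟩
    have hφi : Function.Injective (Option.map ψ) := Option.map_injective ψ.injective
    have hM2 := NAx_Mp ψ hM
    have hcard : Fintype.card {i : G // i ≠ i1} = n := by
      have h := Fintype.card_congr ψ
      rw [Fintype.card_option, hn] at h
      omega
    have hdeg : fd (fun a => Option.map ψ (l a)) (some none) = 1 := by
      have h := NAx_fd (Option.map ψ) hφi l (some i1)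
      rw [hi1] at h
      simpa [hψ1] using h
    obtain ⟨P1, iP1, c1, t1, s1, l1, x, g, e, hM1, hl⟩ :=
      hDEL {i : G // i ≠ i1} P c t s (fun a => Option.map ψ (l a)) hM2 (by omega) hdeg
    have ho : Function.Injective
        (Option.map (some : {i : G // i ≠ i1} → Option {i : G // i ≠ i1})) :=
      Option.map_injective (Option.some_injective _)
    have hw : ∀ y : Option {i : G // i ≠ i1},
        Option.map (some : {i : G // i ≠ i1} → Option {i : G // i ≠ i1}) y ≠ some none := by
      intro y; cases y <;> simp
    obtain ⟨-, hC⟩ := hCNT P1 (Option {i : G // i ≠ i1}) (Option (Option {i : G // i ≠ i1}))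
      l1 x g (Option.map some) (some none) ho hw
    have hD : ∀ j : {i : G // i ≠ i1}, 2 =
        fd l1 (some j) + (if l1 (x, true) = some j then 1 else 0) +
          (if l1 (x, false) = some j then 1 else 0) +
          (if l1 (x, !g) = some j then 1 else 0) := by
      intro j
      have h0 := NAx_fd (Option.map ψ) hφi l (some j.1)
      rw [hi2 j.1 j.2] at h0
      simp only [Option.map_some, hψ2] at h0
      have h1 := NAx_fe e (fun a => Option.map ψ (l a))
        (ll l1 x g (Option.map some) (some none)) hl (some (some j))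
      rw [h0] at h1
      have h2 := hC (some j)
      unfold fd at h1 ⊢
      simp only [Option.map_some] at h2
      rw [h1, h2]
    have hge : ∀ j : {i : G // i ≠ i1}, 1 ≤ fd l1 (some j) := by
      intro j
      obtain ⟨a, ha⟩ := hM1.2.1.1 (some j)
      have : Nonempty {a : P1 × Bool // l1 a = some j} := ⟨⟨a, ha⟩⟩
      exact Nat.card_pos
    have hng : l1 (x, !g) = none := by
      cases h : l1 (x, !g) with
      | none => rfl
      | some j =>
        exfalso
        have h1 := hD j
        have h2 := hge j
        rw [if_pos h] at h1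
        cases g
        · simp only [Bool.not_false] at h
          rw [if_pos h] at h1
          omega
        · simp only [Bool.not_true] at h
          rw [if_pos h] at h1
          omega
    have hcol := hCOL P1 (Option {i : G // i ≠ i1}) c1 t1 s1 l1 hM1.1 hM1.2.1 (by
      have := hM1.2.2
      rw [Fintype.card_option]
      omega) x
    obtain ⟨j1, hj1⟩ : ∃ j1, l1 (x, g) = some j1 := by
      cases h : l1 (x, g) with
      | some j => exact ⟨j, rfl⟩
      | none =>
        exfalso
        cases g
        · exact hcol (hng.trans h.symm)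
        · exact hcol (h.trans hng.symm)
    have hd : ∀ j : {i : G // i ≠ i1}, fd l1 (some j) + (if j = j1 then 1 else 0) = 2 := by
      intro j
      have h1 := hD j
      rw [hng] at h1
      cases g
      · simp only [Bool.not_false] at hng
        rw [hng, hj1] at h1
        by_cases hj : j = j1
        · subst hj
          simp at h1 ⊢
          omega
        · have hj' : ¬ (some j1 = some j) := fun h => hj (Option.some_injective _ h).symm
          rw [if_neg hj'] at h1
          simp [hj] at h1 ⊢
          omega
      · simp only [Bool.not_true] at hng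
        rw [hng, hj1] at h1
        by_cases hj : j = j1
        · subst hj
          simp at h1 ⊢
          omega
        · have hj' : ¬ (some j1 = some j) := fun h => hj (Option.some_injective _ h).symm
          rw [if_neg hj'] at h1
          simp [hj] at h1 ⊢
          omega
    have hd1 : fd l1 (some j1) = 1 := by
      have := hd j1
      rw [if_pos rfl] at this
      omega
    by_cases hn3 : 3 ≤ n
    · refine ih {i : G // i ≠ i1} P1 c1 t1 s1 l1 j1 hn3 hcard hM1 hd1 (fun j hj => ?_)
      have := hd j
      rw [if_neg hj] at this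
      omega
    · have hn2 : n = 2 := by omega
      have hS := NAx_sum l1
      rw [Fintype.sum_option] at hS
      have hS2 : ∑ j : {i : G // i ≠ i1}, (fd l1 (some j) + (if j = j1 then 1 else 0)) =
          2 * n := by
        rw [Finset.sum_congr rfl (fun j _ => hd j)]
        simp only [Finset.sum_const, Finset.card_univ, smul_eq_mul]
        rw [hcard]
        omega
      rw [Finset.sum_add_distrib] at hS2
      have hS3 : ∑ j : {i : G // i ≠ i1}, (if j = j1 then 1 else 0) = 1 := by simp
      have hP := hM1.2.2
      rw [hcard] at hP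
      have hnone : fd l1 none = 1 := by omega
      have f1 := NAx_fix hM1.2.1 (x, !g) (by rw [hng]; exact hnone)
      have f2 := NAx_fix hM1.2.1 (x, g) (by rw [hj1]; exact hd1)
      have g1 := (hONEF P1 c1 t1 s1 x (!g) hM1.1 f1).2
      have g2 := (hONEF P1 c1 t1 s1 x g hM1.1 f2).2
      rw [g1] at g2
      cases g <;> simp at g2

end Pool.SN
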