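import Pool.Agent.Work.MP_a9cb80_sn.Interface5

/-!
Block T1, second copy (helper4).
-/

namespace Pool.SN

open scoped Classical

theorem T1x_split {n : ℕ} (d : Fin n → ℕ) (a b : Fin n) (hab : a ≠ b) :
    ∑ i, d i = d a + d b + ∑ i ∈ (Finset.univ.erase a).erase b, d i ∧
    ((Finset.univ.erase a).erase b : Finset (Fin n)).card = n - 2 := by
  constructor
  · rw [← Finset.add_sum_erase Finset.univ d (Finset.mem_univ a),
      ← Finset.add_sum_erase (Finset.univ.erase a) d
        (Finset.mem_erase.2 ⟨hab.symm, Finset.mem_univ b⟩)]
    ring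
  · rw [Finset.card_erase_of_mem (Finset.mem_erase.2 ⟨hab.symm, Finset.mem_univ b⟩),
      Finset.card_erase_of_mem (Finset.mem_univ a), Finset.card_univ, Fintype.card_fin]
    omega

theorem T1x_one {n : ℕ} (d : Fin n → ℕ) (h1 : ∀ i, 1 ≤ d i) (hs : ∑ i, d i + 1 = 2 * n) :
    ∃ i, d i = 1 := by
  by_contra hno
  push Not at hno
  have h2 : ∀ i, 2 ≤ d i := fun i => by
    have := h1 i
    have := hno i
    omega
  have h3 : ∑ i : Fin n, 2 ≤ ∑ i, d i := Finset.sum_le_sum fun i _ => h2 i
  rw [Finset.sum_const, Finset.card_univ, Fintype.card_fin, smul_eq_mul] at h3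
  omega

theorem p_T1x (hNEC : S_NEC) (hFIN : S_FIN) (hONE : S_ONE) (hNA : S_NA) : S_T1 := by
  intro n d hn hs
  rw [sona_iff]
  constructor
  · intro hR
    have h1 := (hNEC n d hn hR).1
    refine ⟨h1, ?_⟩
    by_contra hcon
    push Not at hcon
    obtain ⟨hn2, hle⟩ := hcon
    obtain ⟨i1, hi1⟩ := T1x_one d h1 hs
    have hoth : ∀ i, i ≠ i1 → d i = 2 := by
      intro i hi
      have ha := h1 i
      have hb := hle i
      by_contra hne
      have hi' : d i = 1 := by omega
      obtain ⟨hsum, hcard⟩ := T1x_split d i i1 hi
      have h3 : ∑ k ∈ (Finset.univ.erase i).erase i1, d k ≤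
          ((Finset.univ.erase i).erase i1 : Finset (Fin n)).card * 2 := by
        rw [← smul_eq_mul]
        refine Finset.sum_le_card_nsmul _ _ _ fun k _ => ?_
        have := hle k
        omega
      rw [hcard] at h3
      omega
    obtain ⟨P, _, c, t, s, l, hc, hl, hP, hd, -⟩ := hR
    refine hNA n (Fin n) P c t s l i1 (by omega) (Fintype.card_fin n) ⟨hc, hl, hP⟩ ?_ ?_
    · have := hd i1
      rw [hi1] at this
      exact this
    · intro i hi
      have := hd i
      rw [hoth i hi] at this
      exact this
  · rintro ⟨h1, h2⟩
    obtain ⟨i1, hi1⟩ := T1x_one d h1 hs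
    by_cases hn2 : n = 2
    · subst hn2
      obtain ⟨j, hj⟩ : ∃ j : Fin 2, ∀ i, i ≠ j → d i = 1 := by
        rw [Fin.sum_univ_two] at hs
        have ha := h1 0
        have hb := h1 1
        by_cases h0 : d 0 = 1
        · refine ⟨1, fun i hi => ?_⟩
          have : i = 0 := by omega
          rw [this, h0]
        · refine ⟨0, fun i hi => ?_⟩
          have : i = 1 := by omega
          rw [this]
          omega
      have hdj : d j = 2 := by
        rw [Fin.sum_univ_two] at hs
        by_cases hj0 : j = 0
        · subst hj0
          have := hj 1 (by decide)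
          omega
        · have hj1 : j = 1 := by omega
          subst hj1
          have := hj 0 (by decide)
          omega
      exact (hONE 2 d j le_rfl hj).2 (by omega)
    · obtain ⟨j, hj⟩ := h2.resolve_left hn2
      have hne : i1 ≠ j := by
        rintro rfl
        omega
      have hones : 1 ≤ (Finset.univ.filter fun i => d i = 1).card := by
        rw [Nat.one_le_iff_ne_zero, ← Nat.pos_iff_ne_zero, Finset.card_pos]
        exact ⟨i1, by simp [hi1]⟩
      have hodd : 2 ≤ (Finset.univ.filter fun i => Odd (d i)).card := by
        by_contra hlt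
        have hle1 : (Finset.univ.filter fun i => Odd (d i)).card ≤ 1 := by omega
        rw [Finset.card_le_one] at hle1
        have hev : ∀ i, i ≠ i1 → Even (d i) := by
          intro i hi
          by_contra hno
          rw [Nat.not_even_iff_odd] at hno
          apply hi
          apply hle1
          · simp [hno]
          · simp [hi1]
        have hj4 : 4 ≤ d j := by
          obtain ⟨m, hm⟩ := hev j hne.symm
          omega
        have hge : ∀ i, i ≠ i1 → 2 ≤ d i := by
          intro i hi
          obtain ⟨m, hm⟩ := hev i hi
          have := h1 i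
          omega
        obtain ⟨hsum, hcard⟩ := T1x_split d i1 j hne
        have h3 : ((Finset.univ.erase i1).erase j : Finset (Fin n)).card * 2 ≤
            ∑ k ∈ (Finset.univ.erase i1).erase j, d k := by
          rw [← smul_eq_mul]
          refine Finset.card_nsmul_le_sum _ _ _ fun k hk => ?_
          exact hge k (Finset.mem_erase.1 (Finset.mem_erase.1 hk).2).1
        rw [hcard] at h3
        omega
      refine hFIN n d hn h1 (by omega) ?_ ?_
      · have : (Finset.univ.filter fun i => d i = 1).card =
            (Finset.univ.filter fun i => d i = 1).card := rfl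
        convert Nat.add_le_add_left hones (2 * n) using 1
        omega
      · have h5 : ∑ i, d i + 2 < 2 * n + 2 := by omega
        refine lt_of_lt_of_le h5 ?_
        convert Nat.add_le_add_left hodd (2 * n) using 1

end Pool.SN
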