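import Pool.Agent.Work.MP_a9cb80_sn.Interface

namespace Pool.SN

theorem ARI_choose {ι : Type} [DecidableEq ι] (S : Finset ι) (c : ι → ℕ) : ∀ t : ℕ, t ≤ ∑ i ∈ S, c i →
    ∃ b : ι → ℕ, (∀ i, b i ≤ c i) ∧ ∑ i ∈ S, b i = t := by
  induction S using Finset.induction_on with
  | empty =>
    intro t ht
    refine ⟨fun _ => 0, fun _ => Nat.zero_le _, ?_⟩
    simp at ht ⊢
    omega
  | insert a S ha ih =>
    intro t ht
    rw [Finset.sum_insert ha] at ht
    rcases Nat.le_total t (∑ i ∈ S, c i) with h | h
    · obtain ⟨b, h1, h2⟩ := ih t h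
      refine ⟨fun i => if i = a then 0 else b i, fun i => ?_, ?_⟩
      · dsimp only
        split_ifs
        · exact Nat.zero_le _
        · exact h1 i
      · rw [Finset.sum_insert ha, if_pos rfl, zero_add]
        rw [← h2]
        apply Finset.sum_congr rfl
        intro i hi
        rw [if_neg]
        rintro rfl
        exact ha hi
    · obtain ⟨b, h1, h2⟩ := ih (∑ i ∈ S, c i) le_rfl
      refine ⟨fun i => if i = a then t - ∑ i ∈ S, c i else b i, fun i => ?_, ?_⟩
      · dsimp only
        split_ifs with hi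
        · rw [hi]
          omega
        · exact h1 i
      · rw [Finset.sum_insert ha, if_pos rfl]
        have : ∑ i ∈ S, (if i = a then t - ∑ i ∈ S, c i else b i) = ∑ i ∈ S, b i := by
          apply Finset.sum_congr rfl
          intro i hi
          rw [if_neg]
          rintro rfl
          exact ha hi
        rw [this, h2]
        omega

theorem p_ARI : S_ARI := by
  intro n d hn h1 h2 h3 h4
  obtain ⟨t, ht⟩ : ∃ t, ∑ i, d i + 2 = 2 * n + t := ⟨∑ i, d i + 2 - 2 * n, by omega⟩
  have h5 : 2 * ∑ i : Fin n, (d i - 1) / 2 + 2 * n = ∑ i, d i + (Finset.univ.filter fun i => Odd (d i)).card := by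
    rw [Finset.card_filter, Finset.mul_sum, ← Finset.sum_add_distrib]
    have e : 2 * n = ∑ _i : Fin n, 2 := by simp [mul_comm]
    rw [e, ← Finset.sum_add_distrib]
    apply Finset.sum_congr rfl
    intro i _
    have := h1 i
    split_ifs with ho
    · obtain ⟨k, hk⟩ := ho
      omega
    · rw [Nat.not_odd_iff_even] at ho
      obtain ⟨k, hk⟩ := ho
      omega
  obtain ⟨b, hb1, hb2⟩ := ARI_choose Finset.univ (fun i : Fin n => (d i - 1) / 2) t (by omega)
  obtain ⟨T, hT1, hT2⟩ := Finset.exists_subset_card_eq (s := Finset.univ.filter fun i => d i = 1) (n := t) (by omega)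
  have hT : ∀ i ∈ T, d i = 1 := fun i hi => (Finset.mem_filter.1 (hT1 hi)).2
  have hbT : ∀ i ∈ T, b i = 0 := by
    intro i hi
    have := hb1 i
    have := hT i hi
    omega
  have hsub : ∀ f : Fin n → ℕ, ∑ k : {i // i ∉ T}, f k.1 = ∑ i ∈ Tᶜ, f i := by
    intro f
    exact (Finset.sum_subtype Tᶜ (fun x => Finset.mem_compl) f).symm
  have hcard : Fintype.card {i // i ∉ T} + t = n := by
    rw [Fintype.card_of_subtype Tᶜ (fun x => Finset.mem_compl), Finset.card_compl, Fintype.card_fin]
    have : T.card ≤ n := by simpa using Finset.card_le_univ T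
    omega
  have hsb : ∑ k : {i // i ∉ T}, b k.1 = t := by
    rw [hsub b]
    have e := Finset.sum_add_sum_compl T b
    rw [Finset.sum_eq_zero hbT, zero_add, hb2] at e
    exact e
  have hsd : ∑ k : {i // i ∉ T}, d k.1 + t = ∑ i, d i := by
    rw [hsub d]
    have e := Finset.sum_add_sum_compl T d
    have e2 : ∑ i ∈ T, d i = t := by
      rw [Finset.sum_congr rfl hT, Finset.sum_const, hT2]
      simp
    omega
  have hse : ∑ k : {i // i ∉ T}, (d k.1 - 2 * b k.1) + 2 * t = ∑ k : {i // i ∉ T}, d k.1 := by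
    rw [← hsb, Finset.mul_sum, ← Finset.sum_add_distrib]
    apply Finset.sum_congr rfl
    intro k _
    have := hb1 k.1
    have := h1 k.1
    omega
  have hge : Fintype.card {i // i ∉ T} ≤ ∑ k : {i // i ∉ T}, (d k.1 - 2 * b k.1) := by
    have e : Fintype.card {i // i ∉ T} = ∑ _k : {i // i ∉ T}, 1 := by simp
    rw [e]
    apply Finset.sum_le_sum
    intro k _
    have := hb1 k.1
    have := h1 k.1
    omega
  refine ⟨T, fun k => d k.1 - 2 * b k.1, fun k => b k.1, hT, fun k => ?_, fun k => ?_, ?_, ?_, ?_⟩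
  · have := hb1 k.1
    have := h1 k.1
    dsimp only
    omega
  · have := hb1 k.1
    have := h1 k.1
    dsimp only
    omega
  · rw [hsb, hT2]
  · dsimp only
    omega
  · omega

end Pool.SN
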