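import Pool.Agent.Work.MP_a9cb80_sn.Interface2

/-! # Block BA0 of MP_a9cb80_lc (helper58) -/

namespace Pool.SN

theorem BA0_T {P : Type} (c t : Equiv.Perm P) (s : P → Bool) (z : P) :
    face c t s (c.symm z, true) = if s z = true then (t z, true) else (c.symm (t z), false) := by
  unfold face
  simp only [if_true, Equiv.apply_symm_apply]
  cases s z <;> rfl

theorem BA0_F {P : Type} (c t : Equiv.Perm P) (s : P → Bool) (z : P) :
    face c t s (z, false) = if s z = true then (c.symm (t z), false) else (t z, true) := by
  unfold face
  simp only [Bool.false_eq_true, if_false]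
  cases s z <;> rfl

theorem p_BA0 : S_BA0 := by
  intro P L c t s l hc hl u
  funext x
  obtain ⟨h1, -, h3⟩ := hc.2 x
  change u (l (x, true)) + u (l (x, false)) + (u (l (c.symm x, true)) + u (l (c.symm x, false))) +
    (u (l (t x, true)) + u (l (t x, false))) +
    (u (l (c.symm (t x), true)) + u (l (c.symm (t x), false))) = 0
  have e1 := hl (c.symm x, true)
  have e2 := hl (x, false)
  have e3 := hl (c.symm (t x), true)
  have e4 := hl (t x, false)
  rw [BA0_T] at e1 e3
  rw [BA0_F] at e2 e4
  rw [h1] at e3 e4
  cases hs : s x
  · rw [hs] at h3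
    have h3' : s (t x) = true := h3
    rw [if_neg (by rw [hs]; decide)] at e1 e2
    rw [if_pos h3'] at e3 e4
    rw [← e1, ← e2, ← e3, ← e4]
    generalize u (l (x, true)) = a
    generalize u (l (t x, true)) = b
    generalize u (l (c.symm (t x), false)) = e
    generalize u (l (c.symm x, false)) = f
    revert a b e f
    decide
  · rw [hs] at h3
    have h3' : s (t x) = false := h3
    rw [if_pos hs] at e1 e2
    rw [if_neg (by rw [h3']; decide)] at e3 e4
    rw [← e1, ← e2, ← e3, ← e4]
    generalize u (l (x, true)) = a
    generalize u (l (t x, true)) = b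
    generalize u (l (c.symm (t x), false)) = e
    generalize u (l (c.symm x, false)) = f
    revert a b e f
    decide

end Pool.SN
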