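import Pool.Agent.Work.MP_a9cb80_sn.Interface4

namespace Pool.SN

open scoped Classical

theorem p_BAFx : S_BAF := by
  intro r
  refine ((Set.finite_Icc (0 : Fin r → ℕ) (fun _ => 4 * r)).prod
    (Set.finite_univ (α := Finset (Option (Fin r) × Option (Fin r))))).subset ?_
  rintro ⟨v, T⟩ hp
  obtain ⟨P, hP, c, t, s, l, hM, hv, -⟩ := hp
  refine ⟨⟨fun i => Nat.zero_le _, fun i => ?_⟩, Set.mem_univ _⟩
  have h1 : v i = fd l (some i) := hv i
  have h2 : Nat.card {a : P × Bool // l a = some i} ≤ Nat.card (P × Bool) :=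
    Nat.card_le_card_of_injective _ Subtype.val_injective
  have h3 : Nat.card (P × Bool) = Fintype.card P * 2 := by
    rw [Nat.card_eq_fintype_card, Fintype.card_prod, Fintype.card_bool]
  have h4 : Fintype.card P + 2 = 2 * Fintype.card (Fin r) := hM.2.2
  rw [Fintype.card_fin] at h4
  change v i ≤ 4 * r
  rw [h1]
  unfold fd
  omega

end Pool.SN
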