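import Pool.Agent.Work.MP_a9cb80_sn.Interface

/-! # Block BASE of MP_a9cb80_lc (helper58) -/

namespace Pool.SN

/-- the labels of the sides of the figure eight -/
def BASE_l (a : Bool × Bool) : Option Bool := if a.1 = a.2 then none else some a.1

theorem BASE_inv : ∀ a : Bool × Bool, BASE_l (face Equiv.boolNot Equiv.boolNot id a) = BASE_l a := by decide

theorem BASE_fw : ∀ a b : Bool × Bool, BASE_l a = BASE_l b → a = b ∨ face Equiv.boolNot Equiv.boolNot id a = b := by
  decide

theorem BASE_it (k : ℕ) (a : Bool × Bool) :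
    BASE_l ((face Equiv.boolNot Equiv.boolNot id)^[k] a) = BASE_l a := by
  induction k generalizing a with
  | zero => rfl
  | succ k ih => rw [Function.iterate_succ_apply, ih, BASE_inv]

theorem p_BASE : S_BASE := by
  refine ⟨Bool, inferInstance, Equiv.boolNot, Equiv.boolNot, id, BASE_l, ⟨?_, ?_⟩, ⟨?_, ?_⟩, ?_, ?_, ?_⟩
  · intro x y
    by_cases h : x = y
    · exact ⟨0, h⟩
    · refine ⟨1, ?_⟩
      rw [pow_one]
      revert x y
      decide
  · decide
  · intro y
    rcases y with _ | y
    · exact ⟨(true, true), rfl⟩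
    · exact ⟨(y, !y), by revert y; decide⟩
  · intro a b
    constructor
    · intro h
      rcases BASE_fw a b h with h | h
      · exact ⟨0, h⟩
      · exact ⟨1, h⟩
    · rintro ⟨k, rfl⟩
      exact (BASE_it k a).symm
  · rfl
  · intro i
    rw [Nat.card_eq_fintype_card]
    revert i
    decide
  · intro i _
    exact ⟨i, !i, by revert i; decide⟩

end Pool.SN
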