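import Pool.Agent.Work.MP_a9cb80_sn.Interface3

/-! # Block BS2 of MP_a9cb80_lc -/

namespace Pool.SN

/-- the labels of the sides of the figure eight, one of the two curls being the unbounded face -/
def BS2_l (a : Bool × Bool) : Option Bool :=
  if a.1 = a.2 then some true else (if a.1 then some false else none)

theorem BS2_inv : ∀ a : Bool × Bool,
    BS2_l (face Equiv.boolNot Equiv.boolNot id a) = BS2_l a := by decide

theorem BS2_fw : ∀ a b : Bool × Bool, BS2_l a = BS2_l b →
    a = b ∨ face Equiv.boolNot Equiv.boolNot id a = b := by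
  decide

theorem BS2_it (k : ℕ) (a : Bool × Bool) :
    BS2_l ((face Equiv.boolNot Equiv.boolNot id)^[k] a) = BS2_l a := by
  induction k generalizing a with
  | zero => rfl
  | succ k ih => rw [Function.iterate_succ_apply, ih, BS2_inv]

theorem p_BS2 : S_BS2 := by
  refine ⟨Bool, inferInstance, Equiv.boolNot, Equiv.boolNot, id, BS2_l, ⟨?_, ?_⟩, ⟨?_, ?_⟩,
    ?_, ?_, ?_⟩
  · intro x y
    by_cases h : x = y
    · exact ⟨0, h⟩
    · refine ⟨1, ?_⟩
      rw [pow_one]
      revert x y
      decide
  · decide
  · intro y
    rcases y with _ | y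
    · exact ⟨(false, true), rfl⟩
    · exact ⟨(true, y), by revert y; decide⟩
  · intro a b
    constructor
    · intro h
      rcases BS2_fw a b h with h | h
      · exact ⟨0, h⟩
      · exact ⟨1, h⟩
    · rintro ⟨k, rfl⟩
      exact (BS2_it k a).symm
  · rfl
  · intro i
    rw [Nat.card_eq_fintype_card]
    revert i
    decide
  · intro i hi
    rw [Set.mem_singleton_iff] at hi
    rw [hi]
    exact ⟨false, false, rfl, rfl⟩

end Pool.SN
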