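import Pool.Agent.Work.MP_a9cb80_sn.Interface3

/-!
# Block CIR: all curls inside one face
-/

set_option autoImplicit false

namespace Pool.SN

/-- the relabelling for one curl -/
def CIR_e0 : Option (Fin 1) ≃ Bool where
  toFun k := match k with
    | none => true
    | some _ => false
  invFun b := match b with
    | true => none
    | false => some 0
  left_inv k := by
    rcases k with _ | k
    · rfl
    · show some (0 : Fin 1) = some k
      rw [Subsingleton.elim k 0]
  right_inv b := by cases b <;> rfl

/-- the relabelling for the step -/
def CIR_e (m : ℕ) : Option (Fin (m + 2)) ≃ Option (Option (Fin (m + 1))) :=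
  (Equiv.optionCongr (finSuccEquiv (m + 1))).trans (Equiv.swap none (some none))

theorem CIR_none (m : ℕ) : CIR_e m none = some none := by
  unfold CIR_e
  rw [Equiv.trans_apply]
  exact Equiv.swap_apply_left _ _

theorem CIR_zero (m : ℕ) : CIR_e m (some 0) = none := by
  unfold CIR_e
  rw [Equiv.trans_apply]
  have : (Equiv.optionCongr (finSuccEquiv (m + 1))) (some 0) = some none := by
    show some (finSuccEquiv (m + 1) 0) = some none
    rw [finSuccEquiv_zero]
  rw [this]
  exact Equiv.swap_apply_right _ _

theorem CIR_succ (m : ℕ) (i : Fin (m + 1)) : CIR_e m (some i.succ) = some (some i) := by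
  unfold CIR_e
  rw [Equiv.trans_apply]
  have : (Equiv.optionCongr (finSuccEquiv (m + 1))) (some i.succ) = some (some i) := by
    show some (finSuccEquiv (m + 1) i.succ) = some (some i)
    rw [finSuccEquiv_succ]
  rw [this]
  refine Equiv.swap_apply_of_ne_of_ne ?_ ?_
  · exact Option.some_ne_none _
  · intro h
    exact Option.some_ne_none _ (Option.some.inj h)

/-- the degrees -/
def CIR_d (m : ℕ) (k : Option (Fin (m + 1))) : ℕ := Option.elim k (2 * (m + 1)) (fun _ => 1)

theorem CIR_key (hBS2 : S_BS2) (hISO : S_ISO) (hOPB : S_OPB) (m : ℕ) :
    St (Option (Fin (m + 1))) (CIR_d m) {none} := by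
  classical
  induction m with
  | zero =>
    have h := hISO Bool (Option (Fin (0 + 1))) CIR_e0 (fun b => if b then 2 else 1) {true} hBS2
    have h2 : CIR_e0 ⁻¹' {true} = {(none : Option (Fin (0 + 1)))} := by
      ext k
      rcases k with _ | k
      · exact ⟨fun _ => rfl, fun _ => rfl⟩
      · constructor
        · intro hk
          exact absurd hk (by
            show ¬ (CIR_e0 (some k) = true)
            show ¬ (false = true)
            exact Bool.false_ne_true)
        · intro hk
          exact absurd hk (Option.some_ne_none k)
    rw [h2] at h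
    convert h using 1
    funext k
    rcases k with _ | k
    · rfl
    · rfl
  | succ m ih =>
    have h := hOPB (Option (Fin (m + 1))) (CIR_d m) {none} none ih rfl
    have h' := hISO _ (Option (Fin (m + 1 + 1))) (CIR_e m) _ _ h
    have h2 : CIR_e m ⁻¹' (some '' {(none : Option (Fin (m + 1)))}) =
        {(none : Option (Fin (m + 1 + 1)))} := by
      ext k
      rw [Set.image_singleton, Set.mem_preimage, Set.mem_singleton_iff, Set.mem_singleton_iff,
        ← CIR_none m]
      exact (CIR_e m).injective.eq_iff
    rw [h2] at h'
    convert h' using 1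
    funext k
    rcases k with _ | k
    · rw [CIR_none]
      show 2 * (m + 1 + 1) = 2 * (m + 1) + (if (none : Option (Fin (m + 1))) = none then 2 else 0)
      rw [if_pos rfl]
      ring
    · refine Fin.cases ?_ (fun i => ?_) k
      · rw [CIR_zero]
        rfl
      · rw [CIR_succ]
        show 1 = 1 + (if (some i : Option (Fin (m + 1))) = none then 2 else 0)
        rw [if_neg (Option.some_ne_none i)]

theorem p_CIR (hBS2 : S_BS2) (hISO : S_ISO) (hOPB : S_OPB) : S_CIR := by
  intro m
  have h := CIR_key hBS2 hISO hOPB m
  convert h using 1
  funext k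
  rcases k with _ | k
  · rfl
  · rfl

end Pool.SN
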