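import Pool.Agent.Work.MP_a9cb80_sn.Interface2

namespace Pool.SN

/-- block COL -/
theorem p_COL (hBA0 : S_BA0) (hRKA : S_RKA) (hRKB : S_RKB) : S_COL := by
  intro P L _ _ c t s l hc hl hcard x hx
  have hfl : ∀ a, l (face c t s a) = l a := fun a => ((hl.2 a (face c t s a)).mpr ⟨1, rfl⟩).symm
  have hle : LinearMap.range (bA l) ≤ LinearMap.ker (bB c t) := by
    rintro _ ⟨u, rfl⟩
    exact LinearMap.mem_ker.mpr (hBA0 P L c t s l hc hfl u)
  have h1 := hRKA P L c t s l hc hl
  have h2 := hRKB P c t s hc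
  have heq : LinearMap.range (bA l) = LinearMap.ker (bB c t) :=
    Submodule.eq_of_le_of_finrank_le hle (by omega)
  have hone : (fun _ => 1 : P → ZMod 2) ∈ LinearMap.range (bA l) := by
    rw [heq, LinearMap.mem_ker]
    funext y
    show (1 : ZMod 2) + 1 + 1 + 1 = 0
    decide
  obtain ⟨u, hu⟩ := hone
  have h3 : u (l (x, true)) + u (l (x, false)) = 1 := congrFun hu x
  rw [hx] at h3
  have h4 : ∀ z : ZMod 2, z + z ≠ 1 := by decide
  exact h4 _ h3

end Pool.SN
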