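import Pool.Agent.Work.MP_a9cb80_sn.Interface

/-!
# Block CV: the values of `cc` and its inverse
-/

namespace Pool.SN

/-- CV. -/
theorem p_CV : S_CV := by
  intro P _ c x
  have h1 : cc c x (Sum.inl x) = Sum.inr false := by
    simp [cc, Equiv.swap_apply_def]
  have h2 : cc c x (Sum.inr false) = Sum.inr true := by
    simp [cc, Equiv.swap_apply_def]
  have h3 : cc c x (Sum.inr true) = Sum.inl (c x) := by
    simp [cc, Equiv.swap_apply_def]
  have h4 : ∀ z, z ≠ x → cc c x (Sum.inl z) = Sum.inl (c z) := by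
    intro z hz
    simp [cc, Equiv.swap_apply_def, hz]
  refine ⟨h1, h2, h3, h4, ?_, ?_, ?_, ?_⟩
  · rw [Equiv.symm_apply_eq]; exact h1.symm
  · rw [Equiv.symm_apply_eq]; exact h2.symm
  · rw [Equiv.symm_apply_eq]; exact h3.symm
  · intro z hz
    rw [Equiv.symm_apply_eq, h4 (c.symm z) (fun h => hz (by rw [← h, Equiv.apply_symm_apply])),
      Equiv.apply_symm_apply]

end Pool.SN
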