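import Pool.Agent.Work.MP_a9cb80_sn.Interface4

set_option autoImplicit false

/-! block DEL (copy helper47) -/

namespace Pool.SN

open scoped Classical

theorem DELx_join {G : Type} {y : Option (Option G)} (h : y ≠ some none) :
    Option.map some (y.join) = y := by
  rcases y with _ | _ | i
  · rfl
  · exact absurd rfl h
  · rfl

/-- block DEL -/
theorem p_DEL (hONEF : S_ONEF) (hREM : S_REM) (hFEQ : S_FEQ) (hLBR : S_LBR) : S_DEL := by
  intro G P _ _ c t s l hMp hG hfd
  obtain ⟨hcurve, hlab, hcard⟩ := hMp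
  rw [Fintype.card_option] at hcard
  obtain ⟨hsub, ⟨⟨⟨p, b⟩, hpb⟩⟩⟩ := Nat.card_eq_one_iff_unique.1 hfd
  have hface : face c t s (p, b) = (p, b) := by
    have h1 : l (p, b) = l (face c t s (p, b)) := (hlab.2 _ _).2 ⟨1, rfl⟩
    have h2 := hsub.elim ⟨face c t s (p, b), by rw [← h1]; exact hpb⟩ ⟨(p, b), hpb⟩
    exact congrArg Subtype.val h2
  obtain ⟨htp, hsp⟩ := hONEF P c t s p b hcurve hface
  obtain ⟨P1, _, c1, t1, s1, x, e, hcurve1, hcard1, hec, het, hes, hep⟩ :=
    hREM P c t s p hcurve htp (by omega)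
  have hF := hFEQ P (P1 ⊕ Bool) c t s (cc c1 x) (tt t1) (ss s1 (s p)) e hec het hes
  -- the transported labelling
  have hsemi : Function.Semiconj (fun a : (P1 ⊕ Bool) × Bool => (e a.1, a.2))
      (face (cc c1 x) (tt t1) (ss s1 (s p))) (face c t s) := fun a => (hF a).symm
  have hinj : Function.Injective (fun a : (P1 ⊕ Bool) × Bool => (e a.1, a.2)) := by
    rintro ⟨a1, a2⟩ ⟨b1, b2⟩ h
    have h1 : e a1 = e b1 := congrArg Prod.fst h
    have h2 : a2 = b2 := congrArg Prod.snd h
    rw [e.injective h1, h2]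
  have hlab' : IsLab (cc c1 x) (tt t1) (ss s1 (s p))
      (fun a : (P1 ⊕ Bool) × Bool => l (e a.1, a.2)) := by
    constructor
    · intro m
      obtain ⟨⟨y, d⟩, hy⟩ := hlab.1 m
      exact ⟨(e.symm y, d), by simpa using hy⟩
    · intro a a'
      have h1 := hlab.2 (e a.1, a.2) (e a'.1, a'.2)
      dsimp only
      rw [h1]
      refine exists_congr fun k => ?_
      have h2 : (face c t s)^[k] (e a.1, a.2) =
          (fun a : (P1 ⊕ Bool) × Bool => (e a.1, a.2))
            ((face (cc c1 x) (tt t1) (ss s1 (s p)))^[k] a) := (hsemi.iterate_right k a).symm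
      rw [h2]
      exact ⟨fun h => hinj h, fun h => by rw [h]⟩
  obtain ⟨h1, h2, h3, h4, h5⟩ := hLBR P1 (Option (Option G)) c1 t1 s1 x (s p)
    (fun a : (P1 ⊕ Bool) × Bool => l (e a.1, a.2)) hcurve1 hlab'
  dsimp only at h1 h2 h3 h4 h5
  have hnew : l (e (Sum.inr false), !(s p)) = some none := by
    rw [hep, hsp, Bool.not_not]
    exact hpb
  rw [hnew] at h4 h5
  let l1 : P1 × Bool → Option G := fun a => (l (e (Sum.inl a.1), a.2)).join
  have hl1 : ∀ a, Option.map some (l1 a) = l (e (Sum.inl a.1), a.2) := fun a => DELx_join (h4 a)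
  have hmi : Function.Injective (Option.map (some : G → Option G)) :=
    Option.map_injective (Option.some_injective G)
  refine ⟨P1, inferInstance, c1, t1, s1, l1, x, s p, e, ⟨hcurve1, ⟨?_, ?_⟩, by omega⟩, ?_⟩
  · intro m
    rcases h5 (Option.map some m) with h | ⟨a, ha⟩
    · exfalso
      rcases m with _ | i
      · exact absurd h (by simp)
      · exact absurd h (by simp)
    · refine ⟨a, hmi ?_⟩
      rw [hl1, ha]
  · intro a a'
    rw [← h1 a a', ← hl1 a, ← hl1 a']
    exact ⟨fun h => by rw [h], fun h => hmi h⟩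
  · intro z d
    rcases z with y | (_ | _)
    · exact (hl1 (y, d)).symm
    · show l (e (Sum.inr false), d) = if d = s p then Option.map some (l1 (x, !d)) else some none
      by_cases hd : d = s p
      · rw [if_pos hd, hl1, hd]
        exact h3
      · rw [if_neg hd]
        have : d = !(s p) := by
          revert hd
          cases d <;> cases s p <;> simp
        rw [this]
        exact hnew
    · show l (e (Sum.inr true), d) = Option.map some (l1 (x, d))
      rw [hl1]
      exact h2 d

end Pool.SN
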