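import Pool.Agent.Work.MP_a9cb80_sn.Interface2

namespace Pool.SN

/-- block DUAL -/
theorem p_DUAL : S_DUAL := by
  intro P α c t s z hc hf hb
  have hg : ∀ x b, z (x, b) = z (x, true) := by
    intro x b
    cases b
    · exact hb x true
    · rfl
  have hstep : ∀ x, z (c x, true) = z (x, true) := by
    intro x
    obtain ⟨h1, -, h3⟩ := hc.2 (c x)
    cases hs : s (c x)
    · have e1 : face c t s (x, true) = (c.symm (t (c x)), false) := by
        simp [face, hs]
      have e2 : face c t s (c.symm (t (c x)), true) = (c x, true) := by
        simp [face, h3, hs, h1]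
      calc z (c x, true) = z (face c t s (c.symm (t (c x)), true)) := by rw [e2]
        _ = z (c.symm (t (c x)), true) := hf _
        _ = z (c.symm (t (c x)), false) := (hg _ false).symm
        _ = z (face c t s (x, true)) := by rw [e1]
        _ = z (x, true) := hf _
    · have e1 : face c t s (x, true) = (t (c x), true) := by
        simp [face, hs]
      have e2 : face c t s (t (c x), false) = (c x, true) := by
        simp [face, h3, hs, h1]
      calc z (c x, true) = z (face c t s (t (c x), false)) := by rw [e2]
        _ = z (t (c x), false) := hf _
        _ = z (t (c x), true) := hg _ false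
        _ = z (face c t s (x, true)) := by rw [e1]
        _ = z (x, true) := hf _
  have hk : ∀ (k : ℕ) x, z ((c ^ k) x, true) = z (x, true) := by
    intro k
    induction k with
    | zero => intro x; rfl
    | succ k ih =>
      intro x
      rw [pow_succ', Equiv.Perm.mul_apply, hstep, ih]
  intro a a'
  obtain ⟨x, b⟩ := a
  obtain ⟨y, b'⟩ := a'
  obtain ⟨k, hk'⟩ := hc.1 x y
  rw [hg x b, hg y b', ← hk', hk]

end Pool.SN
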