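import Pool.Agent.Work.MP_a9cb80_sn.Interface

/-!
# FIN: the theorem from TREE, PH2, ARI, ISO
-/

namespace Pool.SN

theorem FIN_mono {G : Type} [Fintype G] {d d' : G → ℕ} {good : Set G} (h : St G d good)
    (hd : ∀ i, d i = d' i) : St G d' ∅ := by
  obtain ⟨P, hP, c, t, s, l, h1, h2, h3, h4, h5⟩ := h
  exact ⟨P, hP, c, t, s, l, h1, h2, h3, fun i => (h4 i).trans (hd i),
    fun i hi => absurd hi (Set.notMem_empty i)⟩

theorem p_FIN (hISO : S_ISO) (hTREE : S_TREE) (hPH2 : S_PH2) (hARI : S_ARI) : S_FIN := by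
  intro n d hn hd h1 h2 h3
  obtain ⟨T, e, b, hT, hde, he, hb, hsum, hcard⟩ := hARI n d hn hd h1 h2 h3
  have hS := hTREE {i // i ∉ T} e hcard he hsum
  have hS2 := hPH2 {i // i ∉ T} e b hS
  let E : Fin n ≃ {i // i ∉ T} ⊕ Fin (∑ k, b k) :=
    (Equiv.sumCompl (fun i => i ∈ T)).symm.trans ((Equiv.sumComm _ _).trans
      (Equiv.sumCongr (Equiv.refl _) (T.equivFin.trans (finCongr hb.symm))))
  have hS3 := hISO _ (Fin n) E _ _ hS2
  refine FIN_mono hS3 fun i => ?_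
  by_cases hi : i ∈ T
  · have hE : E i = Sum.inr ((T.equivFin.trans (finCongr hb.symm)) ⟨i, hi⟩) := by
      simp [E, Equiv.sumCompl_symm_apply_of_pos hi]
    rw [hE, Sum.elim_inr, hT i hi]
  · have hE : E i = Sum.inl ⟨i, hi⟩ := by
      simp [E, Equiv.sumCompl_symm_apply_of_neg hi]
    rw [hE, Sum.elim_inl]
    exact (hde ⟨i, hi⟩).symm

end Pool.SN
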