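import Pool.Agent.Work.MP_a9cb80_sn.Interface

/-!
# MP_a9cb80_lc, block ISO: relabelling
-/

namespace Pool.SN

theorem ISO_some {G H : Type} (e : H ≃ G) (o : Option G) (k : H) :
    (Equiv.optionCongr e.symm) o = some k ↔ o = some (e k) := by
  cases o with
  | none => simp [Equiv.optionCongr]
  | some g =>
    constructor
    · intro h
      have h1 : some (e.symm g) = some k := h
      have h2 : e.symm g = k := Option.some.inj h1
      rw [← h2, e.apply_symm_apply]
    · intro h
      have h1 : g = e k := Option.some.inj h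
      show some (e.symm g) = some k
      rw [h1, e.symm_apply_apply]

theorem p_ISO : S_ISO := by
  intro G H _ _ e d good h
  obtain ⟨P, fP, c, t, s, l, h1, ⟨h2, h3⟩, h4, h5, h6⟩ := h
  refine ⟨P, fP, c, t, s, fun a => (Equiv.optionCongr e.symm) (l a), h1, ⟨?_, ?_⟩, ?_, ?_, ?_⟩
  · exact (Equiv.optionCongr e.symm).surjective.comp h2
  · intro a b
    rw [← h3 a b]
    exact (Equiv.optionCongr e.symm).apply_eq_iff_eq
  · rw [h4, Fintype.card_congr e]
  · intro k
    refine Eq.trans ?_ (h5 (e k))
    exact Nat.card_congr (Equiv.subtypeEquivRight fun a => ISO_some e (l a) k)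
  · intro k hk
    obtain ⟨x, b, hx, hy⟩ := h6 (e k) hk
    refine ⟨x, b, (ISO_some e _ k).2 hx, ?_⟩
    show (Equiv.optionCongr e.symm) (l (x, !b)) = none
    rw [hy]
    rfl

end Pool.SN
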