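import Pool.Agent.Work.MP_a9cb80_sn.Interface4

set_option autoImplicit false

namespace Pool.SN

open scoped Classical

/-- The projection. -/
def LBRx_pi {P : Type} (x : P) (g : Bool) : (P ⊕ Bool) × Bool → Option (P × Bool)
  | (Sum.inl z, b) => some (z, b)
  | (Sum.inr true, b) => some (x, b)
  | (Sum.inr false, b) => if b = g then some (x, !b) else none

theorem LBRx_facts (hFV : S_FV) {P : Type} (c t : Equiv.Perm P) (s : P → Bool) (x : P) (g : Bool)
    (hC : IsCurve c t s) (h : (P ⊕ Bool) × Bool → (P ⊕ Bool) × Bool)
    (hh : face (cc c x) (tt t) (ss s g) = h) :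
    (∀ a b, LBRx_pi x g b = some a → ∃ k : ℕ, h^[k] (ent x a) = b) ∧
    (∀ a b, LBRx_pi x g b = some a → ∃ k : ℕ, h^[k] b = ent x (face c t s a)) ∧
    (∀ b a, LBRx_pi x g b = some a → LBRx_pi x g (h b) = some a ∨
      LBRx_pi x g (h b) = some (face c t s a)) ∧
    h (Sum.inr false, !g) = (Sum.inr false, !g) := by
  obtain ⟨F1, F2, F3, F4, F5⟩ := hFV P c t s x g hC
  have F1' : ∀ (z : P) (b : Bool), z ≠ x → face (cc c x) (tt t) (ss s g) (Sum.inl z, b) =
      ent x (face c t s (z, b)) := fun z b hz =>
    F1 (z, b) (fun h => hz (congrArg Prod.fst h)) (fun h => hz (congrArg Prod.fst h))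
  clear F1
  rw [hh] at F1' F2 F3 F4 F5
  have hent : ∀ a : P × Bool, LBRx_pi x g (ent x a) = some a := by
    intro a
    unfold ent
    split_ifs with h1
    · rw [h1]; rfl
    · rfl
  have e1 : ∀ z b, z ≠ x → ent x (z, b) = (Sum.inl z, b) := by
    intro z b hz
    unfold ent
    rw [if_neg (fun h => hz (congrArg Prod.fst h))]
  have e2 : ent x (x, true) = (Sum.inl x, true) := by
    unfold ent
    rw [if_neg (by simp)]
  have e3 : ent x (x, false) = (Sum.inr true, false) := by
    unfold ent
    rw [if_pos rfl]
  refine ⟨?_, ?_, ?_, ?_⟩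
  · rintro a ⟨z | r, b⟩ hab
    · simp only [LBRx_pi, Option.some.injEq] at hab
      subst hab
      by_cases hz : z = x
      · subst hz
        cases b
        · cases g
          · exact ⟨1, by rw [e3]; exact (F5 rfl).2.2.1⟩
          · exact ⟨2, by
              rw [e3]
              show h (h _) = _
              rw [(F4 rfl).2.1, (F4 rfl).2.2.1]⟩
        · exact ⟨0, e2⟩
      · exact ⟨0, e1 z b hz⟩
    · cases r
      · simp only [LBRx_pi] at hab
        split_ifs at hab with hbg
        simp only [Option.some.injEq] at hab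
        subst hab
        subst hbg
        cases b
        · exact ⟨1, by
            show h (ent x (x, true)) = _
            rw [e2]; exact (F5 rfl).1⟩
        · exact ⟨1, by
            show h (ent x (x, false)) = _
            rw [e3]; exact (F4 rfl).2.1⟩
      · simp only [LBRx_pi, Option.some.injEq] at hab
        subst hab
        cases b
        · exact ⟨0, e3⟩
        · cases g
          · exact ⟨2, by
              rw [e2]
              show h (h _) = _
              rw [(F5 rfl).1, (F5 rfl).2.1]⟩
          · exact ⟨1, by rw [e2]; exact (F4 rfl).1⟩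
  · rintro a ⟨z | r, b⟩ hab
    · simp only [LBRx_pi, Option.some.injEq] at hab
      subst hab
      by_cases hz : z = x
      · subst hz
        cases b
        · exact ⟨1, F3⟩
        · cases g
          · exact ⟨3, by
              show h (h (h _)) = _
              rw [(F5 rfl).1, (F5 rfl).2.1, F2]⟩
          · exact ⟨2, by
              show h (h _) = _
              rw [(F4 rfl).1, F2]⟩
      · exact ⟨1, F1' z b hz⟩
    · cases r
      · simp only [LBRx_pi] at hab
        split_ifs at hab with hbg
        simp only [Option.some.injEq] at hab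
        subst hab
        subst hbg
        cases b
        · exact ⟨2, by
            show h (h _) = _
            rw [(F5 rfl).2.1]; exact F2⟩
        · exact ⟨2, by
            show h (h _) = _
            rw [(F4 rfl).2.2.1]; exact F3⟩
      · simp only [LBRx_pi, Option.some.injEq] at hab
        subst hab
        cases b
        · cases g
          · exact ⟨2, by
              show h (h _) = _
              rw [(F5 rfl).2.2.1, F3]⟩
          · exact ⟨3, by
              show h (h (h _)) = _
              rw [(F4 rfl).2.1, (F4 rfl).2.2.1, F3]⟩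
        · exact ⟨1, F2⟩
  · rintro ⟨z | r, b⟩ a hab
    · simp only [LBRx_pi, Option.some.injEq] at hab
      subst hab
      by_cases hz : z = x
      · subst hz
        cases b
        · right; rw [F3, hent]
        · left
          cases g
          · rw [(F5 rfl).1]; simp [LBRx_pi]
          · rw [(F4 rfl).1]; simp [LBRx_pi]
      · right; rw [F1' z b hz, hent]
    · cases r
      · simp only [LBRx_pi] at hab
        split_ifs at hab with hbg
        simp only [Option.some.injEq] at hab
        subst hab
        subst hbg
        left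
        cases b
        · rw [(F5 rfl).2.1]; simp [LBRx_pi]
        · rw [(F4 rfl).2.2.1]; simp [LBRx_pi]
      · simp only [LBRx_pi, Option.some.injEq] at hab
        subst hab
        cases b
        · left
          cases g
          · rw [(F5 rfl).2.2.1]; simp [LBRx_pi]
          · rw [(F4 rfl).2.1]; simp [LBRx_pi]
        · right; rw [F2, hent]
  · cases g
    · exact (F5 rfl).2.2.2
    · exact (F4 rfl).2.2.2

theorem p_LBRx (hFV : S_FV) : S_LBR := by
  intro P1 M _ c t s x g l' hC hL
  obtain ⟨G1, G2, G3, G4⟩ := LBRx_facts hFV c t s x g hC _ rfl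
  obtain ⟨hsurj, hlab⟩ := hL
  generalize hh : face (cc c x) (tt t) (ss s g) = h at *
  -- sides in the same fibre have the same label
  have hfib : ∀ a u v, LBRx_pi x g u = some a → LBRx_pi x g v = some a → l' u = l' v := by
    intro a u v hu hv
    obtain ⟨k, hk⟩ := G1 a u hu
    obtain ⟨k', hk'⟩ := G1 a v hv
    exact ((hlab _ _).2 ⟨k, hk⟩).symm.trans ((hlab _ _).2 ⟨k', hk'⟩)
  have hent : ∀ a : P1 × Bool, LBRx_pi x g (ent x a) = some a := by
    intro a
    unfold ent
    split_ifs with h1
    · rw [h1]; rfl
    · rfl
  have hstep : ∀ a : P1 × Bool, l' (Sum.inl a.1, a.2) =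
      l' (Sum.inl (face c t s a).1, (face c t s a).2) := by
    intro a
    obtain ⟨k, hk⟩ := G2 a (Sum.inl a.1, a.2) rfl
    rw [(hlab _ _).2 ⟨k, hk⟩]
    exact hfib (face c t s a) _ _ (hent _) rfl
  have hiter : ∀ (k : ℕ) (a : P1 × Bool), l' (Sum.inl a.1, a.2) =
      l' (Sum.inl ((face c t s)^[k] a).1, ((face c t s)^[k] a).2) := by
    intro k
    induction k with
    | zero => intro a; rfl
    | succ k ih =>
      intro a
      rw [Function.iterate_succ_apply, hstep a]
      exact ih _
  have hback : ∀ (k : ℕ) (u : (P1 ⊕ Bool) × Bool) (a : P1 × Bool), LBRx_pi x g u = some a →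
      ∃ k' : ℕ, LBRx_pi x g (h^[k] u) = some ((face c t s)^[k'] a) := by
    intro k
    induction k with
    | zero => intro u a hu; exact ⟨0, hu⟩
    | succ k ih =>
      intro u a hu
      rw [Function.iterate_succ_apply]
      rcases G3 u a hu with h1 | h1
      · exact ih _ a h1
      · obtain ⟨k', hk'⟩ := ih _ _ h1
        exact ⟨k' + 1, by rw [Function.iterate_succ_apply]; exact hk'⟩
  have h2 : ∀ b, l' (Sum.inr true, b) = l' (Sum.inl x, b) := fun b => hfib (x, b) _ _ rfl rfl
  have h3 : l' (Sum.inr false, g) = l' (Sum.inl x, !g) :=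
    hfib (x, !g) _ _ (by simp [LBRx_pi]) rfl
  refine ⟨?_, h2, h3, ?_, ?_⟩
  · intro a b
    constructor
    · intro hab
      obtain ⟨k, hk⟩ := (hlab _ _).1 hab
      obtain ⟨k', hk'⟩ := hback k (Sum.inl a.1, a.2) a rfl
      rw [hk] at hk'
      exact ⟨k', (Option.some.inj hk').symm⟩
    · rintro ⟨k, rfl⟩
      exact hiter k a
  · intro a ha
    obtain ⟨k, hk⟩ := (hlab _ _).1 ha.symm
    rw [Function.iterate_fixed G4] at hk
    have := congrArg Prod.fst hk
    simp at this
  · intro m
    obtain ⟨⟨z | r, b⟩, rfl⟩ := hsurj m
    · exact Or.inr ⟨(z, b), rfl⟩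
    · cases r
      · by_cases hb : b = g
        · subst hb
          exact Or.inr ⟨(x, !b), h3.symm⟩
        · left
          have : b = !g := by cases b <;> cases g <;> simp_all
          rw [this]
      · exact Or.inr ⟨(x, b), (h2 b).symm⟩

end Pool.SN
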