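import Pool.Agent.Work.MP_a9cb80_sn.Interface5

/-! Block NA (helper48) -/

namespace Pool.SN

open scoped Classical

theorem NA_Mp {G H P : Type} [Fintype G] [Fintype H] [Fintype P] {c t : Equiv.Perm P}
    {s : P → Bool} {l : P × Bool → Option G} (φ : G ≃ H) (h : Mp G P c t s l) :
    Mp H P c t s (fun a => Option.map φ (l a)) := by
  obtain ⟨h1, ⟨h2, h3⟩, h4⟩ := h
  have hinj : Function.Injective (Option.map φ) := Option.map_injective φ.injective
  refine ⟨h1, ⟨?_, ?_⟩, ?_⟩
  · intro y
    obtain ⟨a, ha⟩ := h2 (Option.map φ.symm y)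
    refine ⟨a, ?_⟩
    simp only [ha]
    cases y <;> simp
  · intro a b
    rw [← h3 a b]
    exact hinj.eq_iff
  · rw [← Fintype.card_congr φ]; exact h4

theorem NA_fd {L M P : Type} (f : L → M) (hf : Function.Injective f) (l : P × Bool → L)
    (i : L) : fd (fun a => f (l a)) (f i) = fd l i := by
  unfold fd
  exact Nat.card_congr (Equiv.subtypeEquivRight (fun a => hf.eq_iff))

theorem NA_fe {P P' M : Type} (e : P' ≃ P) (l : P × Bool → M) (l' : P' × Bool → M)
    (h : ∀ z b, l (e z, b) = l' (z, b)) (m : M) : fd l m = fd l' m := by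
  unfold fd
  refine Nat.card_congr (Equiv.symm (Equiv.subtypeEquiv (Equiv.prodCongr e (Equiv.refl Bool)) ?_))
  rintro ⟨z, b⟩
  simp [h]

theorem NA_total {P L : Type} [Fintype P] [Fintype L] (l : P × Bool → L) :
    ∑ i, fd l i = 2 * Fintype.card P := by
  have h1 : Nat.card (Σ i : L, {a : P × Bool // l a = i}) = Nat.card (P × Bool) :=
    Nat.card_congr (Equiv.sigmaFiberEquiv l)
  rw [Nat.card_sigma] at h1
  unfold fd
  rw [h1, Nat.card_eq_fintype_card, Fintype.card_prod, Fintype.card_bool]
  ring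

theorem NA_fix {P L : Type} [Fintype P] (c t : Equiv.Perm P) (s : P → Bool) (l : P × Bool → L)
    (hl : IsLab c t s l) (a : P × Bool) (h : fd l (l a) = 1) : face c t s a = a := by
  unfold fd at h
  rw [Nat.card_eq_one_iff_unique] at h
  obtain ⟨hs, -⟩ := h
  have h1 : l a = l (face c t s a) := (hl.2 a (face c t s a)).2 ⟨1, rfl⟩
  have h2 : (⟨face c t s a, h1.symm⟩ : {b : P × Bool // l b = l a}) = ⟨a, rfl⟩ :=
    Subsingleton.elim _ _
  exact congrArg Subtype.val h2

/-- one step -/
theorem NA_step (hDEL : S_DEL) (hCNT : S_CNT) (hCOL : S_COL) (m : ℕ) (hm : 2 ≤ m) (G P : Type)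
    [Fintype G] [Fintype P] (c t : Equiv.Perm P)
    (s : P → Bool) (l : P × Bool → Option G) (i1 : G) (hG : Fintype.card G = m + 1)
    (hM : Mp G P c t s l) (hd1 : fd l (some i1) = 1) (hd2 : ∀ i, i ≠ i1 → fd l (some i) = 2) :
    ∃ (P1 : Type) (_ : Fintype P1) (c1 t1 : Equiv.Perm P1) (s1 : P1 → Bool)
      (l1 : P1 × Bool → Option (Fin m)) (x : P1) (g : Bool) (j1 : Fin m),
      Mp (Fin m) P1 c1 t1 s1 l1 ∧ l1 (x, g) = some j1 ∧ l1 (x, !g) = none ∧
      fd l1 (some j1) = 1 ∧ ∀ j, j ≠ j1 → fd l1 (some j) = 2 := by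
  obtain ⟨φ, hφ⟩ : ∃ φ : G ≃ Option (Fin m), φ i1 = none := by
    let ε : G ≃ Option (Fin m) := (Fintype.equivFinOfCardEq hG).trans (finSuccEquiv m)
    exact ⟨ε.trans (Equiv.swap (ε i1) none), by simp⟩
  have hφi : Function.Injective (Option.map φ) := Option.map_injective φ.injective
  have hM2 := NA_Mp φ hM
  have hcard : 2 ≤ Fintype.card (Fin m) := by rw [Fintype.card_fin]; exact hm
  have hdeg : fd (fun a => Option.map φ (l a)) (some none) = 1 := by
    have h := NA_fd (Option.map φ) hφi l (some i1)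
    rw [hd1] at h
    simpa [hφ] using h
  obtain ⟨P1, iP1, c1, t1, s1, l1, x, g, e, hM1, hl⟩ :=
    hDEL (Fin m) P c t s (fun a => Option.map φ (l a)) hM2 hcard hdeg
  have ho : Function.Injective (Option.map (some : Fin m → Option (Fin m))) :=
    Option.map_injective (Option.some_injective _)
  have hw : ∀ y : Option (Fin m),
      Option.map (some : Fin m → Option (Fin m)) y ≠ some none := by
    intro y; cases y <;> simp
  obtain ⟨-, hC⟩ := hCNT P1 (Option (Fin m)) (Option (Option (Fin m))) l1 x g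
    (Option.map some) (some none) ho hw
  have hD : ∀ j : Fin m, 2 =
      fd l1 (some j) + (if l1 (x, true) = some j then 1 else 0) +
        (if l1 (x, false) = some j then 1 else 0) +
        (if l1 (x, !g) = some j then 1 else 0) := by
    intro j
    have h0 : fd (fun a => Option.map φ (l a)) (some (some j)) = 2 := by
      have h := NA_fd (Option.map φ) hφi l (some (φ.symm (some j)))
      rw [hd2 (φ.symm (some j)) (by
        intro hcon
        rw [← hcon, Equiv.apply_symm_apply] at hφ
        exact absurd hφ (by simp))] at h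
      simpa using h
    have h1 := NA_fe e (fun a => Option.map φ (l a))
      (ll l1 x g (Option.map some) (some none)) hl (some (some j))
    rw [← h0, h1]
    have h2 := hC (some j)
    unfold fd
    simp only [Option.map_some] at h2
    exact h2
  have hpos : ∀ j : Fin m, 1 ≤ fd l1 (some j) := by
    intro j
    obtain ⟨a, ha⟩ := hM1.2.1.1 (some j)
    have : Nonempty {a : P1 × Bool // l1 a = some j} := ⟨⟨a, ha⟩⟩
    exact Nat.card_pos
  have hng : l1 (x, !g) = none := by
    cases hv : l1 (x, !g) with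
    | none => rfl
    | some j =>
      exfalso
      have h1 := hD j
      have h2 := hpos j
      rw [hv, if_pos rfl] at h1
      cases g
      · simp only [Bool.not_false] at hv
        rw [hv, if_pos rfl] at h1
        omega
      · simp only [Bool.not_true] at hv
        rw [hv, if_pos rfl] at h1
        omega
  have hne : l1 (x, true) ≠ l1 (x, false) := by
    apply hCOL P1 (Option (Fin m)) c1 t1 s1 l1 hM1.1 hM1.2.1
    have := hM1.2.2
    rw [Fintype.card_option]
    omega
  obtain ⟨j1, hj1⟩ : ∃ j1, l1 (x, g) = some j1 := by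
    cases hv : l1 (x, g) with
    | some j => exact ⟨j, rfl⟩
    | none =>
      exfalso
      apply hne
      cases g
      · simp only [Bool.not_false] at hng
        rw [hv, hng]
      · simp only [Bool.not_true] at hng
        rw [hv, hng]
  have hD' : ∀ j : Fin m, 2 = fd l1 (some j) + if j1 = j then 1 else 0 := by
    intro j
    have h1 := hD j
    rw [hng] at h1
    cases g
    · simp only [Bool.not_false] at hng
      rw [hng, hj1] at h1
      simpa using h1
    · simp only [Bool.not_true] at hng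
      rw [hng, hj1] at h1
      simpa using h1
  refine ⟨P1, iP1, c1, t1, s1, l1, x, g, j1, hM1, hj1, hng, ?_, ?_⟩
  · have := hD' j1
    rw [if_pos rfl] at this
    omega
  · intro j hj
    have := hD' j
    rw [if_neg (Ne.symm hj)] at this
    omega

theorem NA_main (hDEL : S_DEL) (hCNT : S_CNT) (hCOL : S_COL) (hONEF : S_ONEF) :
    ∀ (m : ℕ), 2 ≤ m → ∀ (G P : Type) [Fintype G] [Fintype P] (c t : Equiv.Perm P)
    (s : P → Bool) (l : P × Bool → Option G) (i1 : G), Fintype.card G = m + 1 →
    Mp G P c t s l → fd l (some i1) = 1 → (∀ i, i ≠ i1 → fd l (some i) = 2) → False := by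
  intro m hm
  induction m, hm using Nat.le_induction with
  | base =>
    intro G P _ _ c t s l i1 hG hM h1 h2
    obtain ⟨P1, _, c1, t1, s1, l1, x, g, j1, hM1, hj1, hng, hd1, hd2⟩ :=
      NA_step hDEL hCNT hCOL 2 le_rfl G P c t s l i1 hG hM h1 h2
    have hc := hM1.2.2
    rw [Fintype.card_fin] at hc
    have htot := NA_total l1
    rw [Fintype.sum_option, Fin.sum_univ_two] at htot
    have hsum : fd l1 (some 0) + fd l1 (some 1) = 3 := by
      have h01 : j1 = 0 ∨ j1 = 1 := by omega
      rcases h01 with h | h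
      · rw [h] at hd1
        have := hd2 1 (by rw [h]; decide)
        omega
      · rw [h] at hd1
        have := hd2 0 (by rw [h]; decide)
        omega
    have hnone : fd l1 none = 1 := by omega
    have f1 := NA_fix c1 t1 s1 l1 hM1.2.1 (x, g) (by rw [hj1]; exact hd1)
    have f2 := NA_fix c1 t1 s1 l1 hM1.2.1 (x, !g) (by rw [hng]; exact hnone)
    have e1 := (hONEF P1 c1 t1 s1 x g hM1.1 f1).2
    have e2 := (hONEF P1 c1 t1 s1 x (!g) hM1.1 f2).2
    rw [e1] at e2
    cases g <;> simp at e2
  | succ m hm ih =>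
    intro G P _ _ c t s l i1 hG hM h1 h2
    obtain ⟨P1, _, c1, t1, s1, l1, x, g, j1, hM1, hj1, hng, hd1, hd2⟩ :=
      NA_step hDEL hCNT hCOL (m + 1) (by omega) G P c t s l i1 hG hM h1 h2
    exact ih (Fin (m + 1)) P1 c1 t1 s1 l1 j1 (Fintype.card_fin _) hM1 hd1 hd2

/-- Block NA. -/
theorem p_NA (hDEL : S_DEL) (hCNT : S_CNT) (hCOL : S_COL) (hONEF : S_ONEF) : S_NA := by
  intro n G P _ _ c t s l i1 hn hG hM h1 h2
  exact NA_main hDEL hCNT hCOL hONEF (n - 1) (by omega) G P c t s l i1 (by omega) hM h1 h2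

end Pool.SN
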