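import Pool.Agent.Work.MP_a9cb80_sn.Interface5
import Pool.Agent.Work.MP_a9cb80_sn.B_RDF

namespace Pool.SN

open scoped Classical

theorem NAy_main (hDEL : S_DEL) (hCNT : S_CNT) (hCOL : S_COL) (G P : Type) [Fintype G] [Fintype P]
    (c t : Equiv.Perm P) (s : P → Bool) (l : P × Bool → Option G) (i1 : G)
    (hG : 3 ≤ Fintype.card G) (hM : Mp G P c t s l) (h1 : fd l (some i1) = 1)
    (h2 : ∀ i, i ≠ i1 → fd l (some i) = 2) :
    ∃ (P1 : Type) (_ : Fintype P1) (c1 t1 : Equiv.Perm P1) (s1 : P1 → Bool)
      (l1 : P1 × Bool → Option {i : G // i ≠ i1}) (x : P1) (g : Bool) (j : {i : G // i ≠ i1}),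
      Mp {i : G // i ≠ i1} P1 c1 t1 s1 l1 ∧ fd l1 (some j) = 1 ∧
      (∀ i, i ≠ j → fd l1 (some i) = 2) ∧ l1 (x, g) = some j ∧ l1 (x, !g) = none := by
  obtain ⟨φ, hφ⟩ : ∃ φ : G ≃ Option {i : G // i ≠ i1}, φ = (Equiv.optionSubtypeNe i1).symm := ⟨_, rfl⟩
  have hφ1 : φ i1 = none := by rw [hφ]; exact Equiv.optionSubtypeNe_symm_self i1
  have hφ2 : ∀ j : {i : G // i ≠ i1}, φ j.1 = some j := by
    intro j
    rw [hφ]
    exact Equiv.optionSubtypeNe_symm_of_ne j.2
  have hcard : Fintype.card {i : G // i ≠ i1} + 1 = Fintype.card G := by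
    rw [← Fintype.card_option]
    exact (Fintype.card_congr φ).symm
  have hφi : Function.Injective (Option.map φ) := Option.map_injective φ.injective
  have hM2 := RDF_Mp φ hM
  have hdeg : fd (fun a => Option.map φ (l a)) (some none) = 1 := by
    have h := RDF_fd (Option.map φ) hφi l (some i1)
    rw [h1] at h
    simpa [hφ1] using h
  obtain ⟨P1, iP1, c1, t1, s1, l1, x, g, e, hM1, hl⟩ :=
    hDEL {i : G // i ≠ i1} P c t s (fun a => Option.map φ (l a)) hM2 (by omega) hdeg
  have ho : Function.Injective (Option.map (some : {i : G // i ≠ i1} → Option {i : G // i ≠ i1})) :=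
    Option.map_injective (Option.some_injective _)
  have hw : ∀ y : Option {i : G // i ≠ i1},
      Option.map (some : {i : G // i ≠ i1} → Option {i : G // i ≠ i1}) y ≠ some none := by
    intro y; cases y <;> simp
  obtain ⟨-, hC⟩ := hCNT P1 (Option {i : G // i ≠ i1}) (Option (Option {i : G // i ≠ i1})) l1 x g
    (Option.map some) (some none) ho hw
  have hD : ∀ j : {i : G // i ≠ i1}, 2 =
      fd l1 (some j) + (if l1 (x, true) = some j then 1 else 0) +
        (if l1 (x, false) = some j then 1 else 0) +
        (if l1 (x, !g) = some j then 1 else 0) := by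
    intro j
    have h3 := RDF_fd (Option.map φ) hφi l (some j.1)
    rw [h2 j.1 j.2] at h3
    simp only [Option.map_some, hφ2] at h3
    have h4 := RDF_fe e (fun a => Option.map φ (l a))
      (ll l1 x g (Option.map some) (some none)) hl (some (some j))
    rw [h3] at h4
    rw [h4]
    have h5 := hC (some j)
    unfold fd
    simp only [Option.map_some] at h5
    rw [h5]
  have hpos : ∀ j : {i : G // i ≠ i1}, 1 ≤ fd l1 (some j) := by
    intro j
    obtain ⟨a, ha⟩ := hM1.2.1.1 (some j)
    have : Nonempty {a : P1 × Bool // l1 a = some j} := ⟨⟨a, ha⟩⟩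
    exact Nat.card_pos
  have hnone : l1 (x, !g) = none := by
    by_contra hne
    obtain ⟨j, hj⟩ := Option.ne_none_iff_exists'.1 hne
    have h3 := hD j
    have h4 := hpos j
    rw [if_pos hj] at h3
    cases g
    · have hj' : l1 (x, true) = some j := hj
      rw [if_pos hj'] at h3
      omega
    · have hj' : l1 (x, false) = some j := hj
      rw [if_pos hj'] at h3
      omega
  have hcol := hCOL P1 (Option {i : G // i ≠ i1}) c1 t1 s1 l1 hM1.1 hM1.2.1
    (by rw [Fintype.card_option]; have := hM1.2.2; omega) x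
  have hne : l1 (x, g) ≠ none := by
    intro h
    cases g
    · have hj' : l1 (x, true) = none := hnone
      exact hcol (hj'.trans h.symm)
    · have hj' : l1 (x, false) = none := hnone
      exact hcol (h.trans hj'.symm)
  obtain ⟨j, hj⟩ := Option.ne_none_iff_exists'.1 hne
  have hval : ∀ i : {i : G // i ≠ i1}, 2 = fd l1 (some i) + (if l1 (x, g) = some i then 1 else 0) := by
    intro i
    have h3 := hD i
    rw [hnone] at h3
    cases g
    · have hj' : l1 (x, true) = none := hnone
      rw [hj'] at h3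
      simpa using h3
    · have hj' : l1 (x, false) = none := hnone
      rw [hj'] at h3
      simpa using h3
  refine ⟨P1, iP1, c1, t1, s1, l1, x, g, j, hM1, ?_, ?_, hj, hnone⟩
  · have h3 := hval j
    rw [if_pos hj] at h3
    omega
  · intro i hi
    have h3 := hval i
    rw [if_neg (by rw [hj]; intro h; exact hi (Option.some.inj h).symm)] at h3
    omega

theorem p_NAy (hDEL : S_DEL) (hCNT : S_CNT) (hCOL : S_COL) (hONEF : S_ONEF) : S_NA := by
  intro n
  induction n with
  | zero =>
    intro G P _ _ c t s l i1 h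
    omega
  | succ n ih =>
    intro G P _ _ c t s l i1 hn hG hM h1 h2
    obtain ⟨P1, iP1, c1, t1, s1, l1, x, g, j, hM1, hj, hi, hx, hx'⟩ :=
      NAy_main hDEL hCNT hCOL G P c t s l i1 (by omega) hM h1 h2
    have hcard : Fintype.card {i : G // i ≠ i1} = n := by
      have h := Fintype.card_congr (Equiv.optionSubtypeNe i1)
      rw [Fintype.card_option] at h
      omega
    by_cases hn3 : 3 ≤ n
    · exact ih _ P1 c1 t1 s1 l1 j hn3 hcard hM1 hj hi
    · have hn2 : n = 2 := by omega
      have hP : Fintype.card P1 = 2 := by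
        have := hM1.2.2
        omega
      have hsum : ∑ o : Option {i : G // i ≠ i1}, fd l1 o = 4 := by
        have h3 : ∑ o : Option {i : G // i ≠ i1}, fd l1 o = Fintype.card (P1 × Bool) := by
          unfold fd
          simp only [Nat.card_eq_fintype_card]
          rw [← Fintype.card_sigma]
          exact Fintype.card_congr (Equiv.sigmaFiberEquiv l1)
        rw [h3, Fintype.card_prod, hP, Fintype.card_bool]
      rw [Fintype.sum_option] at hsum
      have hs3 : ∑ i : {i : G // i ≠ i1}, fd l1 (some i) = 3 := by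
        rw [← Finset.add_sum_erase _ _ (Finset.mem_univ j), hj,
          Finset.sum_congr rfl (fun i hi' => hi i (Finset.ne_of_mem_erase hi')),
          Finset.sum_const, Finset.card_erase_of_mem (Finset.mem_univ j), Finset.card_univ, hcard, hn2]
        rfl
      have hnone : fd l1 none = 1 := by omega
      have hfix : ∀ a : P1 × Bool, fd l1 (l1 a) = 1 → face c1 t1 s1 a = a := by
        intro a ha
        have hl : l1 (face c1 t1 s1 a) = l1 a := ((hM1.2.1.2 a _).2 ⟨1, rfl⟩).symm
        unfold fd at ha
        obtain ⟨hsub, _⟩ := Nat.card_eq_one_iff_unique.1 ha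
        have h3 := hsub.allEq ⟨face c1 t1 s1 a, hl⟩ ⟨a, rfl⟩
        exact congrArg Subtype.val h3
      have f1 := hONEF P1 c1 t1 s1 x g hM1.1 (hfix (x, g) (by rw [hx]; exact hj))
      have f2 := hONEF P1 c1 t1 s1 x (!g) hM1.1 (hfix (x, !g) (by rw [hx']; exact hnone))
      have f3 := f1.2.symm.trans f2.2
      cases g <;> simp at f3

end Pool.SN
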