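import Pool.Agent.Work.MP_a9cb80_sn.Interface2

namespace Pool.SN

theorem p_NEC (hCOL : S_COL) : S_NEC := by
  classical
  intro n d hn hR
  obtain ⟨P, fP, c, t, s, l, hC, hL, hE, hd, -⟩ := hR
  have hE' : Fintype.card P + 2 = 2 * n := by simpa using hE
  have hcol := hCOL P (Option (Fin n)) c t s l hC hL (by
    rw [Fintype.card_option, Fintype.card_fin]; omega)
  let N : Option (Fin n) → ℕ := fun k => (Finset.univ.filter fun a : P × Bool => l a = k).card
  have hN : ∀ i : Fin n, N (some i) = d i := by
    intro i
    rw [← hd i, Nat.card_eq_fintype_card, Fintype.card_subtype]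
  have hpos : ∀ k, 1 ≤ N k := by
    intro k
    obtain ⟨a, ha⟩ := hL.1 k
    exact Finset.card_pos.2 ⟨a, Finset.mem_filter.2 ⟨Finset.mem_univ _, ha⟩⟩
  have hle : ∀ k, N k ≤ Fintype.card P := by
    intro k
    rw [← Finset.card_univ]
    apply Finset.card_le_card_of_injOn Prod.fst (fun _ _ => Finset.mem_coe.2 (Finset.mem_univ _))
    rintro ⟨x, b⟩ ha ⟨x', b'⟩ ha' hxx
    rw [Finset.mem_coe, Finset.mem_filter] at ha ha'
    have hx : x = x' := hxx
    subst hx
    have h1 := ha.2
    have h2 := ha'.2
    cases b <;> cases b'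
    · rfl
    · exact absurd (h2.trans h1.symm) (hcol x)
    · exact absurd (h1.trans h2.symm) (hcol x)
    · rfl
  have hsum : N none + ∑ i, d i = 2 * Fintype.card P := by
    have h := Finset.card_eq_sum_card_fiberwise (s := (Finset.univ : Finset (P × Bool)))
      (f := l) (t := Finset.univ) (fun _ _ => Finset.mem_coe.2 (Finset.mem_univ _))
    rw [Fintype.sum_option, Finset.card_univ, Fintype.card_prod, Fintype.card_bool] at h
    have h2 : ∑ i : Fin n, (Finset.univ.filter fun a : P × Bool => l a = some i).card = ∑ i, d i :=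
      Finset.sum_congr rfl fun i _ => hN i
    rw [h2] at h
    change Fintype.card P * 2 = N none + ∑ i, d i at h
    omega
  have h1 := hpos none
  have h2 := hle none
  refine ⟨fun i => ?_, fun i => ?_, by omega, by omega⟩
  · rw [← hN i]; exact hpos _
  · have := hle (some i)
    rw [hN i] at this
    omega

end Pool.SN
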