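import Pool.Agent.Work.MP_a9cb80_sn.Interface3

namespace Pool.SN

theorem ONE_mono {G : Type} [Fintype G] {d : G → ℕ} {good good' : Set G} (h : St G d good)
    (hg : good' ⊆ good) : St G d good' := by
  obtain ⟨P, hP, c, t, s, l, h1, h2, h3, h4, h5⟩ := h
  exact ⟨P, hP, c, t, s, l, h1, h2, h3, h4, fun i hi => h5 i (hg hi)⟩

theorem p_ONE (hISO : S_ISO) (hFIN : S_FIN) (hNEC : S_NEC) (hCIR : S_CIR) : S_ONE := by
  intro n d j hn hd
  have hsum : ∑ i, d i = d j + (n - 1) := by
    rw [← Finset.add_sum_erase Finset.univ d (Finset.mem_univ j)]
    congr 1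
    rw [Finset.sum_congr rfl (fun i hi => hd i (Finset.ne_of_mem_erase hi))]
    rw [Finset.sum_const, Finset.card_erase_of_mem (Finset.mem_univ j), Finset.card_fin]
    simp
  constructor
  · intro h
    obtain ⟨h1, h2, h3, h4⟩ := hNEC n d hn h
    refine ⟨?_, h2 j⟩
    rw [hsum] at h3
    omega
  · rintro ⟨h1, h2⟩
    rcases Nat.lt_or_ge (d j + 2) (2 * n) with h3 | h3
    · have hc1 : n - 1 ≤ (Finset.univ.filter fun i => d i = 1).card := by
        have : Finset.univ.erase j ⊆ Finset.univ.filter fun i => d i = 1 := by
          intro i hi
          exact Finset.mem_filter.2 ⟨Finset.mem_univ _, hd i (Finset.ne_of_mem_erase hi)⟩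
        have := Finset.card_le_card this
        rwa [Finset.card_erase_of_mem (Finset.mem_univ j), Finset.card_fin] at this
      have hc2 : n - 1 ≤ (Finset.univ.filter fun i => Odd (d i)).card := by
        have : Finset.univ.erase j ⊆ Finset.univ.filter fun i => Odd (d i) := by
          intro i hi
          refine Finset.mem_filter.2 ⟨Finset.mem_univ _, ?_⟩
          rw [hd i (Finset.ne_of_mem_erase hi)]
          exact odd_one
        have := Finset.card_le_card this
        rwa [Finset.card_erase_of_mem (Finset.mem_univ j), Finset.card_fin] at this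
      refine hFIN n d hn ?_ ?_ ?_ ?_
      · intro i
        by_cases hij : i = j
        · subst hij; omega
        · rw [hd i hij]
      · rw [hsum]; omega
      · rw [hsum]; omega
      · rw [hsum]; omega
    · obtain ⟨m, rfl⟩ : ∃ m, n = m + 2 := ⟨n - 2, by omega⟩
      have h := hISO _ (Fin (m + 2)) (finSuccEquiv' j) _ _ (hCIR m)
      have h' := ONE_mono h (Set.empty_subset _)
      have he : (fun k => (match finSuccEquiv' j k with | none => 2 * (m + 1) | some _ => 1)) = d := by
        funext k
        by_cases hk : k = j
        · subst hk
          rw [finSuccEquiv'_at]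
          simp only
          omega
        · have hne : finSuccEquiv' j k ≠ none := by
            intro h0
            apply hk
            apply (finSuccEquiv' j).injective
            rw [h0, finSuccEquiv'_at]
          rw [hd k hk]
          cases hh : finSuccEquiv' j k with
          | none => exact absurd hh hne
          | some y => rfl
      rw [← he]
      exact h'

end Pool.SN
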