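import Pool.Agent.Work.MP_a9cb80_sn.Interface

/-! Block OPA (helper9): a curl into the unbounded face. -/

namespace Pool.SN

theorem OPA_o_inj {G : Type} : Function.Injective
    (Option.map (some : G → Option G) : Option G → Option (Option G)) := by
  intro a b h
  cases a <;> cases b <;> simp_all

theorem p_OPA (hCUR : S_CUR) (hLAB : S_LAB) (hCNT : S_CNT) : S_OPA := by
  classical
  intro G _ _ d good i hSt hi
  obtain ⟨P, hP, c, t, s, l, hC, hL, hcard, hdeg, hgood⟩ := hSt
  obtain ⟨x, b, hxb, hxn⟩ := hgood i hi
  have hw : ∀ y : Option G, Option.map (some : G → Option G) y ≠ some none := by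
    intro y
    cases y <;> simp
  have hm : ∀ m : Option (Option G), m = some none ∨
      ∃ y : Option G, m = Option.map (some : G → Option G) y := by
    intro m
    rcases m with _ | _ | j
    · exact Or.inr ⟨none, rfl⟩
    · exact Or.inl rfl
    · exact Or.inr ⟨some j, rfl⟩
  obtain ⟨hc1, hc2⟩ := hCNT P (Option G) (Option (Option G)) l x b
    (Option.map (some : G → Option G)) (some none) OPA_o_inj hw
  refine ⟨P ⊕ Bool, inferInstance, cc c x, tt t, ss s b,
    ll l x b (Option.map (some : G → Option G)) (some none),
    hCUR P c t s x b hC,
    hLAB P (Option G) (Option (Option G)) c t s l x b _ _ hC hL OPA_o_inj hw hm, ?_, ?_, ?_⟩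
  · rw [Fintype.card_sum, Fintype.card_bool, Fintype.card_option]
    omega
  · intro k
    rcases k with _ | j
    · exact hc1
    · have h1 := hc2 (some j)
      have h2 : Nat.card {a : (P ⊕ Bool) × Bool //
          ll l x b (Option.map (some : G → Option G)) (some none) a = some (some j)} =
          Nat.card {a : P × Bool // l a = some j} + (if l (x, true) = some j then 1 else 0) +
          (if l (x, false) = some j then 1 else 0) + (if l (x, !b) = some j then 1 else 0) := h1
      rw [h2, hdeg j]
      have e1 : (i = j) ↔ (j = i) := eq_comm
      cases b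
      · simp only [Bool.not_false] at hxn ⊢
        rw [hxb, hxn]
        simp [e1]
      · simp only [Bool.not_true] at hxn ⊢
        rw [hxb, hxn]
        simp [e1]
  · intro k hk
    rcases k with _ | j
    · refine ⟨Sum.inr false, !b, ?_, ?_⟩
      · cases b <;> simp [ll]
      · cases b <;> simp_all [ll]
    · rcases hk with hk | hk
      · simp at hk
      · obtain ⟨j', hj', hjj⟩ := hk
        have hj : j' = j := by simpa using hjj
        subst hj
        obtain ⟨y, b', h1, h2⟩ := hgood j' hj'
        refine ⟨Sum.inl y, b', ?_, ?_⟩
        · simp [ll, h1]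
        · simp [ll, h2]

end Pool.SN
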