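import Pool.Agent.Work.MP_a9cb80_sn.Interface

/-! Block OPB (helper34): a curl into an inner face. -/

namespace Pool.SN

theorem OPB_o_inj {G : Type} : Function.Injective
    (Option.map (some : G → Option G) : Option G → Option (Option G)) := by
  intro a b h
  cases a <;> cases b <;> simp_all

theorem p_OPB (hCUR : S_CUR) (hLAB : S_LAB) (hCNT : S_CNT) : S_OPB := by
  classical
  intro G _ _ d good i hSt hi
  obtain ⟨P, hP, c, t, s, l, hC, hL, hcard, hdeg, hgood⟩ := hSt
  obtain ⟨x, b, hxb, hxn⟩ := hgood i hi
  have hw : ∀ y : Option G, Option.map (some : G → Option G) y ≠ some none := by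
    intro y
    cases y <;> simp
  have hm : ∀ m : Option (Option G), m = some none ∨
      ∃ y : Option G, m = Option.map (some : G → Option G) y := by
    intro m
    rcases m with _ | _ | j
    · exact Or.inr ⟨none, rfl⟩
    · exact Or.inl rfl
    · exact Or.inr ⟨some j, rfl⟩
  obtain ⟨hc1, hc2⟩ := hCNT P (Option G) (Option (Option G)) l x (!b)
    (Option.map (some : G → Option G)) (some none) OPB_o_inj hw
  refine ⟨P ⊕ Bool, inferInstance, cc c x, tt t, ss s (!b),
    ll l x (!b) (Option.map (some : G → Option G)) (some none),
    hCUR P c t s x (!b) hC,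
    hLAB P (Option G) (Option (Option G)) c t s l x (!b) _ _ hC hL OPB_o_inj hw hm, ?_, ?_, ?_⟩
  · rw [Fintype.card_sum, Fintype.card_bool, Fintype.card_option]
    omega
  · intro k
    rcases k with _ | j
    · exact hc1
    · have h1 := hc2 (some j)
      have h2 : Nat.card {a : (P ⊕ Bool) × Bool //
          ll l x (!b) (Option.map (some : G → Option G)) (some none) a = some (some j)} =
          Nat.card {a : P × Bool // l a = some j} + (if l (x, true) = some j then 1 else 0) +
          (if l (x, false) = some j then 1 else 0) + (if l (x, !(!b)) = some j then 1 else 0) := h1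
      rw [h2, hdeg j]
      have e1 : (i = j) ↔ (j = i) := eq_comm
      by_cases hij : j = i
      · subst hij
        cases b
        · simp only [Bool.not_false] at hxn ⊢
          simp [hxb, hxn]
        · simp only [Bool.not_true] at hxn ⊢
          simp [hxb, hxn]
      · have hji : ¬ i = j := fun h => hij h.symm
        cases b
        · simp only [Bool.not_false] at hxn ⊢
          simp [hxb, hxn, hij, hji]
        · simp only [Bool.not_true] at hxn ⊢
          simp [hxb, hxn, hij, hji]
  · intro k hk
    obtain ⟨j, hj, hjj⟩ := hk
    subst hjj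
    obtain ⟨y, b', h1, h2⟩ := hgood j hj
    refine ⟨Sum.inl y, b', ?_, ?_⟩
    · simp [ll, h1]
    · simp [ll, h2]

end Pool.SN
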