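import Pool.Agent.Work.MP_a9cb80_sn.Interface

/-! Block ORB (second copy). -/

namespace Pool.SN

theorem p_ORB : S_ORB := by
  intro A B L M _ f h pi e l o w hf ho how hpe hreach hexit hnone hn hst hl b b'
  have tr : ∀ x y z : B, (∃ k : ℕ, h^[k] x = y) → (∃ k : ℕ, h^[k] y = z) → ∃ k : ℕ, h^[k] x = z := by
    rintro x y z ⟨k, rfl⟩ ⟨m, rfl⟩
    exact ⟨m + k, Function.iterate_add_apply h m k x⟩
  constructor
  · intro hlab
    rcases hb : pi b with _ | a <;> rcases hb' : pi b' with _ | a' <;> rw [hb, hb'] at hlab
    · exact ⟨0, hnone b b' hb hb'⟩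
    · exact absurd hlab.symm (how _)
    · exact absurd hlab (how _)
    · have h1 : l a = l a' := ho hlab
      obtain ⟨k, hk⟩ := (hl a a').1 h1
      obtain ⟨m, hm, hma⟩ := hf.mem_periodicPts a
      have h2 : ∀ i : ℕ, ∃ j : ℕ, h^[j] b = e (f^[i + 1] a) := by
        intro i
        induction i with
        | zero => exact hexit a b hb
        | succ i ih =>
          refine tr _ _ _ ih ?_
          have h3 := hexit (f^[i + 1] a) (e (f^[i + 1] a)) (hpe _)
          rw [← Function.iterate_succ_apply' f (i + 1) a] at h3
          exact h3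
      have h4 : f^[k + m - 1 + 1] a = a' := by
        rw [Nat.sub_add_cancel (by omega), Function.iterate_add_apply]
        rw [show f^[m] a = a from hma]
        exact hk
      have h5 := h2 (k + m - 1)
      rw [h4] at h5
      exact tr _ _ _ h5 (hreach a' b' hb')
  · rintro ⟨k, rfl⟩
    induction k with
    | zero => rfl
    | succ k ih =>
      rw [ih, Function.iterate_succ_apply']
      generalize h^[k] b = x
      rcases hx : pi x with _ | a
      · rw [hn x hx]
      · rcases hst x a hx with h1 | h1 <;> rw [h1]
        have : l a = l (f a) := (hl a (f a)).2 ⟨1, rfl⟩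
        simp only [this]

end Pool.SN
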