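import Pool.Agent.Work.MP_a9cb80_sn.Interface

set_option autoImplicit false

namespace Pool.SN

/-- one more element -/
def PH2_eq (G : Type) (t : ℕ) : (G ⊕ Fin (t + 1)) ≃ Option (G ⊕ Fin t) where
  toFun := Sum.elim (fun g => some (Sum.inl g)) (fun j => (finSuccEquiv t j).map Sum.inr)
  invFun := fun o => match o with
    | none => Sum.inr 0
    | some (Sum.inl g) => Sum.inl g
    | some (Sum.inr j) => Sum.inr j.succ
  left_inv := by
    rintro (g | j)
    · rfl
    · refine Fin.cases ?_ (fun j => ?_) j
      · simp [finSuccEquiv_zero]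
      · simp [finSuccEquiv_succ]
  right_inv := by
    rintro (_ | g | j)
    · simp [finSuccEquiv_zero]
    · rfl
    · simp [finSuccEquiv_succ]

theorem PH2_aux (hISO : S_ISO) (hOPB : S_OPB) (G : Type) [Fintype G] (e : G → ℕ)
    (he : St G e Set.univ) : ∀ (t : ℕ) (b : G → ℕ), ∑ k, b k = t →
      St (G ⊕ Fin t) (Sum.elim (fun k => e k + 2 * b k) (fun _ => 1)) (Set.range Sum.inl) := by
  classical
  intro t
  induction t with
  | zero =>
    intro b hb
    have hb0 : ∀ k, b k = 0 := by
      intro k
      have := Finset.sum_eq_zero_iff.1 hb k (Finset.mem_univ k)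
      exact this
    have h := hISO G (G ⊕ Fin 0) (Equiv.sumEmpty G (Fin 0)) e Set.univ he
    have e1 : (fun k => e ((Equiv.sumEmpty G (Fin 0)) k)) =
        (Sum.elim (fun k => e k + 2 * b k) (fun _ => 1) : G ⊕ Fin 0 → ℕ) := by
      funext k
      rcases k with g | j
      · simp [hb0 g]
      · exact j.elim0
    have e2 : (Equiv.sumEmpty G (Fin 0)) ⁻¹' (Set.univ : Set G) =
        (Set.range Sum.inl : Set (G ⊕ Fin 0)) := by
      ext k
      rcases k with g | j
      · simp
      · exact j.elim0
    rw [e1, e2] at h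
    exact h
  | succ t ih =>
    intro b hb
    obtain ⟨i, -, hi⟩ : ∃ i ∈ (Finset.univ : Finset G), b i ≠ 0 := by
      apply Finset.exists_ne_zero_of_sum_ne_zero
      rw [hb]
      omega
    set b' : G → ℕ := Function.update b i (b i - 1) with hb'
    have hb'i : b' i = b i - 1 := Function.update_self _ _ _
    have hb'n : ∀ k, k ≠ i → b' k = b k := fun k hk => Function.update_of_ne hk _ _
    have hsum : ∑ k, b' k = t := by
      have h1 := Finset.sum_erase_add Finset.univ b (Finset.mem_univ i)
      have h2 := Finset.sum_erase_add Finset.univ b' (Finset.mem_univ i)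
      have h3 : ∑ k ∈ Finset.univ.erase i, b' k = ∑ k ∈ Finset.univ.erase i, b k :=
        Finset.sum_congr rfl fun k hk => hb'n k (Finset.ne_of_mem_erase hk)
      omega
    have h := hOPB (G ⊕ Fin t) _ _ (Sum.inl i) (ih b' hsum) ⟨i, rfl⟩
    have h' := hISO _ (G ⊕ Fin (t + 1)) (PH2_eq G t) _ _ h
    refine cast ?_ h'
    congr 1
    · funext k
      rcases k with g | j
      · change (e g + 2 * b' g) + (if (Sum.inl g : G ⊕ Fin t) = Sum.inl i then 2 else 0) =
          e g + 2 * b g
        by_cases hg : g = i
        · rw [if_pos (by rw [hg]), hg, hb'i]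
          omega
        · rw [if_neg (fun h => hg (Sum.inl_injective h)), hb'n g hg, add_zero]
      · refine Fin.cases ?_ (fun j => ?_) j
        · simp [PH2_eq, finSuccEquiv_zero]
        · simp [PH2_eq, finSuccEquiv_succ]
    · ext k
      rcases k with g | j
      · simp [PH2_eq]
      · refine Fin.cases ?_ (fun j => ?_) j
        · simp [PH2_eq, finSuccEquiv_zero]
        · simp [PH2_eq, finSuccEquiv_succ]

theorem p_PH2 (hISO : S_ISO) (hOPB : S_OPB) : S_PH2 := by
  intro G _ e b he
  exact PH2_aux hISO hOPB G e he _ b rfl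

end Pool.SN
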