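import Pool.Agent.Work.MP_a9cb80_sn.Interface4

set_option autoImplicit false

namespace Pool.SN

open scoped Classical
open Finset

namespace REDx

theorem lab_comp {P L L' : Type} (c t : Equiv.Perm P) (s : P → Bool) (l : P × Bool → L)
    (e : L ≃ L') (h : IsLab c t s l) : IsLab c t s (fun a => e (l a)) :=
  ⟨e.surjective.comp h.1, fun a b => by rw [← h.2]; exact e.injective.eq_iff⟩

theorem fd_comp {P L L' : Type} (l : P × Bool → L) (e : L ≃ L') (i : L') :
    fd (fun a => e (l a)) i = fd l (e.symm i) :=
  Nat.card_congr (Equiv.subtypeEquivRight fun a => by rw [Equiv.apply_eq_iff_eq_symm_apply])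

/-- the type of a side -/
def ty {P L : Type} (l : P × Bool → L) (a : P × Bool) : L × L := (l a, l (a.1, !a.2))

/-- weights -/
noncomputable def WW {r : ℕ} (i : Fin r) (q : Option (Fin r) × Option (Fin r)) : ℕ :=
  (if q.1 = some i then 2 else 0) + (if q.2 = some i then 1 else 0)

theorem wt_eq {r : ℕ} {P : Type} (l : P × Bool → Option (Fin r)) (y : P × Bool) (i : Fin r) :
    wt l y (some i) = WW i (ty l y) := by
  unfold wt WW ty
  congr

end REDx

open REDx in
theorem p_RED (hRDF : S_RDF) (hRDB : S_RDB) : S_RED := by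
  intro r k E hr
  have hcard : Fintype.card (Fin r ⊕ Fin k) = r + k := by
    rw [Fintype.card_sum, Fintype.card_fin, Fintype.card_fin]
  have hsys : ∀ (m : Option (Fin r) × Option (Fin r) → ℕ) (i : Fin r),
      ∑ q, m q * ((if q.1 = some i then 2 else 0) + (if q.2 = some i then 1 else 0)) =
        ∑ q, m q * WW i q := by
    intro m i
    refine Finset.sum_congr rfl fun q _ => ?_
    unfold WW
    congr
  constructor
  · rintro ⟨P, hP, c, t, s, l, h1, h2, h3, h4⟩
    let e : Option (Fin (r + k)) ≃ Option (Fin r ⊕ Fin k) :=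
      (Equiv.optionCongr finSumFinEquiv).symm
    have hfd : ∀ g : Fin r ⊕ Fin k, fd (fun a => e (l a)) (some g) =
        Fin.append E (fun _ : Fin k => 1) (finSumFinEquiv g) := by
      intro g
      rw [fd_comp, ← h4]
      rfl
    obtain ⟨P0, hP0, c0, t0, s0, l0, a, hM, ha, hdeg, -⟩ := hRDF k (Fin r) (Fin k) P c t s
      (fun a => e (l a)) (Fintype.card_fin k) (by rw [Fintype.card_fin]; exact hr)
      ⟨h1, lab_comp c t s l e h2, by rw [hcard]; exact h3⟩ (fun q => by
        rw [hfd, finSumFinEquiv_apply_right, Fin.append_right])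
    refine ⟨fun i => fd l0 (some i), Finset.univ.filter (fun q => ∃ y : P0 × Bool, q = ty l0 y),
      ⟨P0, hP0, c0, t0, s0, l0, hM, fun i => rfl, fun q => ?_⟩, ?_⟩
    · rw [Finset.mem_filter]
      exact ⟨fun h => h.2, fun h => ⟨Finset.mem_univ _, h⟩⟩
    · refine ⟨fun q => ∑ y ∈ Finset.univ.filter (fun y => ty l0 y = q), a y, ?_, ?_, ?_⟩
      · intro q hq
        refine Finset.sum_eq_zero fun y hy => ?_
        exfalso
        exact hq (Finset.mem_filter.2 ⟨Finset.mem_univ _, y, (Finset.mem_filter.1 hy).2.symm⟩)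
      · rw [Finset.sum_fiberwise]
        exact ha
      · intro i
        rw [hsys]
        have h5 := hdeg i
        rw [hfd, finSumFinEquiv_apply_left, Fin.append_left] at h5
        rw [h5]
        congr 1
        rw [← Finset.sum_fiberwise Finset.univ (ty l0) (fun y => a y * wt l0 y (some i))]
        refine Finset.sum_congr rfl fun q _ => ?_
        rw [Finset.sum_mul]
        refine Finset.sum_congr rfl fun y hy => ?_
        rw [wt_eq, (Finset.mem_filter.1 hy).2]
  · rintro ⟨v, T, ⟨P0, hP0, c0, t0, s0, l0, hM, hv, hT⟩, m, hm0, hmk, hE⟩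
    have hsel : ∀ q : Option (Fin r) × Option (Fin r), ∃ y : P0 × Bool, q ∈ T → ty l0 y = q := by
      intro q
      by_cases hq : q ∈ T
      · obtain ⟨y, hy⟩ := (hT q).1 hq
        exact ⟨y, fun _ => hy.symm⟩
      · have : Nonempty (P0 × Bool) := by
          obtain ⟨y, -⟩ := hM.2.1.1 none
          exact ⟨y⟩
        exact ⟨this.some, fun h => absurd h hq⟩
    choose ys hys using hsel
    let a : P0 × Bool → ℕ := fun y => if y = ys (ty l0 y) then m (ty l0 y) else 0
    have key : ∀ F : Option (Fin r) × Option (Fin r) → ℕ,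
        ∑ y, a y * F (ty l0 y) = ∑ q, m q * F q := by
      intro F
      rw [← Finset.sum_fiberwise Finset.univ (ty l0) (fun y => a y * F (ty l0 y))]
      refine Finset.sum_congr rfl fun q _ => ?_
      by_cases hq : q ∈ T
      · rw [Finset.sum_eq_single (ys q)]
        · simp only [a]
          rw [hys q hq, if_pos rfl]
        · intro y hy hne
          have hy' : ty l0 y = q := (Finset.mem_filter.1 hy).2
          simp only [a]
          rw [hy', if_neg hne, zero_mul]
        · intro h
          exact (h (Finset.mem_filter.2 ⟨Finset.mem_univ _, hys q hq⟩)).elim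
      · rw [hm0 q hq, zero_mul]
        refine Finset.sum_eq_zero fun y hy => ?_
        exact absurd ((hT q).2 ⟨y, (Finset.mem_filter.1 hy).2.symm⟩) hq
    have hak : ∑ y, a y = k := by
      have h := key (fun _ => 1)
      simp only [mul_one] at h
      rw [h]
      exact hmk
    obtain ⟨P, hP, c, t, s, l, -, hMp, h1, hdeg, -⟩ := hRDB k (Fin r) P0 c0 t0 s0 l0 a hM hak
    let e : Option (Fin r ⊕ Fin k) ≃ Option (Fin (r + k)) := Equiv.optionCongr finSumFinEquiv
    refine ⟨P, hP, c, t, s, fun a => e (l a), hMp.1, lab_comp c t s l e hMp.2.1, ?_, ?_⟩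
    · rw [← hcard]
      exact hMp.2.2
    · have hfd : ∀ g : Fin r ⊕ Fin k, fd (fun a => e (l a)) (some (finSumFinEquiv g)) =
          fd l (some g) := by
        intro g
        rw [fd_comp]
        congr 1
        rw [Equiv.symm_apply_eq]
        rfl
      intro i
      change fd (fun a => e (l a)) (some i) = _
      obtain ⟨g, rfl⟩ := finSumFinEquiv.surjective i
      rw [hfd]
      rcases g with g | g
      · rw [finSumFinEquiv_apply_left, Fin.append_left, hE, hdeg, hv, hsys, ← key]
        congr 1
        refine Finset.sum_congr rfl fun y _ => ?_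
        rw [wt_eq]
      · rw [finSumFinEquiv_apply_right, Fin.append_right, h1]

end Pool.SN
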