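import Pool.Agent.Work.MP_a9cb80_sn.Interface2

/-!
MP_a9cb80_lc, block RKA: the rank of the boundary map.
-/

namespace Pool.SN

theorem RKA_add {a b : ZMod 2} (h : a + b = 0) : a = b := by
  revert a b
  decide

theorem p_RKA (hDUAL : S_DUAL) : S_RKA := by
  intro P L _ _ c t s l hc hl
  obtain ⟨hs, hf⟩ := hl
  have hface : ∀ a, l (face c t s a) = l a := fun a => ((hf a _).mpr ⟨1, rfl⟩).symm
  have hconst : ∀ u : L → ZMod 2, u ∈ LinearMap.ker (bA l) → ∀ i j, u i = u j := by
    intro u hu i j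
    obtain ⟨a, rfl⟩ := hs i
    obtain ⟨b, rfl⟩ := hs j
    refine hDUAL P (ZMod 2) c t s (fun a => u (l a)) hc (fun a => by rw [hface]) ?_ a b
    intro x b
    have h1 : u (l (x, true)) + u (l (x, false)) = 0 := congr_fun (LinearMap.mem_ker.mp hu) x
    have h2 := RKA_add h1
    cases b
    · exact h2
    · exact h2.symm
  have h1 : (fun _ : L => (1 : ZMod 2)) ∈ LinearMap.ker (bA l) := by
    rw [LinearMap.mem_ker]
    funext x
    show (1 : ZMod 2) + 1 = 0
    decide
  have hker : Module.finrank (ZMod 2) (LinearMap.ker (bA l)) ≤ 1 := by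
    refine finrank_le_one (⟨_, h1⟩ : LinearMap.ker (bA l)) fun w => ?_
    rcases isEmpty_or_nonempty L with he | ⟨⟨i⟩⟩
    · exact ⟨0, Subtype.ext (funext fun j => he.elim j)⟩
    · refine ⟨(w : L → ZMod 2) i, Subtype.ext (funext fun j => ?_)⟩
      show (w : L → ZMod 2) i * 1 = (w : L → ZMod 2) j
      rw [mul_one]
      exact hconst _ w.2 i j
  have h2 := LinearMap.finrank_range_add_finrank_ker (bA l)
  rw [Module.finrank_fintype_fun_eq_card] at h2
  omega

end Pool.SN
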