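import Pool.Agent.Work.MP_a9cb80_sn.Interface2

set_option autoImplicit false

namespace Pool.SN

/-- sum over the two passages of a crossing -/
def RKB_th {P : Type} (t : Equiv.Perm P) : (P → ZMod 2) →ₗ[ZMod 2] (P → ZMod 2) where
  toFun w x := w x + w (t x)
  map_add' u v := by funext x; simp only [Pi.add_apply]; ring
  map_smul' r u := by funext x; simp only [Pi.smul_apply, smul_eq_mul, RingHom.id_apply]; ring

theorem RKB_two (a : ZMod 2) : a + a = 0 := by
  revert a
  decide

theorem RKB_single {P : Type} [DecidableEq P] (c t : Equiv.Perm P) (x : P) :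
    bB c t (Pi.single x 1) = RKB_th t (Pi.single x 1) + RKB_th t (Pi.single (c x) 1) := by
  funext z
  change (Pi.single x (1 : ZMod 2) : P → ZMod 2) z + (Pi.single x (1 : ZMod 2) : P → ZMod 2) (c.symm z) +
      (Pi.single x (1 : ZMod 2) : P → ZMod 2) (t z) + (Pi.single x (1 : ZMod 2) : P → ZMod 2) (c.symm (t z)) =
    ((Pi.single x (1 : ZMod 2) : P → ZMod 2) z + (Pi.single x (1 : ZMod 2) : P → ZMod 2) (t z)) +
      ((Pi.single (c x) (1 : ZMod 2) : P → ZMod 2) z + (Pi.single (c x) (1 : ZMod 2) : P → ZMod 2) (t z))
  have h : ∀ y : P, (Pi.single x (1 : ZMod 2) : P → ZMod 2) (c.symm y) =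
      (Pi.single (c x) (1 : ZMod 2) : P → ZMod 2) y := by
    intro y
    by_cases hy : y = c x
    · rw [hy, Equiv.symm_apply_apply, Pi.single_eq_same, Pi.single_eq_same]
    · rw [Pi.single_eq_of_ne hy, Pi.single_eq_of_ne]
      intro h'
      exact hy (by rw [← h', Equiv.apply_symm_apply])
  rw [h, h]
  ring

theorem p_RKB : S_RKB := by
  classical
  intro P _ c t s hc
  rcases isEmpty_or_nonempty P with hP | ⟨⟨x0⟩⟩
  · have h1 : Module.finrank (ZMod 2) (LinearMap.ker (bB c t)) ≤ Module.finrank (ZMod 2) (P → ZMod 2) :=
      Submodule.finrank_le _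
    rw [Module.finrank_fintype_fun_eq_card] at h1
    have h0 : Fintype.card P = 0 := Fintype.card_eq_zero
    omega
  · obtain ⟨htr, hts⟩ := hc
    set θ := RKB_th t with hθ
    have hker : LinearMap.ker θ ≤ LinearMap.range θ := by
      intro w hw
      have hw' : ∀ x, w x + w (t x) = 0 := fun x => congrFun (LinearMap.mem_ker.1 hw) x
      refine ⟨fun x => if s x = true then w x else 0, ?_⟩
      funext x
      change (if s x = true then w x else 0) + (if s (t x) = true then w (t x) else 0) = w x
      have hwt : w (t x) = w x := by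
        have h1 := hw' x
        have h2 := RKB_two (w x)
        calc w (t x) = (w x + w x) + w (t x) := by rw [h2, zero_add]
          _ = w x + (w x + w (t x)) := by ring
          _ = w x := by rw [h1, add_zero]
      rw [(hts x).2.2]
      cases hs : s x
      · simp [hwt]
      · simp
    have hr1 := LinearMap.finrank_range_add_finrank_ker θ
    have hr2 := LinearMap.finrank_range_add_finrank_ker (bB c t)
    rw [Module.finrank_fintype_fun_eq_card] at hr1 hr2
    have hmono := Submodule.finrank_mono hker
    set e0 : P → ZMod 2 := θ (Pi.single x0 1) with he0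
    have hmem : ∀ x : P, θ (Pi.single x 1) ∈ LinearMap.range (bB c t) ⊔ Submodule.span (ZMod 2) {e0} := by
      intro x
      obtain ⟨k, rfl⟩ := htr x0 x
      induction k with
      | zero =>
        apply Submodule.mem_sup_right
        exact Submodule.mem_span_singleton_self _
      | succ k ih =>
        have h1 := RKB_single c t ((c ^ k) x0)
        have h2 : (c ^ (k + 1)) x0 = c ((c ^ k) x0) := by
          rw [pow_succ', Equiv.Perm.mul_apply]
        rw [h2]
        have h3 : θ (Pi.single (c ((c ^ k) x0)) 1) =
            bB c t (Pi.single ((c ^ k) x0) 1) + θ (Pi.single ((c ^ k) x0) 1) := by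
          rw [h1]
          funext z
          have := RKB_two (RKB_th t (Pi.single ((c ^ k) x0) 1) z)
          simp only [Pi.add_apply, hθ]
          calc (RKB_th t (Pi.single (c ((c ^ k) x0)) 1)) z
              = (RKB_th t (Pi.single (c ((c ^ k) x0)) 1)) z + 0 := by rw [add_zero]
            _ = _ := by rw [← this]; ring
        rw [h3]
        exact Submodule.add_mem _ (Submodule.mem_sup_left ⟨_, rfl⟩) ih
    have hle : LinearMap.range θ ≤ LinearMap.range (bB c t) ⊔ Submodule.span (ZMod 2) {e0} := by
      rintro _ ⟨w, rfl⟩
      have h1 : w = ∑ x : P, w x • (Pi.single x (1 : ZMod 2) : P → ZMod 2) := by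
        funext z
        rw [Finset.sum_apply, Finset.sum_eq_single z]
        · simp
        · intro y _ hy
          simp [Pi.single_eq_of_ne (Ne.symm hy)]
        · intro h
          exact absurd (Finset.mem_univ z) h
      rw [h1, map_sum]
      refine Submodule.sum_mem _ fun x _ => ?_
      rw [map_smul]
      exact Submodule.smul_mem _ _ (hmem x)
    have h4 := Submodule.finrank_mono hle
    have h5 := Submodule.finrank_add_le_finrank_add_finrank (LinearMap.range (bB c t))
      (Submodule.span (ZMod 2) {e0})
    have h6 : Module.finrank (ZMod 2) (Submodule.span (ZMod 2) ({e0} : Set (P → ZMod 2))) ≤ 1 := by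
      have := finrank_span_le_card (R := ZMod 2) ({e0} : Set (P → ZMod 2))
      simpa using this
    omega

end Pool.SN
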