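import Pool.Agent.Work.MP_a9cb80_sn.Interface2

/-! Block RKB (second copy), without transposes. -/

namespace Pool.SN

/-- first factor of bB -/
def RKB_T {P : Type} (c : Equiv.Perm P) : (P → ZMod 2) →ₗ[ZMod 2] (P → ZMod 2) where
  toFun y x := y x + y (c.symm x)
  map_add' u v := by funext x; simp only [Pi.add_apply]; ring
  map_smul' r u := by funext x; simp only [Pi.smul_apply, smul_eq_mul, RingHom.id_apply]; ring

theorem RKB_comp {V : Type} [AddCommGroup V] [Module (ZMod 2) V] [FiniteDimensional (ZMod 2) V]
    (S T : V →ₗ[ZMod 2] V) :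
    Module.finrank (ZMod 2) (LinearMap.ker (S ∘ₗ T)) ≤
      Module.finrank (ZMod 2) (LinearMap.ker T) + Module.finrank (ZMod 2) (LinearMap.ker S) := by
  let T' : LinearMap.ker (S ∘ₗ T) →ₗ[ZMod 2] LinearMap.ker S :=
    (T.domRestrict (LinearMap.ker (S ∘ₗ T))).codRestrict (LinearMap.ker S) (fun x => x.2)
  have h1 := LinearMap.finrank_range_add_finrank_ker T'
  have h2 : Module.finrank (ZMod 2) (LinearMap.range T') ≤ Module.finrank (ZMod 2) (LinearMap.ker S) :=
    Submodule.finrank_le _
  have h3 : Module.finrank (ZMod 2) (LinearMap.ker T') ≤ Module.finrank (ZMod 2) (LinearMap.ker T) := by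
    let I : LinearMap.ker T' →ₗ[ZMod 2] LinearMap.ker T :=
      ((LinearMap.ker (S ∘ₗ T)).subtype ∘ₗ (LinearMap.ker T').subtype).codRestrict (LinearMap.ker T)
        (fun x => by
          have h4 : T' x.1 = 0 := x.2
          have h5 := congrArg Subtype.val h4
          exact h5)
    apply LinearMap.finrank_le_finrank_of_injective (f := I)
    intro x y h
    have h4 := congrArg Subtype.val h
    exact Subtype.ext (Subtype.ext h4)
  omega

theorem p_RKB : S_RKB := by
  intro P _ c t s hC
  classical
  have hB : bB c t = RKB_T t.symm ∘ₗ RKB_T c := by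
    apply LinearMap.ext
    intro y
    funext x
    show y x + y (c.symm x) + y (t x) + y (c.symm (t x)) =
      (y x + y (c.symm x)) + (y (t x) + y (c.symm (t x)))
    ring
  have h1 := RKB_comp (RKB_T t.symm) (RKB_T c)
  rw [← hB] at h1
  have hT : Module.finrank (ZMod 2) (LinearMap.ker (RKB_T c)) ≤ 1 := by
    have hle : LinearMap.ker (RKB_T c) ≤ Submodule.span (ZMod 2) {(fun _ : P => (1 : ZMod 2))} := by
      intro y hy
      have h2 : ∀ x, y (c.symm x) = y x := by
        intro x
        have h3 : y x + y (c.symm x) = 0 := congrFun hy x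
        have h4 := eq_neg_of_add_eq_zero_right h3
        rw [h4]
        exact CharTwo.neg_eq _
      have h3 : ∀ x, y (c x) = y x := by
        intro x
        have := h2 (c x)
        rw [c.symm_apply_apply] at this
        exact this.symm
      have h4 : ∀ (k : ℕ) x, y ((c ^ k) x) = y x := by
        intro k
        induction k with
        | zero => intro x; rfl
        | succ k ih =>
          intro x
          rw [pow_succ', Equiv.Perm.mul_apply, h3, ih]
      rcases isEmpty_or_nonempty P with hP | ⟨⟨x0⟩⟩
      · have : y = 0 := funext fun x => (hP.false x).elim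
        rw [this]
        exact Submodule.zero_mem _
      · rw [Submodule.mem_span_singleton]
        refine ⟨y x0, ?_⟩
        funext x
        obtain ⟨k, hk⟩ := hC.1 x0 x
        rw [← hk, Pi.smul_apply, smul_eq_mul, mul_one, h4 k x0]
    refine (Submodule.finrank_mono hle).trans ?_
    refine (finrank_span_le_card _).trans ?_
    simp
  have hS : 2 * Module.finrank (ZMod 2) (LinearMap.ker (RKB_T t.symm)) ≤ Fintype.card P := by
    have h2 := LinearMap.finrank_range_add_finrank_ker (RKB_T t.symm)
    rw [Module.finrank_fintype_fun_eq_card] at h2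
    have h3 : LinearMap.ker (RKB_T t.symm) ≤ LinearMap.range (RKB_T t.symm) := by
      intro z hz
      have h4 : ∀ x, z (t x) = z x := by
        intro x
        have h5 : z x + z (t x) = 0 := congrFun hz x
        have h6 := eq_neg_of_add_eq_zero_right h5
        rw [h6]
        exact CharTwo.neg_eq _
      refine ⟨fun x => if s x = true then z x else 0, ?_⟩
      funext x
      show (if s x = true then z x else 0) + (if s (t x) = true then z (t x) else 0) = z x
      rw [(hC.2 x).2.2, h4 x]
      cases s x <;> simp
    have h4 := Submodule.finrank_mono h3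
    omega
  omega

end Pool.SN
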