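import Pool.Agent.Work.MP_a9cb80_sn.Interface5

/-!
# Block T1: the case sum = 2 n - 1
-/

set_option autoImplicit false

namespace Pool.SN

theorem T1_one {n : ℕ} (d : Fin n → ℕ) (h2 : ∀ i, 1 ≤ d i) (hs : ∑ i, d i + 1 = 2 * n) :
    ∃ i, d i = 1 := by
  by_contra hne
  have h6 : ∀ i, 2 ≤ d i := fun i => by
    have h1 := h2 i
    have h3 : d i ≠ 1 := fun h => hne ⟨i, h⟩
    omega
  have h9 : ∑ i : Fin n, 2 ≤ ∑ i, d i := Finset.sum_le_sum fun i _ => h6 i
  rw [Finset.sum_const, Finset.card_univ, Fintype.card_fin, smul_eq_mul] at h9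
  omega

theorem T1_two {n : ℕ} (d : Fin n → ℕ) (h2 : ∀ i, 1 ≤ d i) (hs : ∑ i, d i + 1 = 2 * n)
    (i1 i0 : Fin n) (h1 : d i1 = 1) (h0 : 3 ≤ d i0) : ∃ j, j ≠ i1 ∧ Odd (d j) := by
  classical
  by_contra hne
  have hev : ∀ j, j ≠ i1 → ¬ Odd (d j) := fun j hj ho => hne ⟨j, hj, ho⟩
  have hpt : ∀ i : Fin n, 2 + (if i = i0 then 2 else 0) ≤ d i + (if i = i1 then 1 else 0) := by
    intro i
    by_cases hi : i = i1
    · have hi0 : i ≠ i0 := by
        rintro rfl
        rw [hi] at h0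
        omega
      rw [if_neg hi0, if_pos hi, hi, h1]
    · have h3 := hev i hi
      rw [Nat.not_odd_iff_even] at h3
      obtain ⟨k, hk⟩ := h3
      have h4 := h2 i
      rw [if_neg hi]
      by_cases hi0 : i = i0
      · rw [if_pos hi0]
        have h5 : 3 ≤ d i := by rw [hi0]; exact h0
        omega
      · rw [if_neg hi0]
        omega
  have h := Finset.sum_le_sum (s := Finset.univ) fun i _ => hpt i
  rw [Finset.sum_add_distrib, Finset.sum_add_distrib, Finset.sum_ite_eq', Finset.sum_ite_eq',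
    if_pos (Finset.mem_univ _), if_pos (Finset.mem_univ _), Finset.sum_const, Finset.card_univ,
    Fintype.card_fin, smul_eq_mul] at h
  omega

theorem T1_all {n : ℕ} (d : Fin n → ℕ) (h2 : ∀ i, 1 ≤ d i) (hs : ∑ i, d i + 1 = 2 * n)
    (h3 : ∀ i, d i ≤ 2) : ∃ i1, d i1 = 1 ∧ ∀ i, i ≠ i1 → d i = 2 := by
  classical
  obtain ⟨i1, hi1⟩ := T1_one d h2 hs
  refine ⟨i1, hi1, fun j hj => ?_⟩
  have hsum : ∑ i, (2 - d i) + ∑ i, d i = 2 * n := by
    rw [← Finset.sum_add_distrib]
    have : ∀ i ∈ (Finset.univ : Finset (Fin n)), 2 - d i + d i = 2 := fun i _ => by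
      have := h3 i
      omega
    rw [Finset.sum_congr rfl this, Finset.sum_const, Finset.card_univ, Fintype.card_fin,
      smul_eq_mul, mul_comm]
  have h4 := Finset.add_sum_erase Finset.univ (fun i => 2 - d i) (Finset.mem_univ i1)
  have h5 : 2 - d j ≤ ∑ i ∈ Finset.univ.erase i1, (2 - d i) :=
    Finset.single_le_sum (f := fun i => 2 - d i) (fun _ _ => Nat.zero_le _)
      (Finset.mem_erase.mpr ⟨hj, Finset.mem_univ j⟩)
  have h6 := h3 j
  omega

theorem p_T1 (hNEC : S_NEC) (hFIN : S_FIN) (hONE : S_ONE) (hNA : S_NA) : S_T1 := by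
  intro n d hn hs
  constructor
  · intro h
    have h1 := (hNEC n d hn ((sona_iff n d).1 h)).1
    refine ⟨h1, ?_⟩
    by_contra hcon
    rw [not_or] at hcon
    obtain ⟨hn2, hex⟩ := hcon
    have h3 : ∀ i, d i ≤ 2 := fun i => by
      by_contra hi
      exact hex ⟨i, by omega⟩
    obtain ⟨i1, hi1, hi2⟩ := T1_all d h1 hs h3
    obtain ⟨P, hP, c, t, s, l, hc, hl, hcard, hdeg⟩ := h
    refine hNA n (Fin n) P c t s l i1 (by omega) (Fintype.card_fin n) ⟨hc, hl, ?_⟩ ?_ ?_
    · rw [Fintype.card_fin]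
      exact hcard
    · exact (hdeg i1).trans hi1
    · intro i hi
      exact (hdeg i).trans (hi2 i hi)
  · rintro ⟨h1, h2⟩
    rw [sona_iff]
    rcases h2 with rfl | ⟨i0, hi0⟩
    · rw [Fin.sum_univ_two] at hs
      have h3 := h1 0
      have h4 := h1 1
      rcases Nat.lt_or_ge (d 0) 2 with h5 | h5
      · refine (hONE 2 d 1 le_rfl ?_).2 ⟨by omega, by omega⟩
        intro i hi
        have : i = 0 := by
          apply Fin.ext
          have hlt := i.2
          have hne : (i : ℕ) ≠ 1 := fun h => hi (Fin.ext h)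
          show (i : ℕ) = 0
          omega
        rw [this]
        omega
      · refine (hONE 2 d 0 le_rfl ?_).2 ⟨by omega, by omega⟩
        intro i hi
        have : i = 1 := by
          apply Fin.ext
          have hlt := i.2
          have hne : (i : ℕ) ≠ 0 := fun h => hi (Fin.ext h)
          show (i : ℕ) = 1
          omega
        rw [this]
        omega
    · obtain ⟨i1, hi1⟩ := T1_one d h1 hs
      obtain ⟨j, hj, hodd⟩ := T1_two d h1 hs i1 i0 hi1 hi0
      have e : ∑ i, d i + 2 = 2 * n + 1 := by omega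
      refine hFIN n d hn h1 (by omega) ?_ ?_
      · rw [e]
        exact Nat.add_le_add_left (Finset.card_pos.mpr
          ⟨i1, Finset.mem_filter.mpr ⟨Finset.mem_univ _, hi1⟩⟩) _
      · rw [e]
        exact Nat.add_lt_add_left (Finset.one_lt_card.mpr
          ⟨i1, Finset.mem_filter.mpr ⟨Finset.mem_univ _, by rw [hi1]; exact odd_one⟩, j,
            Finset.mem_filter.mpr ⟨Finset.mem_univ _, hodd⟩, hj.symm⟩) _

end Pool.SN
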