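import Pool.Agent.Work.MP_a9cb80_sn.Interface5

/-!
MP_a9cb80_lc, block T1, second copy.
-/

namespace Pool.SN

open Finset

theorem T1_lr (hNEC : S_NEC) (hNA : S_NA) (n : ℕ) (d : Fin n → ℕ) (hn : 2 ≤ n)
    (hs : ∑ i, d i + 1 = 2 * n) (h : Sona n d) : (∀ i, 1 ≤ d i) ∧ (n = 2 ∨ ∃ i, 3 ≤ d i) := by
  obtain ⟨h1, -, -, -⟩ := hNEC n d hn ((sona_iff n d).1 h)
  refine ⟨h1, ?_⟩
  by_contra hcon
  rw [not_or] at hcon
  obtain ⟨hn2, hd⟩ := hcon
  have hd2 : ∀ i, d i ≤ 2 := fun i => by
    by_contra hi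
    exact hd ⟨i, by omega⟩
  have hsum2 : ∑ _i : Fin n, 2 = 2 * n := by simp [mul_comm]
  have hex : ∃ i1, d i1 = 1 := by
    by_contra hno
    have h2 : ∀ i, 2 ≤ d i := fun i => by
      have h3 := h1 i
      have h4 : d i ≠ 1 := fun h5 => hno ⟨i, h5⟩
      omega
    have h3 : ∑ _i : Fin n, 2 ≤ ∑ i, d i := Finset.sum_le_sum fun i _ => h2 i
    omega
  obtain ⟨i1, hi1⟩ := hex
  have hoth : ∀ i, i ≠ i1 → d i = 2 := by
    intro i2 hi2
    by_contra hne
    have hi2' : d i2 = 1 := by
      have h3 := h1 i2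
      have h4 := hd2 i2
      omega
    have h3 : ∑ i : Fin n, (d i + ((if i = i1 then 1 else 0) + (if i = i2 then 1 else 0))) ≤
        ∑ _i : Fin n, 2 := by
      refine Finset.sum_le_sum fun i _ => ?_
      by_cases ha : i = i1
      · have hb : i ≠ i2 := fun hb => hi2 (by rw [← hb, ha])
        rw [if_pos ha, if_neg hb, ha, hi1]
      · by_cases hb : i = i2
        · rw [if_neg ha, if_pos hb, hb, hi2']
        · rw [if_neg ha, if_neg hb]
          have h4 := hd2 i
          omega
    rw [Finset.sum_add_distrib, Finset.sum_add_distrib, Finset.sum_ite_eq', Finset.sum_ite_eq'] at h3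
    simp only [Finset.mem_univ, if_true] at h3
    omega
  obtain ⟨P, hP, c, t, s, l, ha, hb, hc, he⟩ := h
  exact hNA n (Fin n) P c t s l i1 (by omega) (Fintype.card_fin n)
    ⟨ha, hb, by rw [Fintype.card_fin]; exact hc⟩ ((he i1).trans hi1)
    (fun i hi => (he i).trans (hoth i hi))

theorem T1_rl (hFIN : S_FIN) (hONE : S_ONE) (n : ℕ) (d : Fin n → ℕ) (hn : 2 ≤ n)
    (hs : ∑ i, d i + 1 = 2 * n) (h1 : ∀ i, 1 ≤ d i) (h2 : n = 2 ∨ ∃ i, 3 ≤ d i) : Sona n d := by
  rw [sona_iff]
  have hsum2 : ∑ _i : Fin n, 2 = 2 * n := by simp [mul_comm]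
  have hex : ∃ i1, d i1 = 1 := by
    by_contra hno
    have h2 : ∀ i, 2 ≤ d i := fun i => by
      have h3 := h1 i
      have h4 : d i ≠ 1 := fun h5 => hno ⟨i, h5⟩
      omega
    have h3 : ∑ _i : Fin n, 2 ≤ ∑ i, d i := Finset.sum_le_sum fun i _ => h2 i
    omega
  obtain ⟨i1, hi1⟩ := hex
  rcases h2 with h2 | ⟨i0, hi0⟩
  · subst h2
    rw [Fin.sum_univ_two] at hs
    have ha := h1 0
    have hb := h1 1
    by_cases h3 : d 0 = 1
    · refine (hONE 2 d 1 le_rfl ?_).2 ⟨by omega, by omega⟩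
      intro i hi
      fin_cases i
      · exact h3
      · exact absurd rfl hi
    · refine (hONE 2 d 0 le_rfl ?_).2 ⟨by omega, by omega⟩
      intro i hi
      fin_cases i
      · exact absurd rfl hi
      · show d 1 = 1
        omega
  · have hone : 0 < (Finset.univ.filter fun i => d i = 1).card :=
      Finset.card_pos.2 ⟨i1, Finset.mem_filter.2 ⟨Finset.mem_univ _, hi1⟩⟩
    have hodd : 1 < (Finset.univ.filter fun i => Odd (d i)).card := by
      by_contra hle
      rw [not_lt, Finset.card_le_one] at hle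
      have hev : ∀ i, i ≠ i1 → 2 ≤ d i ∧ d i ≠ 3 := by
        intro i hi
        have h4 : ¬ Odd (d i) := fun ho => hi (hle i (Finset.mem_filter.2 ⟨Finset.mem_univ _, ho⟩)
          i1 (Finset.mem_filter.2 ⟨Finset.mem_univ _, by rw [hi1]; exact odd_one⟩))
        have h5 := h1 i
        constructor
        · by_contra h6
          have h7 : d i = 1 := by omega
          exact h4 (by rw [h7]; exact odd_one)
        · intro h6
          exact h4 (by rw [h6]; exact ⟨1, rfl⟩)
      have hne : i0 ≠ i1 := fun h4 => by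
        rw [h4, hi1] at hi0
        omega
      have h3 : ∑ i : Fin n, (2 + (if i = i0 then 2 else 0)) ≤
          ∑ i : Fin n, (d i + (if i = i1 then 1 else 0)) := by
        refine Finset.sum_le_sum fun i _ => ?_
        by_cases ha : i = i1
        · have hb : i ≠ i0 := fun hb => hne (by rw [← hb, ha])
          rw [if_pos ha, if_neg hb, ha, hi1]
        · by_cases hb : i = i0
          · rw [if_neg ha, if_pos hb, hb]
            have h4 := (hev i0 hne).2
            omega
          · rw [if_neg ha, if_neg hb]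
            have h4 := (hev i ha).1
            omega
      rw [Finset.sum_add_distrib, Finset.sum_add_distrib, Finset.sum_ite_eq',
        Finset.sum_ite_eq'] at h3
      simp only [Finset.mem_univ, if_true] at h3
      omega
    exact hFIN n d hn h1 (by omega) (by omega) (by omega)

theorem p_T1 (hNEC : S_NEC) (hFIN : S_FIN) (hONE : S_ONE) (hNA : S_NA) : S_T1 := by
  intro n d hn hs
  exact ⟨T1_lr hNEC hNA n d hn hs, fun h => T1_rl hFIN hONE n d hn hs h.1 h.2⟩

end Pool.SN
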