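import Pool.Agent.Work.MP_a9cb80_sn.Interface

/-! # MP_a9cb80_lc, block TREE -/

set_option autoImplicit false

namespace Pool.SN

theorem TREE_key (hBASE : S_BASE) (hISO : S_ISO) (hOPA : S_OPA) : ∀ N : ℕ,
    ∀ (G : Type) [Fintype G] (d : G → ℕ), Fintype.card G = N + 2 → (∀ k, 1 ≤ d k) →
      ∑ k, d k + 2 = 2 * Fintype.card G → St G d Set.univ := by
  classical
  intro N
  induction N with
  | zero =>
    intro G _ d hc h1 hs
    have hd : ∀ k, d k = 1 := by
      intro k
      have h2 : ∑ m, d m = ∑ m, ((d m - 1) + 1) := Finset.sum_congr rfl fun m _ => by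
        have := h1 m
        omega
      rw [Finset.sum_add_distrib, Finset.sum_const, Finset.card_univ, smul_eq_mul, mul_one] at h2
      have h3 : d k - 1 ≤ ∑ m, (d m - 1) :=
        Finset.single_le_sum (f := fun m => d m - 1) (fun _ _ => Nat.zero_le _) (Finset.mem_univ k)
      have := h1 k
      omega
    have e : G ≃ Bool := Fintype.equivOfCardEq (by rw [hc, Fintype.card_bool])
    have h := hISO Bool G e (fun _ => 1) Set.univ hBASE
    have hfun : (fun k => (fun _ => 1 : Bool → ℕ) (e k)) = d := by
      funext k
      exact (hd k).symm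
    rw [hfun, Set.preimage_univ] at h
    exact h
  | succ N ih =>
    intro G _ d hc h1 hs
    obtain ⟨j, hj⟩ : ∃ j, d j = 1 := by
      by_contra hcon
      push Not at hcon
      have h2 : ∑ _k : G, 2 ≤ ∑ k, d k := Finset.sum_le_sum fun k _ => by
        have := h1 k
        have := hcon k
        omega
      rw [Finset.sum_const, Finset.card_univ, smul_eq_mul] at h2
      omega
    obtain ⟨i, hi⟩ : ∃ i, 2 ≤ d i := by
      by_contra hcon
      push Not at hcon
      have h2 : ∑ k, d k ≤ ∑ _k : G, 1 := Finset.sum_le_sum fun k _ => by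
        have := hcon k
        omega
      rw [Finset.sum_const, Finset.card_univ, smul_eq_mul] at h2
      omega
    have hij : i ≠ j := by
      rintro rfl
      omega
    let i' : {k : G // k ≠ j} := ⟨i, hij⟩
    let d' : {k : G // k ≠ j} → ℕ := fun k => if k = i' then d i - 1 else d k.1
    have hcard : Fintype.card (Option {k : G // k ≠ j}) = Fintype.card G :=
      Fintype.card_congr (Equiv.optionSubtypeNe j)
    rw [Fintype.card_option] at hcard
    have hsum : ∑ k, d k = 1 + ∑ k : {k : G // k ≠ j}, d k.1 := by
      rw [← (Equiv.optionSubtypeNe j).sum_comp, Fintype.sum_option]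
      simp [hj]
    have hsum2 : ∑ k : {k : G // k ≠ j}, d k.1 = ∑ k, d' k + 1 := by
      have : ∀ k : {k : G // k ≠ j}, d k.1 = d' k + if k = i' then 1 else 0 := by
        intro k
        by_cases hk : k = i'
        · rw [if_pos hk]
          simp only [d', if_pos hk]
          rw [hk]
          change d i = d i - 1 + 1
          omega
        · rw [if_neg hk]
          simp only [d', if_neg hk, add_zero]
      rw [Finset.sum_congr rfl fun k _ => this k, Finset.sum_add_distrib]
      simp
    have hst := ih {k : G // k ≠ j} d' (by omega) (by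
      intro k
      by_cases hk : k = i'
      · simp only [d', if_pos hk]
        omega
      · simp only [d', if_neg hk]
        exact h1 _) (by omega)
    have h2 := hOPA {k : G // k ≠ j} d' Set.univ i' hst (Set.mem_univ _)
    have h3 := hISO _ G (Equiv.optionSubtypeNe j).symm _ _ h2
    have hset : (Equiv.optionSubtypeNe j).symm ⁻¹'
        ({none} ∪ some '' (Set.univ : Set {k : G // k ≠ j})) = Set.univ := by
      apply Set.eq_univ_of_forall
      intro k
      rw [Set.mem_preimage]
      rcases (Equiv.optionSubtypeNe j).symm k with _ | m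
      · exact Or.inl rfl
      · exact Or.inr ⟨m, Set.mem_univ _, rfl⟩
    rw [hset] at h3
    refine (congrArg (fun f => St G f Set.univ) ?_).mp h3
    funext k
    by_cases hk : k = j
    · rw [hk, Equiv.optionSubtypeNe_symm_self]
      exact hj.symm
    · rw [Equiv.optionSubtypeNe_symm_of_ne hk]
      by_cases hk' : (⟨k, hk⟩ : {k : G // k ≠ j}) = i'
      · have hki : k = i := congrArg Subtype.val hk'
        change d' ⟨k, hk⟩ + (if (⟨k, hk⟩ : {k : G // k ≠ j}) = i' then 1 else 0) = d k
        rw [if_pos hk']
        simp only [d', if_pos hk']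
        rw [hki]
        omega
      · change d' ⟨k, hk⟩ + (if (⟨k, hk⟩ : {k : G // k ≠ j}) = i' then 1 else 0) = d k
        rw [if_neg hk']
        simp only [d', if_neg hk', add_zero]

theorem p_TREE (hBASE : S_BASE) (hISO : S_ISO) (hOPA : S_OPA) : S_TREE := by
  intro G _ d hc h1 hs
  exact TREE_key hBASE hISO hOPA (Fintype.card G - 2) G d (by omega) h1 hs

end Pool.SN
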