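import Pool.Agent.Work.MP_a9cb80_sn.Interface

/-! Block TREE (second copy). -/

namespace Pool.SN

theorem TREE_aux (hBASE : S_BASE) (hISO : S_ISO) (hOPA : S_OPA) (n : ℕ) :
    ∀ (G : Type) [Fintype G] (d : G → ℕ), Fintype.card G = n + 2 → (∀ k, 1 ≤ d k) →
      ∑ k, d k + 2 = 2 * Fintype.card G → St G d Set.univ := by
  classical
  induction n with
  | zero =>
    intro G _ d hc hd hs
    have e : G ≃ Bool := Fintype.equivOfCardEq (by rw [hc]; rfl)
    have h1 : ∀ k, d k = 1 := by
      have h2 : ∑ k, (d k - 1) = 0 := by
        have h3 : ∑ k, (d k - 1) + ∑ _k : G, 1 = ∑ k, d k := by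
          rw [← Finset.sum_add_distrib]
          exact Finset.sum_congr rfl fun k _ => Nat.sub_add_cancel (hd k)
        simp at h3
        omega
      intro k
      have h4 := (Finset.sum_eq_zero_iff.1 h2) k (Finset.mem_univ k)
      have := hd k
      omega
    have h5 := hISO Bool G e (fun _ => 1) Set.univ hBASE
    have h6 : d = fun k => 1 := funext h1
    rw [h6]
    rw [Set.preimage_univ] at h5
    exact h5
  | succ n ih =>
    intro G _ d hc hd hs
    have hj : ∃ j, d j = 1 := by
      by_contra hno
      push Not at hno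
      have h1 : ∀ k ∈ (Finset.univ : Finset G), 2 ≤ d k := fun k _ => by
        have := hd k
        have := hno k
        omega
      have h2 : Fintype.card G * 2 ≤ ∑ k, d k := by
        simpa using Finset.card_nsmul_le_sum Finset.univ d 2 h1
      omega
    obtain ⟨j, hj⟩ := hj
    have hi : ∃ i, 2 ≤ d i := by
      by_contra hno
      push Not at hno
      have h1 : ∀ k, d k = 1 := fun k => by
        have := hd k
        have := hno k
        omega
      simp only [h1, Finset.sum_const, Finset.card_univ, smul_eq_mul, mul_one] at hs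
      omega
    obtain ⟨i, hi⟩ := hi
    have hij : i ≠ j := by rintro rfl; omega
    have hcard : Fintype.card {k // k ≠ j} = n + 2 := by
      rw [Fintype.card_subtype_compl, hc]
      simp
    have hsum : ∑ k : {k // k ≠ j}, (d k.1 - if k = ⟨i, hij⟩ then 1 else 0) + 1 + d j = ∑ k, d k := by
      have h1 : ∑ k : {k // k ≠ j}, d k.1 + d j = ∑ k, d k := by
        rw [← Fintype.sum_subtype_add_sum_subtype (fun k => k ≠ j) d]
        congr 1
        have : ∀ x : {x // ¬ x ≠ j}, d x.1 = d j := fun x => by
          rw [not_not.1 x.2]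
        simp [this, Fintype.card_subtype]
      have h2 : ∑ k : {k // k ≠ j}, (d k.1 - if k = ⟨i, hij⟩ then 1 else 0) + 1
          = ∑ k : {k // k ≠ j}, d k.1 := by
        have h3 : ∑ k : {k // k ≠ j}, (d k.1 - if k = ⟨i, hij⟩ then 1 else 0) +
            ∑ k : {k // k ≠ j}, (if k = ⟨i, hij⟩ then 1 else 0) = ∑ k : {k // k ≠ j}, d k.1 := by
          rw [← Finset.sum_add_distrib]
          refine Finset.sum_congr rfl fun k _ => ?_
          have := hd k.1
          split_ifs <;> omega
        simpa using h3
      omega
    have hSt := ih {k // k ≠ j} (fun k => d k.1 - if k = ⟨i, hij⟩ then 1 else 0) hcard (by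
      intro k
      have := hd k.1
      by_cases hk : k = ⟨i, hij⟩
      · subst hk
        simp only [if_true]
        omega
      · simp only [hk, if_false]
        omega) (by rw [hcard]; omega)
    have hO := hOPA {k // k ≠ j} _ Set.univ ⟨i, hij⟩ hSt (Set.mem_univ _)
    have hI := hISO _ G (Equiv.optionSubtypeNe j).symm _ _ hO
    convert hI using 1
    · funext k
      by_cases hk : k = j
      · subst hk
        rw [Equiv.optionSubtypeNe_symm_self]
        exact hj
      · rw [Equiv.optionSubtypeNe_symm_of_ne hk]
        show d k = d k - (if (⟨k, hk⟩ : {k // k ≠ j}) = ⟨i, hij⟩ then 1 else 0) +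
          (if (⟨k, hk⟩ : {k // k ≠ j}) = ⟨i, hij⟩ then 1 else 0)
        have := hd k
        split_ifs <;> omega
    · symm
      rw [Set.eq_univ_iff_forall]
      intro k
      by_cases hk : k = j
      · subst hk
        simp
      · right
        rw [Equiv.optionSubtypeNe_symm_of_ne hk]
        exact ⟨_, Set.mem_univ _, rfl⟩

theorem p_TREE (hBASE : S_BASE) (hISO : S_ISO) (hOPA : S_OPA) : S_TREE := by
  intro G _ d hc hd hs
  obtain ⟨n, hn⟩ := Nat.exists_eq_add_of_le hc
  exact TREE_aux hBASE hISO hOPA n G d (by omega) hd hs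

end Pool.SN
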