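import Pool.Agent.Work.MP_a9cb80_sn.Main3
import Pool.Agent.Work.MP_a9cb80_sn.B_CV
import Pool.Agent.Work.MP_a9cb80_sn.B_CUR
import Pool.Agent.Work.MP_a9cb80_sn.B_FV
import Pool.Agent.Work.MP_a9cb80_sn.B_ORB
import Pool.Agent.Work.MP_a9cb80_sn.B_INJ
import Pool.Agent.Work.MP_a9cb80_sn.B_LABx
import Pool.Agent.Work.MP_a9cb80_sn.B_CNT
import Pool.Agent.Work.MP_a9cb80_sn.B_OPA
import Pool.Agent.Work.MP_a9cb80_sn.B_OPB
import Pool.Agent.Work.MP_a9cb80_sn.B_BASE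
import Pool.Agent.Work.MP_a9cb80_sn.B_ISO
import Pool.Agent.Work.MP_a9cb80_sn.B_TREE
import Pool.Agent.Work.MP_a9cb80_sn.B_PH2
import Pool.Agent.Work.MP_a9cb80_sn.B_ARI
import Pool.Agent.Work.MP_a9cb80_sn.B_FIN
import Pool.Agent.Work.MP_a9cb80_sn.B_DUAL
import Pool.Agent.Work.MP_a9cb80_sn.B_BA0
import Pool.Agent.Work.MP_a9cb80_sn.B_RKA
import Pool.Agent.Work.MP_a9cb80_sn.B_RKB
import Pool.Agent.Work.MP_a9cb80_sn.B_COL
import Pool.Agent.Work.MP_a9cb80_sn.B_NEC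
import Pool.Agent.Work.MP_a9cb80_sn.B_BS2
import Pool.Agent.Work.MP_a9cb80_sn.B_CIR
import Pool.Agent.Work.MP_a9cb80_sn.B_ONE

/-!
The blocks for the range, the necessary conditions and the case of one large face, put together
(MP_a9cb80_lc).
-/

namespace Pool.SN

theorem c_LAB : S_LAB := p_LAB p_ORB p_INJ (p_FV p_CV)

theorem c_OPA : S_OPA := p_OPA (p_CUR p_CV) c_LAB p_CNT

theorem c_OPB : S_OPB := p_OPB (p_CUR p_CV) c_LAB p_CNT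

theorem c_FIN : S_FIN := p_FIN p_ISO (p_TREE p_BASE p_ISO c_OPA) (p_PH2 p_ISO c_OPB) p_ARI

theorem c_COL : S_COL := p_COL p_BA0 (p_RKA p_DUAL) p_RKB

theorem c_NEC : S_NEC := p_NEC c_COL

theorem c_ONE : S_ONE := p_ONE p_ISO c_FIN c_NEC (p_CIR p_BS2 p_ISO c_OPB)

end Pool.SN
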