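import Mathlib

/-!
MP_a9cb80_lc, sona maps by signed Gauss words.  Interface by helper82.

P = the 2 (n-1) passages of the curve through its crossings, in the order of the curve (c = next
passage); t (tau) pairs the two passages through the same crossing; s x = true when the other
strand crosses from right to left as seen from x.  A side is (x, true) = left side of the edge from
x to c x, (x, false) = right side of this edge.  face = next side around the face, keeping the
face on the left: (x, true) is walked forwards and (x, false) is walked backwards, then turn left.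
-/

namespace Pool.SN

/-- Next side around a face. -/
def face {P : Type} (c t : Equiv.Perm P) (s : P → Bool) (a : P × Bool) : P × Bool :=
  if (a.2 == s (if a.2 then c a.1 else a.1)) then (t (if a.2 then c a.1 else a.1), true)
  else (c.symm (t (if a.2 then c a.1 else a.1)), false)

/-- One closed curve: c is one cycle, t pairs the passages, opposite signs at the two passages. -/
def IsCurve {P : Type} (c t : Equiv.Perm P) (s : P → Bool) : Prop :=
  (∀ x y, ∃ k : ℕ, (c ^ k) x = y) ∧ ∀ x, t (t x) = x ∧ t x ≠ x ∧ s (t x) = !(s x)

/-- l labels the sides by the faces: all labels are used, and two sides have the same label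
exactly when they are in the same face. -/
def IsLab {P L : Type} (c t : Equiv.Perm P) (s : P → Bool) (l : P × Bool → L) : Prop :=
  Function.Surjective l ∧ ∀ a b, l a = l b ↔ ∃ k : ℕ, (face c t s)^[k] a = b

/-- St G d good: a sona map with bounded faces G (none is the unbounded face), of degrees d, where
each face of good has an edge in common with the unbounded face.  card P = 2 (card G - 1) says
crossings = bounded faces - 1, i.e. the Euler formula of the sphere. -/
def St (G : Type) [Fintype G] (d : G → ℕ) (good : Set G) : Prop :=
  ∃ (P : Type) (_ : Fintype P) (c t : Equiv.Perm P) (s : P → Bool) (l : P × Bool → Option G),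
    IsCurve c t s ∧ IsLab c t s l ∧ Fintype.card P + 2 = 2 * Fintype.card G ∧
    (∀ i, Nat.card {a : P × Bool // l a = some i} = d i) ∧
    ∀ i ∈ good, ∃ (x : P) (b : Bool), l (x, b) = some i ∧ l (x, !b) = none

/-- Realisable sequences. -/
def Realisable (n : ℕ) (d : Fin n → ℕ) : Prop := St (Fin n) d ∅

/-! ### Insertion of a curl on the edge from x to c x: new passages p = inr false, q = inr true. -/

/-- The new order: x, p, q, c x. -/
def cc {P : Type} [DecidableEq P] (c : Equiv.Perm P) (x : P) : Equiv.Perm (P ⊕ Bool) :=
  (Equiv.sumCongr c (Equiv.refl Bool)) *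
    (Equiv.swap (Sum.inl x) (Sum.inr false) * Equiv.swap (Sum.inr false) (Sum.inr true))

/-- The new pairing. -/
def tt {P : Type} (t : Equiv.Perm P) : Equiv.Perm (P ⊕ Bool) := Equiv.sumCongr t Equiv.boolNot

/-- The new signs: g at p, not g at q. -/
def ss {P : Type} (s : P → Bool) (g : Bool) : P ⊕ Bool → Bool
  | Sum.inl z => s z
  | Sum.inr b => xor b g

/-- The new labels (old labels through o, new face w). -/
def ll {P L M : Type} (l : P × Bool → L) (x : P) (g : Bool) (o : L → M) (w : M) :
    (P ⊕ Bool) × Bool → M
  | (Sum.inl z, b) => o (l (z, b))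
  | (Sum.inr true, b) => o (l (x, b))
  | (Sum.inr false, b) => if b = g then o (l (x, !b)) else w

/-- CV: the values of cc and its inverse (simp with Equiv.swap_apply_def, cases). -/
def S_CV : Prop := ∀ (P : Type) [DecidableEq P] (c : Equiv.Perm P) (x : P),
  cc c x (Sum.inl x) = Sum.inr false ∧ cc c x (Sum.inr false) = Sum.inr true ∧
  cc c x (Sum.inr true) = Sum.inl (c x) ∧ (∀ z, z ≠ x → cc c x (Sum.inl z) = Sum.inl (c z)) ∧
  (cc c x).symm (Sum.inr false) = Sum.inl x ∧ (cc c x).symm (Sum.inr true) = Sum.inr false ∧
  (cc c x).symm (Sum.inl (c x)) = Sum.inr true ∧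
  (∀ z, z ≠ c x → (cc c x).symm (Sum.inl z) = Sum.inl (c.symm z))

/-- CUR: the new data is a curve.  (Powers of cc: from inl z one reaches inl (c z) in one or three
steps, so inl of every passage; inr false and inr true after inl x.) -/
def S_CUR : Prop := ∀ (P : Type) [DecidableEq P] [Fintype P] (c t : Equiv.Perm P) (s : P → Bool)
  (x : P) (g : Bool), IsCurve c t s → IsCurve (cc c x) (tt t) (ss s g)

/-- FV: the new face map.  e a := the entry side of the old side a: inr true (= q) in place of
(x, false), inl otherwise.
g = true: (x,true) to (q,true); (q,false) to (p,true) to (x,false); (p,false) fixed.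
g = false: (x,true) to (p,false) to (q,true); (q,false) to (x,false); (p,true) fixed.
(q,true) and (inl x,false) go to e (face (x,true)) and e (face (x,false)); other old sides a go to
e (face a). -/
def ent {P : Type} [DecidableEq P] (x : P) (a : P × Bool) : (P ⊕ Bool) × Bool :=
  if a = (x, false) then (Sum.inr true, false) else (Sum.inl a.1, a.2)

/-- See ent. -/
def S_FV : Prop := ∀ (P : Type) [DecidableEq P] (c t : Equiv.Perm P) (s : P → Bool)
  (x : P) (g : Bool), IsCurve c t s →
  (∀ a : P × Bool, a ≠ (x, true) → a ≠ (x, false) →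
    face (cc c x) (tt t) (ss s g) (Sum.inl a.1, a.2) = ent x (face c t s a)) ∧
  face (cc c x) (tt t) (ss s g) (Sum.inr true, true) = ent x (face c t s (x, true)) ∧
  face (cc c x) (tt t) (ss s g) (Sum.inl x, false) = ent x (face c t s (x, false)) ∧
  (g = true →
    face (cc c x) (tt t) (ss s g) (Sum.inl x, true) = (Sum.inr true, true) ∧
    face (cc c x) (tt t) (ss s g) (Sum.inr true, false) = (Sum.inr false, true) ∧
    face (cc c x) (tt t) (ss s g) (Sum.inr false, true) = (Sum.inl x, false) ∧
    face (cc c x) (tt t) (ss s g) (Sum.inr false, false) = (Sum.inr false, false)) ∧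
  (g = false →
    face (cc c x) (tt t) (ss s g) (Sum.inl x, true) = (Sum.inr false, false) ∧
    face (cc c x) (tt t) (ss s g) (Sum.inr false, false) = (Sum.inr true, true) ∧
    face (cc c x) (tt t) (ss s g) (Sum.inr true, false) = (Sum.inl x, false) ∧
    face (cc c x) (tt t) (ss s g) (Sum.inr false, true) = (Sum.inr false, true))

/-- ORB: abstract orbits.  f on A, h on B; pi : B → Option A (none only on fixed points w of h, a
single one); e : A → B an entry with pi (e a) = some a, from e a every element of the fibre of a
is reached by h, and from every element of the fibre of a one reaches e (f a).  If labels l of A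
describe the orbits of f, then o (l (pi b)) (w0 for pi b = none) describe the orbits of h.
(Left to right: from b reach e (f a), a = pi b, and e (f^[k] a) for all k ≥ 1; f is injective on
the finite A so every a' in the orbit is f^[k] a with k ≥ 1; then inside the fibre.  Right to left:
the label is constant along h: this is hypothesis hst.) -/
def S_ORB : Prop := ∀ (A B L M : Type) [Finite A] (f : A → A) (h : B → B) (pi : B → Option A)
  (e : A → B) (l : A → L) (o : L → M) (w : M), Function.Injective f → Function.Injective o →
  (∀ x, o x ≠ w) → (∀ a, pi (e a) = some a) →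
  (∀ a b, pi b = some a → ∃ k : ℕ, h^[k] (e a) = b) →
  (∀ a b, pi b = some a → ∃ k : ℕ, h^[k] b = e (f a)) →
  (∀ b b', pi b = none → pi b' = none → b = b') →
  (∀ b, pi b = none → pi (h b) = none) →
  (∀ b a, pi b = some a → pi (h b) = some a ∨ pi (h b) = some (f a)) →
  (∀ a b, l a = l b ↔ ∃ k : ℕ, f^[k] a = b) →
  ∀ b b', (match pi b with | none => w | some a => o (l a)) =
    (match pi b' with | none => w | some a => o (l a)) ↔ ∃ k : ℕ, h^[k] b = b'

/-- INJ: the face map is injective. -/
def S_INJ : Prop := ∀ (P : Type) (c t : Equiv.Perm P) (s : P → Bool), IsCurve c t s →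
  Function.Injective (face c t s)

/-- LAB: the new labelling is a labelling (from ORB with pi (inl z, b) = (z, b),
pi (inr true, b) = (x, b), pi (inr false, b) = (x, !b) if b = g and none otherwise, e = ent x). -/
def S_LAB : Prop := ∀ (P L M : Type) [DecidableEq P] [Fintype P] (c t : Equiv.Perm P)
  (s : P → Bool) (l : P × Bool → L) (x : P) (g : Bool) (o : L → M) (w : M), IsCurve c t s →
  IsLab c t s l → Function.Injective o → (∀ y, o y ≠ w) → (∀ m, m = w ∨ ∃ y, m = o y) →
  IsLab (cc c x) (tt t) (ss s g) (ll l x g o w)

/-- CNT: the new face has one side; an old face i gains one side for each side of the edge in it,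
and one more if the side !g is in it. -/
def S_CNT : Prop := ∀ (P L M : Type) [DecidableEq P] [Fintype P] [DecidableEq L]
  (l : P × Bool → L) (x : P) (g : Bool) (o : L → M) (w : M), Function.Injective o →
  (∀ y, o y ≠ w) →
  Nat.card {a : (P ⊕ Bool) × Bool // ll l x g o w a = w} = 1 ∧
  ∀ i, Nat.card {a : (P ⊕ Bool) × Bool // ll l x g o w a = o i} =
    Nat.card {a : P × Bool // l a = i} + (if l (x, true) = i then 1 else 0) +
      (if l (x, false) = i then 1 else 0) + (if l (x, !g) = i then 1 else 0)

/-- OPA: curl into the unbounded face on an edge between i and the unbounded face: degree of i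
plus 1, a new good face of degree 1.  (Good: l (x, b) = some i, l (x, !b) = none; g = b;
o = Option.map some, w = some none; new good witness (inr false, !b), whose other side
(inr false, b) has label none.) -/
def S_OPA : Prop := ∀ (G : Type) [Fintype G] [DecidableEq G] (d : G → ℕ) (good : Set G) (i : G),
  St G d good → i ∈ good →
  St (Option G) (fun k => match k with | none => 1 | some j => d j + if j = i then 1 else 0)
    ({none} ∪ some '' good)

/-- OPB: curl into the face i on an edge between i and the unbounded face: degree of i plus 2, a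
new face of degree 1 (g = !b). -/
def S_OPB : Prop := ∀ (G : Type) [Fintype G] [DecidableEq G] (d : G → ℕ) (good : Set G) (i : G),
  St G d good → i ∈ good →
  St (Option G) (fun k => match k with | none => 1 | some j => d j + if j = i then 2 else 0)
    (some '' good)

/-- BASE: figure eight: P = Bool, c = t = not, s = id or not (decide). -/
def S_BASE : Prop := St Bool (fun _ => 1) Set.univ

/-- ISO: relabelling. -/
def S_ISO : Prop := ∀ (G H : Type) [Fintype G] [Fintype H] (e : H ≃ G) (d : G → ℕ)
  (good : Set G), St G d good → St H (fun k => d (e k)) (e ⁻¹' good)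

/-- TREE: every tree degree sequence.  Induction on card G: card 2: BASE and ISO (both degrees 1).
Otherwise some j with d j = 1 and some i with d i at least 2 (i ≠ j); induction hypothesis for
{k // k ≠ j} with d i decreased by one, OPA, ISO with Option {k // k ≠ j} ≃ G. -/
def S_TREE : Prop := ∀ (G : Type) [Fintype G] (d : G → ℕ), 2 ≤ Fintype.card G → (∀ k, 1 ≤ d k) →
  ∑ k, d k + 2 = 2 * Fintype.card G → St G d Set.univ

/-- PH2: inner curls.  Induction on t = sum of b (OPB on a face with b i ≥ 1, ISO). -/
def S_PH2 : Prop := ∀ (G : Type) [Fintype G] (e b : G → ℕ), St G e Set.univ →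
  St (G ⊕ Fin (∑ k, b k)) (Sum.elim (fun k => e k + 2 * b k) (fun _ => 1)) (Set.range Sum.inl)

/-- ARI: arithmetic.  t = sum d + 2 - 2 n; T = t of the entries equal to 1; on the others
floor((d-1)/2) sums to at least t, so choose b ≤ (d-1)/2 with sum t, e = d - 2 b.
(Sum over the entries of (d - 1 - [d even]) is sum d - n - (n - odd) = t - 2 + odd ≥ 2 t - 1, it is
even, so at least 2 t, when odd ≥ t + 1.) -/
def S_ARI : Prop := ∀ (n : ℕ) (d : Fin n → ℕ), 2 ≤ n → (∀ i, 1 ≤ d i) → 2 * n ≤ ∑ i, d i + 2 →
  ∑ i, d i + 2 ≤ 2 * n + (Finset.univ.filter fun i => d i = 1).card →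
  ∑ i, d i + 2 < 2 * n + (Finset.univ.filter fun i => Odd (d i)).card →
  ∃ (T : Finset (Fin n)) (e b : {i // i ∉ T} → ℕ), (∀ i ∈ T, d i = 1) ∧
    (∀ k : {i // i ∉ T}, d k.1 = e k + 2 * b k) ∧ (∀ k, 1 ≤ e k) ∧ ∑ k, b k = T.card ∧
    ∑ k, e k + 2 = 2 * Fintype.card {i // i ∉ T} ∧ 2 ≤ Fintype.card {i // i ∉ T}

/-- FIN: the theorem (TREE, PH2, ARI, ISO). -/
def S_FIN : Prop := ∀ (n : ℕ) (d : Fin n → ℕ), 2 ≤ n → (∀ i, 1 ≤ d i) → 2 * n ≤ ∑ i, d i + 2 →
  ∑ i, d i + 2 ≤ 2 * n + (Finset.univ.filter fun i => d i = 1).card →
  ∑ i, d i + 2 < 2 * n + (Finset.univ.filter fun i => Odd (d i)).card → Realisable n d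

end Pool.SN
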