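import Pool.Agent.Work.MP_a9cb80_sn.Interface

/-!
MP_a9cb80_lc, part 2: in a sona map the two sides of an edge are in different faces, so the sum of
the bounded degrees is at least 2 (n - 1).  Linear algebra over ZMod 2.
-/

namespace Pool.SN

/-- The boundary of a set of faces, as a set of edges (edge x = from x to c x). -/
def bA {P L : Type} (l : P × Bool → L) : (L → ZMod 2) →ₗ[ZMod 2] (P → ZMod 2) where
  toFun u x := u (l (x, true)) + u (l (x, false))
  map_add' u v := by funext x; simp only [Pi.add_apply]; ring
  map_smul' r u := by funext x; simp only [Pi.smul_apply, smul_eq_mul, RingHom.id_apply]; ring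

/-- The vertex boundary of a set of edges: the edges at the vertex of x are x, c⁻¹ x, t x,
c⁻¹ (t x). -/
def bB {P : Type} (c t : Equiv.Perm P) : (P → ZMod 2) →ₗ[ZMod 2] (P → ZMod 2) where
  toFun y x := y x + y (c.symm x) + y (t x) + y (c.symm (t x))
  map_add' u v := by funext x; simp only [Pi.add_apply]; ring
  map_smul' r u := by funext x; simp only [Pi.smul_apply, smul_eq_mul, RingHom.id_apply]; ring

/-- DUAL: a function on the sides which is constant along faces and equal on the two sides of each
edge is constant.  (face (flip (face (x, true))) = (c x, true), flip (z, b) = (z, !b): two cases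
s (c x) = true or false; then c is transitive.) -/
def S_DUAL : Prop := ∀ (P α : Type) (c t : Equiv.Perm P) (s : P → Bool) (z : P × Bool → α),
  IsCurve c t s → (∀ a, z (face c t s a) = z a) → (∀ x b, z (x, !b) = z (x, b)) →
  ∀ a a', z a = z a'

/-- BA0: the boundary of a boundary.  face maps the four arriving sides (c⁻¹ x, true), (x, false),
(c⁻¹ (t x), true), (t x, false) onto the four departing sides (x, true), (c⁻¹ x, false),
(t x, true), (c⁻¹ (t x), false); labels are constant along face; each label appears twice.
Cases s x = true, false (s (t x) = not s x). -/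
def S_BA0 : Prop := ∀ (P L : Type) (c t : Equiv.Perm P) (s : P → Bool) (l : P × Bool → L),
  IsCurve c t s → (∀ a, l (face c t s a) = l a) → ∀ u, bB c t (bA l u) = 0

/-- RKA: the kernel of bA is inside the constants (DUAL with z = u ∘ l, l surjective), so the range
has dimension at least card L - 1. -/
def S_RKA : Prop := ∀ (P L : Type) [Fintype P] [Fintype L] (c t : Equiv.Perm P) (s : P → Bool)
  (l : P × Bool → L), IsCurve c t s → IsLab c t s l →
  Fintype.card L ≤ Module.finrank (ZMod 2) (LinearMap.range (bA l)) + 1

/-- RKB: the kernel of bB has dimension at most card P / 2 + 1.  (The transpose of bB is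
w ↦ (x ↦ W x + W (c x)), W x = w x + w (t x); its kernel is {w : W constant}, of dimension at most
card P / 2 + 1, because {w : W = 0} = {w : w (t x) = w x} has dimension card P / 2; the rank of bB is
the rank of its transpose: Matrix.rank_transpose.) -/
def S_RKB : Prop := ∀ (P : Type) [Fintype P] (c t : Equiv.Perm P) (s : P → Bool),
  IsCurve c t s →
  2 * Module.finrank (ZMod 2) (LinearMap.ker (bB c t)) ≤ Fintype.card P + 2

/-- COL: planar implies that the two sides of an edge are in different faces.  (range bA is inside
ker bB by BA0 and has at least its dimension, so they are equal; the all-one vector is in ker bB,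
so u (l (x, true)) + u (l (x, false)) = 1 for some u and all x.) -/
def S_COL : Prop := ∀ (P L : Type) [Fintype P] [Fintype L] (c t : Equiv.Perm P) (s : P → Bool)
  (l : P × Bool → L), IsCurve c t s → IsLab c t s l → Fintype.card P + 4 = 2 * Fintype.card L →
  ∀ x, l (x, true) ≠ l (x, false)

/-- NEC: necessary conditions.  All sides: 2 card P = 4 (n - 1) = degree of the unbounded face +
sum of d; by COL each face has at most card P = 2 (n - 1) sides (one per edge). -/
def S_NEC : Prop := ∀ (n : ℕ) (d : Fin n → ℕ), 2 ≤ n → Realisable n d →
  (∀ i, 1 ≤ d i) ∧ (∀ i, d i + 2 ≤ 2 * n) ∧ 2 * n ≤ ∑ i, d i + 2 ∧ ∑ i, d i + 5 ≤ 4 * n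

end Pool.SN
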