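import Pool.Agent.Work.MP_a9cb80_sn.Interface2

/-!
MP_a9cb80_lc, part 3: sequences with n - 1 entries 1.
-/

namespace Pool.SN

/-- BS2: the curve with one inner curl: P = Bool, c = t = not, s = id or not; bounded faces of
degrees 2 (label true) and 1 (label false), unbounded face of degree 1; the face of degree 2 is
next to the unbounded one.  (decide, as for BASE with another labelling.) -/
def S_BS2 : Prop := St Bool (fun b => if b then 2 else 1) {true}

/-- CIR: m + 1 inner curls on a circle: one face of degree 2 (m + 1) and m + 1 faces of degree 1.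
Induction on m: m = 0 is BS2 with ISO (Option (Fin 1) ≃ Bool, none to true), step: OPB at the face
none and ISO. -/
def S_CIR : Prop := ∀ m : ℕ,
  St (Option (Fin (m + 1))) (fun k => match k with | none => 2 * (m + 1) | some _ => 1) {none}

/-- ONE: complete answer for sequences in which all entries but d j are 1 (FIN for
d j < 2 (n - 1), CIR and ISO for d j = 2 (n - 1), NEC for the other direction). -/
def S_ONE : Prop := ∀ (n : ℕ) (d : Fin n → ℕ) (j : Fin n), 2 ≤ n → (∀ i, i ≠ j → d i = 1) →
  (Realisable n d ↔ n ≤ d j + 1 ∧ d j + 2 ≤ 2 * n)

end Pool.SN
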