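import Pool.Agent.Work.MP_a9cb80_sn.Main

/-!
MP_a9cb80_lc, second theorem: curl reduction.  A sona map with k marked bounded faces of degree 1
and r ≥ 2 other bounded faces is a sona map with r bounded faces on whose edges k curls have been
drawn.  So, for each fixed r, the realisable sequences with r arbitrary entries and k entries 1
are described by finitely many integer systems (a semilinear set).
-/

namespace Pool.SN

open scoped Classical

/-- A sona map with bounded faces G, with its data. -/
def Mp (G P : Type) [Fintype G] [Fintype P] (c t : Equiv.Perm P) (s : P → Bool)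
    (l : P × Bool → Option G) : Prop :=
  IsCurve c t s ∧ IsLab c t s l ∧ Fintype.card P + 2 = 2 * Fintype.card G

/-- Degree of a face. -/
noncomputable def fd {P L : Type} (l : P × Bool → L) (i : L) : ℕ := Nat.card {a : P × Bool // l a = i}

/-- Weight of a curl drawn on the side a into the face of a, seen from the face i: 2 if a is in
i, 1 if the other side of the edge is in i. -/
noncomputable def wt {P L : Type} (l : P × Bool → L) (a : P × Bool) (i : L) : ℕ :=
  (if l a = i then 2 else 0) + (if l (a.1, !a.2) = i then 1 else 0)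

/-- ONEF: a side which is a face by itself belongs to a curl: t p = c p, and s p = not b.
(Unfold face, four cases.) -/
def S_ONEF : Prop := ∀ (P : Type) (c t : Equiv.Perm P) (s : P → Bool) (p : P) (b : Bool),
  IsCurve c t s → face c t s (p, b) = (p, b) → t p = c p ∧ s p = !b

/-- REM: removing the two passages p, c p of a curl.  P1 = {z // z ≠ p ∧ z ≠ c p},
x = c⁻¹ p (it is not p, c p since card P ≥ 4 and c is one cycle), c1 = c except c1 x = c (c p),
t1, s1 restrictions; e (inl z) = z, e (inr false) = p, e (inr true) = c p. -/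
def S_REM : Prop := ∀ (P : Type) [Fintype P] (c t : Equiv.Perm P) (s : P → Bool) (p : P),
  IsCurve c t s → t p = c p → 4 ≤ Fintype.card P →
  ∃ (P1 : Type) (_ : Fintype P1) (c1 t1 : Equiv.Perm P1) (s1 : P1 → Bool) (x : P1)
    (e : P1 ⊕ Bool ≃ P), IsCurve c1 t1 s1 ∧ Fintype.card P1 + 2 = Fintype.card P ∧
    (∀ z, e (cc c1 x z) = c (e z)) ∧ (∀ z, e (tt t1 z) = t (e z)) ∧
    (∀ z, s (e z) = ss s1 (s p) z) ∧ e (Sum.inr false) = p

/-- FEQ: the face map is transported by bijections. -/
def S_FEQ : Prop := ∀ (P P' : Type) (c t : Equiv.Perm P) (s : P → Bool) (c' t' : Equiv.Perm P')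
  (s' : P' → Bool) (e : P' ≃ P), (∀ z, e (c' z) = c (e z)) → (∀ z, e (t' z) = t (e z)) →
  (∀ z, s (e z) = s' z) →
  ∀ a : P' × Bool, face c t s (e a.1, a.2) = (e (face c' t' s' a).1, (face c' t' s' a).2)

/-- LBR: converse of LAB.  l' labels the faces after the curl; l1 a = l' (inl a.1, a.2).  With FV:
l' is constant along face'; from inl x one passes through (inr true, .) and (inr false, g);
if face'^[k] a = b then face1^[k'] (pi a) = pi b for some k' (pi as in LAB, induction on k), and
conversely face1 a = b implies that ent x b is reached from (inl a.1, a.2); (inr false, not g) is a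
fixed side, so its label is used only by itself. -/
def S_LBR : Prop := ∀ (P1 M : Type) [Fintype P1] (c1 t1 : Equiv.Perm P1) (s1 : P1 → Bool)
  (x : P1) (g : Bool) (l' : (P1 ⊕ Bool) × Bool → M), IsCurve c1 t1 s1 →
  IsLab (cc c1 x) (tt t1) (ss s1 g) l' →
  (∀ a b : P1 × Bool, l' (Sum.inl a.1, a.2) = l' (Sum.inl b.1, b.2) ↔
    ∃ k : ℕ, (face c1 t1 s1)^[k] a = b) ∧
  (∀ b, l' (Sum.inr true, b) = l' (Sum.inl x, b)) ∧
  l' (Sum.inr false, g) = l' (Sum.inl x, !g) ∧
  (∀ a : P1 × Bool, l' (Sum.inl a.1, a.2) ≠ l' (Sum.inr false, !g)) ∧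
  (∀ m, m = l' (Sum.inr false, !g) ∨ ∃ a : P1 × Bool, l' (Sum.inl a.1, a.2) = m)

/-- DEL: removing a bounded face of degree 1 (label some none; some (some i) = the others, none =
unbounded).  The only side of this face is fixed by face (its orbit has one element), ONEF, REM,
FEQ, LBR for l' (z, b) = l (e z, b) and g = s p. -/
def S_DEL : Prop := ∀ (G P : Type) [Fintype G] [Fintype P] (c t : Equiv.Perm P) (s : P → Bool)
  (l : P × Bool → Option (Option G)), Mp (Option G) P c t s l → 2 ≤ Fintype.card G →
  fd l (some none) = 1 →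
  ∃ (P1 : Type) (_ : Fintype P1) (c1 t1 : Equiv.Perm P1) (s1 : P1 → Bool)
    (l1 : P1 × Bool → Option G) (x : P1) (g : Bool) (e : P1 ⊕ Bool ≃ P),
    Mp G P1 c1 t1 s1 l1 ∧
    ∀ z b, l (e z, b) = ll l1 x g (Option.map some) (some none) (z, b)

/-- RDF: reduction.  Induction on k.  k = 0: the map itself (K empty).  k + 1: K ≃ Option K'
(card K' = k), G ⊕ Option K' ≃ Option (G ⊕ K'), DEL for G ⊕ K'; by CNT (fd of ll) the marked faces
of the smaller map have degree exactly 1 (at most 1 by CNT, at least 1 by surjectivity) and the two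
labels of the edge x are not marked (otherwise the degree of this marked face before was at least
2); induction hypothesis: l0, a1 and an edge x0 with the labels of x; a = a1 plus one at
(x0, not g).  Edge types: inl z by the induction hypothesis, inr true has the labels of x, inr false
has the marked label. -/
def S_RDF : Prop := ∀ (k : ℕ) (G K P : Type) [Fintype G] [Fintype K] [Fintype P]
  (c t : Equiv.Perm P) (s : P → Bool) (l : P × Bool → Option (G ⊕ K)),
  Fintype.card K = k → 2 ≤ Fintype.card G → Mp (G ⊕ K) P c t s l →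
  (∀ q : K, fd l (some (Sum.inr q)) = 1) →
  ∃ (P0 : Type) (_ : Fintype P0) (c0 t0 : Equiv.Perm P0) (s0 : P0 → Bool)
    (l0 : P0 × Bool → Option G) (a : P0 × Bool → ℕ), Mp G P0 c0 t0 s0 l0 ∧ ∑ y, a y = k ∧
    (∀ i : G, fd l (some (Sum.inl i)) = fd l0 (some i) + ∑ y, a y * wt l0 y (some i)) ∧
    ∀ x : P, (∀ (b : Bool) (q : K), l (x, b) ≠ some (Sum.inr q)) →
      ∃ x0 : P0, ∀ b, l (x, b) = Option.map Sum.inl (l0 (x0, b))

/-- RDB: drawing curls.  Induction on k = sum of a: remove one from a at some y = (x0, b0), apply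
the induction hypothesis, draw the curl on the edge j x0 (CUR, LAB, CNT with g = not b0, o =
Option.map some, w = some none) and rename Option (G ⊕ Fin k) ≃ G ⊕ Fin (k+1) keeping G; j x0
keeps its labels (inl (j x0)). -/
def S_RDB : Prop := ∀ (k : ℕ) (G P0 : Type) [Fintype G] [Fintype P0] (c0 t0 : Equiv.Perm P0)
  (s0 : P0 → Bool) (l0 : P0 × Bool → Option G) (a : P0 × Bool → ℕ), Mp G P0 c0 t0 s0 l0 →
  ∑ y, a y = k →
  ∃ (P : Type) (_ : Fintype P) (c t : Equiv.Perm P) (s : P → Bool)
    (l : P × Bool → Option (G ⊕ Fin k)) (j : P0 → P), Mp (G ⊕ Fin k) P c t s l ∧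
    (∀ q, fd l (some (Sum.inr q)) = 1) ∧
    (∀ i : G, fd l (some (Sum.inl i)) = fd l0 (some i) + ∑ y, a y * wt l0 y (some i)) ∧
    ∀ x0 b, l (j x0, b) = Option.map Sum.inl (l0 (x0, b))

/-- The systems: v = degrees of a base map, T = the types (face of the side, face of the other side
of the edge) of its sides, m q = number of curls drawn on sides of type q. -/
def Sys (r k : ℕ) (E v : Fin r → ℕ) (T : Finset (Option (Fin r) × Option (Fin r))) : Prop :=
  ∃ m : Option (Fin r) × Option (Fin r) → ℕ, (∀ q, q ∉ T → m q = 0) ∧ ∑ q, m q = k ∧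
    ∀ i, E i = v i + ∑ q, m q * ((if q.1 = some i then 2 else 0) + (if q.2 = some i then 1 else 0))

/-- Base systems: those of the sona maps with r bounded faces. -/
def Bas (r : ℕ) (v : Fin r → ℕ) (T : Finset (Option (Fin r) × Option (Fin r))) : Prop :=
  ∃ (P : Type) (_ : Fintype P) (c t : Equiv.Perm P) (s : P → Bool)
    (l : P × Bool → Option (Fin r)), Mp (Fin r) P c t s l ∧ (∀ i, v i = fd l (some i)) ∧
    ∀ q, q ∈ T ↔ ∃ a : P × Bool, q = (l a, l (a.1, !a.2))

/-- RED: the reduction for sequences (RDF and RDB with G = Fin r; Fin r ⊕ Fin k ≃ Fin (r + k)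
is finSumFinEquiv, Fin.append; a to m: sum over the sides of type q; m to a: for each q in T choose
one side of type q and put a = m q there, 0 elsewhere). -/
def S_RED : Prop := ∀ (r k : ℕ) (E : Fin r → ℕ), 2 ≤ r →
  (Sona (r + k) (Fin.append E (fun _ : Fin k => 1)) ↔ ∃ v T, Bas r v T ∧ Sys r k E v T)

/-- BAF: there are finitely many base systems (v i is at most the number of sides 2 card P =
4 (r - 1), T is a subset of a finite type). -/
def S_BAF : Prop := ∀ r : ℕ,
  {p : (Fin r → ℕ) × Finset (Option (Fin r) × Option (Fin r)) | Bas r p.1 p.2}.Finite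

/-- The theorem (RED, BAF). -/
def S_SEM : Prop := ∀ r : ℕ, 2 ≤ r →
  ∃ F : Finset ((Fin r → ℕ) × Finset (Option (Fin r) × Option (Fin r))),
    (∀ p, p ∈ F ↔ Bas r p.1 p.2) ∧
    ∀ (k : ℕ) (E : Fin r → ℕ), Sona (r + k) (Fin.append E (fun _ : Fin k => 1)) ↔
      ∃ p ∈ F, Sys r k E p.1 p.2

end Pool.SN
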