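import Pool.Agent.Work.MP_a9cb80_sn.Interface4

/-!
MP_a9cb80_lc, the case t = 1 (sum of the bounded degrees 2 n - 1): complete answer.
-/

namespace Pool.SN

open scoped Classical

/-- NA: no sona map with n ≥ 3 bounded faces has bounded degrees 1, 2, ..., 2.  Induction on n.
G ≃ Option G' with i1 to none (relabel l by Option.map), card G' = n - 1 ≥ 2; DEL gives a map
l1 with bounded faces G', an edge x and g with l (e z, b) = ll l1 x g (Option.map some)
(some none) (z, b).  By CNT 2 = fd l1 (some i) + [l1 (x,true) = some i] + [l1 (x,false) = some i] +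
[l1 (x, !g) = some i] for all i in G'; fd l1 (some i) ≥ 1 (surjectivity), so l1 (x, !g) is not
some i: it is none.  By COL (card P1 + 4 = 2 card (Option G')) l1 (x, g) is not none: it is some
i1', fd l1 (some i1') = 1, all other fd l1 (some i) = 2.  If n - 1 ≥ 3: induction hypothesis.  If
n - 1 = 2: all sides are 2 card P1 = 4 = 1 + 2 + fd l1 none, so fd l1 none = 1: the sides (x, g)
and (x, !g) are both alone in their faces, hence fixed by face (their labels are constant along
face), and ONEF gives s1 x = !g and s1 x = g. -/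
def S_NA : Prop := ∀ (n : ℕ) (G P : Type) [Fintype G] [Fintype P] (c t : Equiv.Perm P)
  (s : P → Bool) (l : P × Bool → Option G) (i1 : G), 3 ≤ n → Fintype.card G = n →
  Mp G P c t s l → fd l (some i1) = 1 → (∀ i, i ≠ i1 → fd l (some i) = 2) → False

/-- T1: the case sum = 2 n - 1.  (Left to right: NEC; if n ≥ 3 and all d i ≤ 2, exactly one d i is 1
and the others are 2: NA.  Right to left: n = 2: the entries are 1 and 2, ONE.  n ≥ 3 and some
d i ≥ 3: FIN: some d i is 1, and at least 2 entries are odd (otherwise one 1 and n - 1 even entries,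
not all 2, have sum at least 2 n + 1).)  Sona and Realisable: sona_iff. -/
def S_T1 : Prop := ∀ (n : ℕ) (d : Fin n → ℕ), 2 ≤ n → ∑ i, d i + 1 = 2 * n →
  (Sona n d ↔ (∀ i, 1 ≤ d i) ∧ (n = 2 ∨ ∃ i, 3 ≤ d i))

end Pool.SN
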