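import Pool.Agent.Work.MP_a9cb80_sn.Interface3

namespace Pool.SN

/-- Sona maps with n bounded faces of degrees d (signed Gauss words on the sphere, one face marked
as the unbounded one). P is the set of the 2 (n - 1) passages of the curve through its crossings,
c the next passage, t the other passage through the same crossing, s the sign of a passage; a side
of an edge is an element of P × Bool, and l gives the face of a side (none = the unbounded face).
card P + 2 = 2 n is Euler's formula: (n - 1) - 2 (n - 1) + (n + 1) = 2. -/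
def Sona (n : ℕ) (d : Fin n → ℕ) : Prop :=
  ∃ (P : Type) (_ : Fintype P) (c t : Equiv.Perm P) (s : P → Bool)
    (l : P × Bool → Option (Fin n)),
    IsCurve c t s ∧ IsLab c t s l ∧ Fintype.card P + 2 = 2 * n ∧
    ∀ i, Nat.card {a : P × Bool // l a = some i} = d i

theorem sona_iff (n : ℕ) (d : Fin n → ℕ) : Sona n d ↔ Realisable n d := by
  constructor
  · rintro ⟨P, hP, c, t, s, l, h1, h2, h3, h4⟩
    exact ⟨P, hP, c, t, s, l, h1, h2, by rw [Fintype.card_fin]; exact h3, h4,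
      fun i hi => absurd hi (Set.notMem_empty i)⟩
  · rintro ⟨P, hP, c, t, s, l, h1, h2, h3, h4, -⟩
    exact ⟨P, hP, c, t, s, l, h1, h2, by rw [Fintype.card_fin] at h3; exact h3, h4⟩

theorem main_t0 (hFIN : S_FIN) (hNEC : S_NEC) (n : ℕ) (d : Fin n → ℕ) (hn : 2 ≤ n)
    (hs : ∑ i, d i + 2 ≤ 2 * n) :
    Sona n d ↔ (∑ i, d i + 2 = 2 * n ∧ ∀ i, 1 ≤ d i) := by
  rw [sona_iff]
  constructor
  · intro h
    obtain ⟨h1, -, h3, -⟩ := hNEC n d hn h
    exact ⟨by omega, h1⟩
  · rintro ⟨h1, h2⟩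
    have h5 : 0 < (Finset.univ.filter fun i => Odd (d i)).card := by
      rw [Finset.card_pos]
      by_contra hne
      rw [Finset.not_nonempty_iff_eq_empty] at hne
      have h6 : ∀ i, 2 ≤ d i := by
        intro i
        have h7 : ¬ Odd (d i) := fun ho => by
          have : i ∈ (Finset.univ.filter fun i => Odd (d i)) := by simp [ho]
          rw [hne] at this
          exact absurd this (Finset.notMem_empty i)
        rcases Nat.lt_or_ge (d i) 2 with h8 | h8
        · exfalso; apply h7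
          have : d i = 1 := by have := h2 i; omega
          rw [this]; exact odd_one
        · exact h8
      have h9 : ∑ i : Fin n, 2 ≤ ∑ i, d i := Finset.sum_le_sum fun i _ => h6 i
      rw [Finset.sum_const, Finset.card_univ, Fintype.card_fin, smul_eq_mul] at h9
      omega
    exact hFIN n d hn h2 (by omega) (by omega) (by omega)

/-- All clauses. -/
theorem main (hFIN : S_FIN) (hNEC : S_NEC) (hONE : S_ONE) :
    (∀ (n : ℕ) (d : Fin n → ℕ), 2 ≤ n → (∀ i, 1 ≤ d i) → 2 * n ≤ ∑ i, d i + 2 →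
      ∑ i, d i + 2 ≤ 2 * n + (Finset.univ.filter fun i => d i = 1).card →
      ∑ i, d i + 2 < 2 * n + (Finset.univ.filter fun i => Odd (d i)).card → Sona n d) ∧
    (∀ (n : ℕ) (d : Fin n → ℕ), 2 ≤ n → Sona n d →
      (∀ i, 1 ≤ d i) ∧ (∀ i, d i + 2 ≤ 2 * n) ∧ 2 * n ≤ ∑ i, d i + 2 ∧ ∑ i, d i + 5 ≤ 4 * n) ∧
    (∀ (n : ℕ) (d : Fin n → ℕ), 2 ≤ n → ∑ i, d i + 2 ≤ 2 * n →
      (Sona n d ↔ (∑ i, d i + 2 = 2 * n ∧ ∀ i, 1 ≤ d i))) ∧
    (∀ (n : ℕ) (d : Fin n → ℕ) (j : Fin n), 2 ≤ n → (∀ i, i ≠ j → d i = 1) →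
      (Sona n d ↔ n ≤ d j + 1 ∧ d j + 2 ≤ 2 * n)) := by
  refine ⟨fun n d h1 h2 h3 h4 h5 => (sona_iff n d).2 (hFIN n d h1 h2 h3 h4 h5),
    fun n d h1 h2 => hNEC n d h1 ((sona_iff n d).1 h2),
    fun n d h1 h2 => main_t0 hFIN hNEC n d h1 h2, fun n d j h1 h2 => ?_⟩
  rw [sona_iff]
  exact hONE n d j h1 h2

end Pool.SN
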