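import Pool.Agent.Work.MP_a9cb80_sn.Main

namespace Pool.SN

/-- Any face can be taken as the unbounded one. -/
theorem sona_mark (n : ℕ) (d : Fin n → ℕ) (j : Fin n) (h : Sona n d) :
    Sona n (Function.update d j (4 * n - 4 - ∑ i, d i)) := by
  classical
  obtain ⟨P, hP, c, t, s, l, h1, h2, h3, h4⟩ := h
  refine ⟨P, hP, c, t, s, fun a => Equiv.swap none (some j) (l a), h1, ⟨?_, ?_⟩, h3, ?_⟩
  · exact (Equiv.swap none (some j)).surjective.comp h2.1
  · intro a b
    rw [← h2.2 a b]
    exact (Equiv.swap none (some j)).injective.eq_iff
  · intro i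
    by_cases hij : i = j
    · subst hij
      rw [Function.update_self]
      have e1 : Nat.card {a : P × Bool // Equiv.swap none (some i) (l a) = some i} =
          Nat.card {a : P × Bool // l a = none} := by
        congr 1
        have : ∀ a : P × Bool, (Equiv.swap none (some i) (l a) = some i) ↔ l a = none := by
          intro a
          rw [Equiv.swap_apply_eq_iff, Equiv.swap_apply_right]
        simp only [this]
      rw [e1]
      have e2 : Fintype.card (P × Bool) =
          Nat.card {a : P × Bool // l a = none} + ∑ i, d i := by
        have e3 : ∀ o : Option (Fin n), Nat.card {a : P × Bool // l a = o} =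
            (Finset.univ.filter fun a => l a = o).card := by
          intro o
          rw [Nat.card_eq_fintype_card, Fintype.card_subtype]
        have e4 := Finset.card_eq_sum_card_fiberwise (f := l) (s := Finset.univ)
          (t := Finset.univ) (fun a _ => Finset.mem_coe.2 (Finset.mem_univ _))
        rw [Finset.card_univ] at e4
        rw [e4, Fintype.sum_option, e3]
        congr 1
        exact Finset.sum_congr rfl fun k _ => by rw [← h4 k, e3]
      rw [Fintype.card_prod, Fintype.card_bool] at e2
      omega
    · rw [Function.update_of_ne hij, ← h4 i]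
      congr 1
      have : ∀ a : P × Bool, (Equiv.swap none (some j) (l a) = some i) ↔ l a = some i := by
        intro a
        rw [Equiv.swap_apply_eq_iff, Equiv.swap_apply_of_ne_of_ne (by simp)
          (by simpa using hij)]
      simp only [this]

/-- The range of FIN for the face j in place of the unbounded face. -/
theorem main_mark (hFIN : S_FIN) (n : ℕ) (d : Fin n → ℕ) (j : Fin n) (hn : 2 ≤ n)
    (h1 : ∀ i, 1 ≤ d i) (h0 : ∑ i, d i + 5 ≤ 4 * n) (hj : d j + 2 ≤ 2 * n)
    (ho : 2 * n ≤ d j + 2 + (Finset.univ.filter fun i =>
      Function.update d j (4 * n - 4 - ∑ i, d i) i = 1).card)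
    (hd : 2 * n < d j + 2 + (Finset.univ.filter fun i =>
      Odd (Function.update d j (4 * n - 4 - ∑ i, d i) i)).card) : Sona n d := by
  classical
  have hs : ∑ i, Function.update d j (4 * n - 4 - ∑ i, d i) i + d j =
      (4 * n - 4 - ∑ i, d i) + ∑ i, d i := by
    rw [Finset.sum_update_of_mem (Finset.mem_univ j)]
    have := Finset.sum_sdiff_eq_sub (s₁ := {j}) (s₂ := Finset.univ) (f := fun i => (d i : ℤ))
      (Finset.subset_univ _)
    have h2 : ∑ i, d i = ∑ i ∈ Finset.univ \ {j}, d i + d j := by
      rw [← Finset.sum_sdiff (Finset.subset_univ {j}), Finset.sum_singleton]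
    omega
  have h5 := (sona_iff n _).2 (hFIN n (Function.update d j (4 * n - 4 - ∑ i, d i)) hn
    (fun i => by
      by_cases hij : i = j
      · subst hij; rw [Function.update_self]; omega
      · rw [Function.update_of_ne hij]; exact h1 i) (by omega) (by omega) (by omega))
  have h6 := sona_mark n _ j h5
  have h7 : Function.update (Function.update d j (4 * n - 4 - ∑ i, d i)) j
      (4 * n - 4 - ∑ i, Function.update d j (4 * n - 4 - ∑ i, d i) i) = d := by
    rw [Function.update_idem]
    have : 4 * n - 4 - ∑ i, Function.update d j (4 * n - 4 - ∑ i, d i) i = d j := by omega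
    rw [this, Function.update_eq_self]
  rw [h7] at h6
  exact h6

end Pool.SN
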