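import Pool.Agent.Work.MP_a9cb80_sn.Main2
import Pool.Agent.Work.MP_a9cb80_sn.Interface5

namespace Pool.SN

theorem card_sw {n : ℕ} (o : Option (Fin n)) (p : ℕ → Prop) [DecidablePred p]
    (D : Option (Fin n) → ℕ) :
    (Finset.univ.filter fun x => x ≠ o ∧ p (D x)).card =
      (Finset.univ.filter fun i : Fin n => p (D (Equiv.swap none o (some i)))).card := by
  symm
  apply Finset.card_bij (fun i _ => Equiv.swap none o (some i))
  · intro i hi
    simp only [Finset.mem_filter, Finset.mem_univ, true_and] at hi ⊢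
    refine ⟨?_, hi⟩
    intro h
    rw [Equiv.swap_apply_eq_iff, Equiv.swap_apply_right] at h
    exact Option.some_ne_none i h
  · intro i _ j _ h
    exact Option.some.inj ((Equiv.swap none o).injective h)
  · intro x hx
    simp only [Finset.mem_filter, Finset.mem_univ, true_and] at hx
    have hne : Equiv.swap none o x ≠ none := by
      intro h
      rw [Equiv.swap_apply_eq_iff, Equiv.swap_apply_left] at h
      exact hx.1 h
    obtain ⟨i, hi⟩ := Option.ne_none_iff_exists'.1 hne
    have hx' : Equiv.swap none o (some i) = x := by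
      rw [Equiv.swap_apply_eq_iff]; exact hi.symm
    refine ⟨i, ?_, hx'⟩
    simp only [Finset.mem_filter, Finset.mem_univ, true_and]
    rw [hx']; exact hx.2

/-- The range, for any face (bounded or not) in the role of the large one. -/
theorem range_any (hFIN : S_FIN) (n : ℕ) (d : Fin n → ℕ) (o : Option (Fin n)) (hn : 2 ≤ n)
    (h1 : ∀ i, 1 ≤ d i) (h0 : ∑ i, d i + 5 ≤ 4 * n)
    (hj : o.elim (4 * n - 4 - ∑ i, d i) d + 2 ≤ 2 * n)
    (ho : 2 * n ≤ o.elim (4 * n - 4 - ∑ i, d i) d + 2 + (Finset.univ.filter fun x : Option (Fin n) =>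
      x ≠ o ∧ x.elim (4 * n - 4 - ∑ i, d i) d = 1).card)
    (hd : 2 * n < o.elim (4 * n - 4 - ∑ i, d i) d + 2 + (Finset.univ.filter fun x : Option (Fin n) =>
      x ≠ o ∧ Odd (x.elim (4 * n - 4 - ∑ i, d i) d)).card) : Sona n d := by
  rw [card_sw o (fun m => m = 1) (fun x => x.elim (4 * n - 4 - ∑ i, d i) d)] at ho
  rw [card_sw o (fun m => Odd m) (fun x => x.elim (4 * n - 4 - ∑ i, d i) d)] at hd
  cases o with
  | none =>
    simp only [Equiv.swap_self, Equiv.refl_apply, Option.elim_none, Option.elim_some] at hj ho hd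
    exact (sona_iff n d).2 (hFIN n d hn h1 (by omega) (by omega) (by omega))
  | some j =>
    have e : ∀ i : Fin n, (Equiv.swap none (some j) (some i)).elim (4 * n - 4 - ∑ i, d i) d =
        Function.update d j (4 * n - 4 - ∑ i, d i) i := by
      intro i
      by_cases hij : i = j
      · subst hij
        rw [Equiv.swap_apply_right, Function.update_self]; rfl
      · rw [Equiv.swap_apply_of_ne_of_ne (by simp) (by simpa using hij),
          Function.update_of_ne hij]; rfl
    simp only [e, Option.elim_some] at hj ho hd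
    exact main_mark hFIN n d j hn h1 h0 hj ho hd

/-- Complete answer for sum at most 2 n - 1. -/
theorem small_sum (hFIN : S_FIN) (hNEC : S_NEC) (hT1 : S_T1) (n : ℕ) (d : Fin n → ℕ)
    (hn : 2 ≤ n) (hs : ∑ i, d i + 1 ≤ 2 * n) :
    Sona n d ↔ (∀ i, 1 ≤ d i) ∧ (∑ i, d i + 2 = 2 * n ∨
      (∑ i, d i + 1 = 2 * n ∧ (n = 2 ∨ ∃ i, 3 ≤ d i))) := by
  by_cases h : ∑ i, d i + 1 = 2 * n
  · rw [hT1 n d hn h]
    constructor
    · rintro ⟨h1, h2⟩
      exact ⟨h1, Or.inr ⟨h, h2⟩⟩
    · rintro ⟨h1, h2 | ⟨-, h2⟩⟩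
      · omega
      · exact ⟨h1, h2⟩
  · rw [main_t0 hFIN hNEC n d hn (by omega)]
    constructor
    · rintro ⟨h1, h2⟩
      exact ⟨h2, Or.inl h1⟩
    · rintro ⟨h1, h2 | ⟨h2, -⟩⟩
      · exact ⟨h2, h1⟩
      · exact absurd h2 h

end Pool.SN
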